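import Mathlib

set_option autoImplicit false

open Filter Topology

namespace Pool.Agent.Q8.KS

/-- A closed convex cone. -/
structure IsCone {E : Type} [NormedAddCommGroup E] [NormedSpace ℝ E] (C : Set E) : Prop where
  closed : IsClosed C
  zero : (0 : E) ∈ C
  add : ∀ x ∈ C, ∀ y ∈ C, x + y ∈ C
  smul : ∀ a : ℝ, 0 ≤ a → ∀ x ∈ C, a • x ∈ C

variable {E : Type} [NormedAddCommGroup E] [NormedSpace ℝ E] [FiniteDimensional ℝ E]

lemma cont_lin (l : E →ₗ[ℝ] ℝ) : Continuous l := l.continuous_of_finiteDimensional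

lemma norm_le {C : Set E} (hC : IsCone C) (l : E →ₗ[ℝ] ℝ) (hl : ∀ x ∈ C, x ≠ 0 → 0 < l x) :
    ∃ M : ℝ, 0 < M ∧ ∀ x ∈ C, ‖x‖ ≤ M * l x := by
  have hK : IsCompact (C ∩ Metric.sphere (0 : E) 1) :=
    (isCompact_sphere (0 : E) 1).inter_left hC.closed
  rcases (C ∩ Metric.sphere (0 : E) 1).eq_empty_or_nonempty with h | h
  · refine ⟨1, one_pos, fun x hx => ?_⟩
    by_cases hx0 : x = 0
    · simp [hx0]
    · exfalso
      have hn : 0 < ‖x‖ := norm_pos_iff.2 hx0
      have : ‖x‖⁻¹ • x ∈ C ∩ Metric.sphere (0 : E) 1 := by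
        refine ⟨hC.smul _ (inv_nonneg.2 hn.le) x hx, ?_⟩
        rw [mem_sphere_zero_iff_norm, norm_smul, norm_inv, norm_norm, inv_mul_cancel₀ hn.ne']
      rw [h] at this
      exact this
  · obtain ⟨y, hy, hmin⟩ := hK.exists_isMinOn h (cont_lin l).continuousOn
    have hy0 : y ≠ 0 := by
      intro h0
      have := mem_sphere_zero_iff_norm.1 hy.2
      rw [h0, norm_zero] at this
      exact zero_ne_one this
    have hly : 0 < l y := hl y hy.1 hy0
    refine ⟨(l y)⁻¹, inv_pos.2 hly, fun x hx => ?_⟩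
    by_cases hx0 : x = 0
    · simp [hx0]
    · have hn : 0 < ‖x‖ := norm_pos_iff.2 hx0
      have hm : ‖x‖⁻¹ • x ∈ C ∩ Metric.sphere (0 : E) 1 := by
        refine ⟨hC.smul _ (inv_nonneg.2 hn.le) x hx, ?_⟩
        rw [mem_sphere_zero_iff_norm, norm_smul, norm_inv, norm_norm, inv_mul_cancel₀ hn.ne']
      have h2 : l y ≤ l (‖x‖⁻¹ • x) := hmin hm
      rw [map_smul, smul_eq_mul] at h2
      rw [inv_mul_eq_div, le_div_iff₀ hly]
      have h3 : ‖x‖ * l y ≤ ‖x‖ * (‖x‖⁻¹ * l x) := mul_le_mul_of_nonneg_left h2 hn.le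
      rwa [← mul_assoc, mul_inv_cancel₀ hn.ne', one_mul] at h3

omit [FiniteDimensional ℝ E] in
lemma unit_le {C : Set E} (hC : IsCone C) {H : E} (hH : H ∈ interior C) :
    ∃ M : ℝ, 0 < M ∧ ∀ x : E, (M * ‖x‖) • H - x ∈ C := by
  obtain ⟨ε, hε, hb⟩ := Metric.mem_nhds_iff.1 (mem_interior_iff_mem_nhds.1 hH)
  refine ⟨2 / ε, by positivity, fun x => ?_⟩
  by_cases hx : x = 0
  · simp [hx, hC.zero]
  · have hn : 0 < ‖x‖ := norm_pos_iff.2 hx
    have h1 : H - (ε / 2 * ‖x‖⁻¹) • x ∈ C := by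
      apply hb
      rw [Metric.mem_ball, dist_eq_norm]
      have : H - (ε / 2 * ‖x‖⁻¹) • x - H = -((ε / 2 * ‖x‖⁻¹) • x) := by abel
      rw [this, norm_neg, norm_smul, Real.norm_eq_abs, abs_of_pos (by positivity), mul_assoc,
        inv_mul_cancel₀ hn.ne']
      linarith
    have h2 := hC.smul (2 / ε * ‖x‖) (by positivity) _ h1
    have h3 : (2 / ε * ‖x‖) • (H - (ε / 2 * ‖x‖⁻¹) • x) = (2 / ε * ‖x‖) • H - x := by
      rw [smul_sub, smul_smul]
      congr 1
      have : 2 / ε * ‖x‖ * (ε / 2 * ‖x‖⁻¹) = 1 := by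
        field_simp
      rw [this, one_smul]
    rwa [h3] at h2

omit [FiniteDimensional ℝ E] in
lemma pow_mem {C : Set E} {B : E →ₗ[ℝ] E} (hB : ∀ x ∈ C, B x ∈ C) (k : ℕ) {x : E} (hx : x ∈ C) :
    (B ^ k) x ∈ C := by
  induction k with
  | zero => simpa using hx
  | succ k ih =>
    rw [pow_succ']
    exact hB _ ih

/-- **Perron-Frobenius for cones**, with the growth rate of the degrees. -/
theorem perron {C : Set E} (hC : IsCone C) (l : E →ₗ[ℝ] ℝ) (hl : ∀ x ∈ C, x ≠ 0 → 0 < l x)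
    {H : E} (hH : H ∈ interior C) (B : E →ₗ[ℝ] E) (hB : ∀ x ∈ C, B x ∈ C)
    {d : ℝ} (hd : 0 < d) (hlim : Tendsto (fun k : ℕ => (l ((B ^ k) H)) ^ (1 / (k : ℝ))) atTop (𝓝 d)) :
    ∃ v ∈ C, v ≠ 0 ∧ B v = d • v := by
  obtain ⟨M, hM, hnorm⟩ := norm_le hC l hl
  obtain ⟨M2, hM2, hunit⟩ := unit_le hC hH
  have hHC : H ∈ C := interior_subset hH
  have hnn : ∀ x ∈ C, 0 ≤ l x := by
    intro x hx
    by_cases h0 : x = 0
    · simp [h0]
    · exact (hl x hx h0).le
  have hH0 : H ≠ 0 := by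
    intro h0
    have : Tendsto (fun k : ℕ => (l ((B ^ k) H)) ^ (1 / (k : ℝ))) atTop (𝓝 0) := by
      refine tendsto_const_nhds.congr' ?_
      filter_upwards [eventually_gt_atTop 0] with k hk
      rw [h0, map_zero, map_zero, Real.zero_rpow]
      have : (0 : ℝ) < k := by exact_mod_cast hk
      positivity
    exact hd.ne' (tendsto_nhds_unique hlim this)
  -- the resolvent
  have hsum : ∀ t : ℝ, d < t → Summable fun k : ℕ => (t ^ (k + 1))⁻¹ • (B ^ k) H := by
    intro t ht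
    have ht0 : 0 < t := hd.trans ht
    obtain ⟨r, hdr, hrt⟩ := exists_between ht
    have hr0 : 0 < r := hd.trans hdr
    have hg : Summable fun k : ℕ => M * (t⁻¹ * (r / t) ^ k) := by
      refine Summable.mul_left _ (Summable.mul_left _ ?_)
      exact summable_geometric_of_lt_one (by positivity) ((div_lt_one ht0).2 hrt)
    refine Summable.of_norm_bounded_eventually_nat hg ?_
    have hev := (hlim.eventually (eventually_lt_nhds hdr)).and (eventually_gt_atTop 0)
    filter_upwards [hev] with k hk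
    obtain ⟨h1, h2⟩ := hk
    have hk0 : (0 : ℝ) < k := by exact_mod_cast h2
    have hmem := pow_mem hB k hHC
    have h3 : l ((B ^ k) H) ≤ r ^ k := by
      have h4 : ((l ((B ^ k) H)) ^ (1 / (k : ℝ))) ^ k ≤ r ^ k :=
        pow_le_pow_left₀ (Real.rpow_nonneg (hnn _ hmem) _) h1.le k
      rwa [← Real.rpow_natCast, ← Real.rpow_mul (hnn _ hmem), one_div, inv_mul_cancel₀ hk0.ne',
        Real.rpow_one] at h4
    rw [norm_smul, norm_inv, norm_pow, Real.norm_eq_abs, abs_of_pos ht0]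
    calc (t ^ (k + 1))⁻¹ * ‖(B ^ k) H‖ ≤ (t ^ (k + 1))⁻¹ * (M * r ^ k) := by
          refine mul_le_mul_of_nonneg_left ((hnorm _ hmem).trans ?_) (by positivity)
          exact mul_le_mul_of_nonneg_left h3 hM.le
      _ = M * (t⁻¹ * (r / t) ^ k) := by
          rw [div_pow, pow_succ, mul_inv]
          ring
  have hBc : Continuous B := B.continuous_of_finiteDimensional
  let BL : E →L[ℝ] E := ⟨B, hBc⟩
  let S : ℝ → E := fun t => ∑' k : ℕ, (t ^ (k + 1))⁻¹ • (B ^ k) H
  have hSmem : ∀ t, d < t → S t ∈ C := by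
    intro t ht
    have ht0 : 0 < t := hd.trans ht
    refine hC.closed.mem_of_tendsto (hsum t ht).hasSum.tendsto_sum_nat (Eventually.of_forall ?_)
    intro n
    induction n with
    | zero => simpa using hC.zero
    | succ n ih =>
      rw [Finset.sum_range_succ]
      exact hC.add _ ih _ (hC.smul _ (by positivity) _ (pow_mem hB n hHC))
  have hSeq : ∀ t, d < t → t • S t = H + B (S t) := by
    intro t ht
    have ht0 : 0 < t := hd.trans ht
    have h1 : B (S t) = ∑' k : ℕ, (t ^ (k + 1))⁻¹ • (B ^ (k + 1)) H := by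
      have h2 : BL (S t) = ∑' k : ℕ, BL ((t ^ (k + 1))⁻¹ • (B ^ k) H) := BL.map_tsum (hsum t ht)
      have h3 : ∀ k : ℕ, BL ((t ^ (k + 1))⁻¹ • (B ^ k) H) = (t ^ (k + 1))⁻¹ • (B ^ (k + 1)) H := by
        intro k
        have h6 : (B ^ (k + 1)) H = B ((B ^ k) H) := by rw [pow_succ']; rfl
        rw [map_smul, h6]
        rfl
      rw [tsum_congr h3] at h2
      exact h2
    have h4 : t • S t = ∑' k : ℕ, (t ^ k)⁻¹ • (B ^ k) H := by
      show t • (∑' k : ℕ, (t ^ (k + 1))⁻¹ • (B ^ k) H) = _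
      rw [← Summable.tsum_const_smul t (hsum t ht)]
      refine tsum_congr fun k => ?_
      rw [smul_smul]
      congr 1
      rw [pow_succ]
      field_simp
    have h5 : Summable fun k : ℕ => (t ^ k)⁻¹ • (B ^ k) H := by
      have := (hsum t ht).const_smul t
      refine this.congr fun k => ?_
      rw [smul_smul]
      congr 1
      rw [pow_succ]
      field_simp
    rw [h4, h5.tsum_eq_zero_add, h1]
    simp
  -- normalise
  let τ : ℕ → ℝ := fun j => d + 1 / ((j : ℝ) + 1)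
  have hτ : ∀ j, d < τ j := by
    intro j
    show d < d + 1 / ((j : ℝ) + 1)
    have : (0 : ℝ) < 1 / ((j : ℝ) + 1) := by positivity
    linarith
  have hτlim : Tendsto τ atTop (𝓝 d) := by
    have := (tendsto_one_div_add_atTop_nhds_zero_nat (𝕜 := ℝ)).const_add d
    rwa [add_zero] at this
  let lam : ℕ → ℝ := fun j => (1 + l (S (τ j)))⁻¹
  have hlS : ∀ j, 0 ≤ l (S (τ j)) := fun j => hnn _ (hSmem _ (hτ j))
  have hlam : ∀ j, lam j ∈ Set.Icc (0 : ℝ) 1 := by
    intro j
    have h1 := hlS j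
    exact ⟨inv_nonneg.2 (by linarith), inv_le_one_of_one_le₀ (by linarith)⟩
  let w : ℕ → E := fun j => lam j • S (τ j)
  have hwC : ∀ j, w j ∈ C := fun j => hC.smul _ (hlam j).1 _ (hSmem _ (hτ j))
  have hlw : ∀ j, l (w j) = 1 - lam j := by
    intro j
    show l (lam j • S (τ j)) = _
    rw [map_smul, smul_eq_mul]
    show (1 + l (S (τ j)))⁻¹ * l (S (τ j)) = 1 - (1 + l (S (τ j)))⁻¹
    have h1 : 1 + l (S (τ j)) ≠ 0 := by
      have := hlS j
      positivity
    field_simp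
    ring
  have hwn : ∀ j, w j ∈ Metric.closedBall (0 : E) M := by
    intro j
    rw [mem_closedBall_zero_iff]
    refine (hnorm _ (hwC j)).trans ?_
    rw [hlw j]
    have := (hlam j).1
    nlinarith
  have hcomp : IsCompact (Metric.closedBall (0 : E) M ×ˢ Set.Icc (0 : ℝ) 1) :=
    (isCompact_closedBall 0 M).prod isCompact_Icc
  obtain ⟨⟨v, mu⟩, hvmem, ψ, hψ, hlimv⟩ := hcomp.tendsto_subseq
    (x := fun j => (w j, lam j)) (fun j => ⟨hwn j, hlam j⟩)
  have hv1 : Tendsto (fun j => w (ψ j)) atTop (𝓝 v) := (continuous_fst.tendsto _).comp hlimv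
  have hv2 : Tendsto (fun j => lam (ψ j)) atTop (𝓝 mu) := (continuous_snd.tendsto _).comp hlimv
  have hvC : v ∈ C := hC.closed.mem_of_tendsto hv1 (Eventually.of_forall fun j => hwC _)
  have hlv : l v = 1 - mu := by
    have h1 : Tendsto (fun j => l (w (ψ j))) atTop (𝓝 (l v)) :=
      ((cont_lin l).tendsto v).comp hv1
    have h2 : Tendsto (fun j => 1 - lam (ψ j)) atTop (𝓝 (1 - mu)) := hv2.const_sub 1
    refine tendsto_nhds_unique h1 (h2.congr fun j => (hlw _).symm)
  have heq : d • v = mu • H + B v := by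
    have h1 : Tendsto (fun j => τ (ψ j) • w (ψ j)) atTop (𝓝 (d • v)) :=
      (hτlim.comp hψ.tendsto_atTop).smul hv1
    have h2 : Tendsto (fun j => lam (ψ j) • H + B (w (ψ j))) atTop (𝓝 (mu • H + B v)) :=
      (hv2.smul_const H).add ((hBc.tendsto v).comp hv1)
    refine tendsto_nhds_unique h1 (h2.congr fun j => ?_)
    show lam (ψ j) • H + B (lam (ψ j) • S (τ (ψ j))) = τ (ψ j) • lam (ψ j) • S (τ (ψ j))
    rw [map_smul, ← smul_add, ← hSeq _ (hτ _), smul_comm]
  by_cases hmu : mu = 0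
  · refine ⟨v, hvC, ?_, ?_⟩
    · intro h0
      rw [h0, map_zero, hmu] at hlv
      norm_num at hlv
    · rw [hmu, zero_smul, zero_add] at heq
      exact heq.symm
  · exfalso
    have hmu0 : 0 < mu := lt_of_le_of_ne hvmem.2.1 (Ne.symm hmu)
    obtain ⟨s, hs⟩ : ∃ s : E, s = mu⁻¹ • v := ⟨_, rfl⟩
    have hsC : s ∈ C := by rw [hs]; exact hC.smul _ (inv_nonneg.2 hmu0.le) _ hvC
    have hseq : d • s = H + B s := by
      rw [hs, smul_comm, heq, smul_add, smul_smul, inv_mul_cancel₀ hmu, one_smul, map_smul]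
    have hBs : B s ∈ C := hB _ hsC
    have hs0 : s ≠ 0 := by
      intro h0
      rw [h0, smul_zero, map_zero, add_zero] at hseq
      exact hH0 hseq.symm
    have hls : 0 < l s := hl s hsC hs0
    obtain ⟨κ, hκ⟩ : ∃ κ : ℝ, κ = M2 * ‖s‖ := ⟨_, rfl⟩
    have hκ0 : 0 < κ := by rw [hκ]; exact mul_pos hM2 (norm_pos_iff.2 hs0)
    have hκs : κ • H - s ∈ C := by rw [hκ]; exact hunit s
    obtain ⟨ρ, hρ⟩ : ∃ ρ : ℝ, ρ = d - κ⁻¹ := ⟨_, rfl⟩
    have h1 : ρ • s - B s ∈ C := by
      have h2 : ρ • s - B s = κ⁻¹ • (κ • H - s) := by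
        rw [smul_sub, smul_smul, inv_mul_cancel₀ hκ0.ne', one_smul, hρ, sub_smul, hseq]
        abel
      rw [h2]
      exact hC.smul _ (inv_nonneg.2 hκ0.le) _ hκs
    have hρ0 : 0 ≤ ρ := by
      have h2 : 0 ≤ l (ρ • s) := by
        have h3 : ρ • s = (ρ • s - B s) + B s := by abel
        rw [h3]
        exact hnn _ (hC.add _ h1 _ hBs)
      rw [map_smul, smul_eq_mul] at h2
      exact nonneg_of_mul_nonneg_left h2 hls
    have h2 : ∀ m : ℕ, ρ ^ m • s - (B ^ m) s ∈ C := by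
      intro m
      induction m with
      | zero => simpa using hC.zero
      | succ m ih =>
        have h3 : ρ ^ (m + 1) • s - (B ^ (m + 1)) s
            = ρ ^ m • (ρ • s - B s) + B (ρ ^ m • s - (B ^ m) s) := by
          have h6 : (B ^ (m + 1)) s = B ((B ^ m) s) := by rw [pow_succ']; rfl
          rw [map_sub, map_smul, smul_sub, smul_smul, pow_succ, h6]
          abel
        rw [h3]
        exact hC.add _ (hC.smul _ (pow_nonneg hρ0 _) _ h1) _ (hB _ ih)
    have h3 : ∀ m : ℕ, l ((B ^ m) H) ≤ d * l s * ρ ^ m := by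
      intro m
      have h4 : (B ^ m) (B s) ∈ C := pow_mem hB m hBs
      have h5 : (B ^ m) H = d • (B ^ m) s - (B ^ m) (B s) := by
        rw [← map_smul, ← map_sub, hseq]
        simp
      have h6 := hnn _ (h2 m)
      rw [map_sub, map_smul, smul_eq_mul] at h6
      have h7 := hnn _ h4
      rw [h5, map_sub, map_smul, smul_eq_mul]
      nlinarith
    have h4 : Tendsto (fun k : ℕ => (d * l s * ρ ^ k) ^ (1 / (k : ℝ))) atTop (𝓝 ρ) := by
      have h5 : Tendsto (fun k : ℕ => (d * l s) ^ (1 / (k : ℝ)) * ρ) atTop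
          (𝓝 ((d * l s) ^ (0 : ℝ) * ρ)) := by
        refine Tendsto.mul_const _ ?_
        have h6 : Tendsto (fun k : ℕ => 1 / (k : ℝ)) atTop (𝓝 0) :=
          tendsto_one_div_atTop_nhds_zero_nat
        exact (Real.continuousAt_const_rpow (by positivity)).tendsto.comp h6
      rw [Real.rpow_zero, one_mul] at h5
      refine h5.congr' ?_
      filter_upwards [eventually_gt_atTop 0] with k hk
      have hk0 : (0 : ℝ) < k := by exact_mod_cast hk
      rw [Real.mul_rpow (by positivity) (pow_nonneg hρ0 _), ← Real.rpow_natCast ρ k,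
        ← Real.rpow_mul hρ0, one_div, mul_inv_cancel₀ hk0.ne', Real.rpow_one]
    have h5 : d ≤ ρ := by
      refine le_of_tendsto_of_tendsto hlim h4 (Eventually.of_forall fun k => ?_)
      exact Real.rpow_le_rpow (hnn _ (pow_mem hB k hHC)) (h3 k) (by positivity)
    have h6 : 0 < κ⁻¹ := inv_pos.2 hκ0
    rw [hρ] at h5
    linarith

end Pool.Agent.Q8.KS
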