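import Mathlib
import Pool.Agent.Q8.KS.Perron

set_option autoImplicit false

open Filter Topology

namespace Pool.Agent.Q8.KS

/-! ### Powers of a complex matrix -/

section cplx

variable {V : Type} [AddCommGroup V] [Module ℂ V]

lemma pow_expand (T : V →ₗ[ℂ] V) (μ : ℂ) (v : V) (n : ℕ) (hn : ((T - μ • 1) ^ n) v = 0) (k : ℕ) :
    (T ^ k) v = ∑ m ∈ Finset.range n, ((k.choose m : ℂ) * μ ^ (k - m)) • ((T - μ • 1) ^ m) v := by
  have h1 : T = (T - μ • 1) + μ • 1 := by abel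
  have hc : Commute (T - μ • (1 : V →ₗ[ℂ] V)) (μ • 1) := by
    rw [Algebra.smul_def, mul_one]
    exact Algebra.commute_algebraMap_right _ _
  have h2 : (T ^ k) v = ∑ m ∈ Finset.range (k + 1),
      ((k.choose m : ℂ) * μ ^ (k - m)) • ((T - μ • 1) ^ m) v := by
    conv_lhs => rw [h1, hc.add_pow]
    rw [LinearMap.sum_apply]
    refine Finset.sum_congr rfl fun m _ => ?_
    rw [smul_pow, one_pow, mul_assoc, Module.End.mul_apply]
    have h3 : ((μ ^ (k - m) • (1 : V →ₗ[ℂ] V)) * ((k.choose m : ℕ) : V →ₗ[ℂ] V)) v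
        = ((k.choose m : ℂ) * μ ^ (k - m)) • v := by
      rw [Module.End.mul_apply, LinearMap.smul_apply, Module.End.one_apply]
      have : ((k.choose m : ℕ) : V →ₗ[ℂ] V) v = (k.choose m : ℂ) • v := by
        rw [Module.End.natCast_apply, Nat.cast_smul_eq_nsmul]
      rw [this, smul_smul, mul_comm]
    rw [h3, map_smul]
  rw [h2]
  have hz : ∀ m, n ≤ m → ((T - μ • 1) ^ m) v = 0 := by
    intro m hm
    obtain ⟨j, rfl⟩ := Nat.exists_eq_add_of_le hm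
    rw [Nat.add_comm, pow_add, Module.End.mul_apply, hn, map_zero]
  have hA : ∑ m ∈ Finset.range (k + 1), ((k.choose m : ℂ) * μ ^ (k - m)) • ((T - μ • 1) ^ m) v
      = ∑ m ∈ Finset.range (k + 1 + n),
        ((k.choose m : ℂ) * μ ^ (k - m)) • ((T - μ • 1) ^ m) v := by
    refine Finset.sum_subset (Finset.range_subset_range.2 (by omega)) fun m _ hm => ?_
    have : k < m := by
      rw [Finset.mem_range] at hm
      omega
    rw [Nat.choose_eq_zero_of_lt this]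
    simp
  have hB : ∑ m ∈ Finset.range n, ((k.choose m : ℂ) * μ ^ (k - m)) • ((T - μ • 1) ^ m) v
      = ∑ m ∈ Finset.range (k + 1 + n),
        ((k.choose m : ℂ) * μ ^ (k - m)) • ((T - μ • 1) ^ m) v := by
    refine Finset.sum_subset (Finset.range_subset_range.2 (by omega)) fun m _ hm => ?_
    have : n ≤ m := by
      rw [Finset.mem_range] at hm
      omega
    rw [hz m this, smul_zero]
  rw [hA, hB]

/-- The iterates of a vector under a nilpotent operator are linearly independent. -/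
lemma indep (N : V →ₗ[ℂ] V) (v : V) (ℓ : ℕ) (h0 : (N ^ ℓ) v ≠ 0) (h1 : (N ^ (ℓ + 1)) v = 0) :
    ∃ φ : V →ₗ[ℂ] ℂ, (∀ j, j < ℓ → φ ((N ^ j) v) = 0) ∧ φ ((N ^ ℓ) v) = 1 := by
  have hz : ∀ m, ℓ < m → (N ^ m) v = 0 := by
    intro m hm
    obtain ⟨j, rfl⟩ := Nat.exists_eq_add_of_le (Nat.succ_le_of_lt hm)
    rw [Nat.add_comm, pow_add, Module.End.mul_apply]
    show (N ^ j) ((N ^ (ℓ + 1)) v) = 0
    rw [h1, map_zero]
  have hli : LinearIndependent ℂ (fun i : Fin (ℓ + 1) => (N ^ (i : ℕ)) v) := by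
    rw [Fintype.linearIndependent_iff]
    intro g hg
    have key : ∀ n : ℕ, ∀ i : Fin (ℓ + 1), (i : ℕ) = n → g i = 0 := by
      intro n
      induction n using Nat.strong_induction_on with
      | _ n ih =>
        intro i hi
        have h2 : (N ^ (ℓ - n)) (∑ j, g j • (N ^ (j : ℕ)) v) = 0 := by rw [hg, map_zero]
        rw [map_sum, Finset.sum_eq_single i] at h2
        · rw [map_smul, ← Module.End.mul_apply, ← pow_add, hi] at h2
          have h3 : ℓ - n + n = ℓ := by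
            have := i.2
            omega
          rw [h3] at h2
          exact (smul_eq_zero.1 h2).resolve_right h0
        · intro j _ hj
          rcases lt_or_gt_of_ne (fun h => hj (Fin.ext h) : (j : ℕ) ≠ (i : ℕ)) with h4 | h4
          · rw [ih j (by omega) j rfl, zero_smul, map_zero]
          · rw [map_smul, ← Module.End.mul_apply, ← pow_add, hz _ (by omega), smul_zero]
        · intro h
          exact absurd (Finset.mem_univ i) h
    exact fun i => key i i rfl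
  obtain ⟨φ, hφ⟩ := LinearMap.exists_extend
    ((Finsupp.lapply (Fin.last ℓ)).comp hli.repr)
  have hval : ∀ i : Fin (ℓ + 1), φ ((N ^ (i : ℕ)) v) = (Finsupp.single i (1 : ℂ)) (Fin.last ℓ) := by
    intro i
    have hmem : (N ^ (i : ℕ)) v ∈ Submodule.span ℂ (Set.range fun i : Fin (ℓ + 1) => (N ^ (i : ℕ)) v) :=
      Submodule.subset_span ⟨i, rfl⟩
    have h2 := LinearMap.congr_fun hφ ⟨_, hmem⟩
    rw [LinearMap.comp_apply, LinearMap.comp_apply, hli.repr_eq_single i ⟨_, hmem⟩ rfl] at h2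
    exact h2
  refine ⟨φ, fun j hj => ?_, ?_⟩
  · have := hval ⟨j, by omega⟩
    rw [Finsupp.single_apply, if_neg] at this
    · exact this
    · intro h
      have := congrArg Fin.val h
      simp at this
      omega
  · have := hval (Fin.last ℓ)
    rw [Finsupp.single_apply, if_pos rfl] at this
    exact this

lemma lower_seq (T : V →ₗ[ℂ] V) (μ : ℂ) (v : V) (ℓ : ℕ) (h0 : ((T - μ • 1) ^ ℓ) v ≠ 0)
    (h1 : ((T - μ • 1) ^ (ℓ + 1)) v = 0) :
    ∃ φ : V →ₗ[ℂ] ℂ, ∀ k : ℕ, φ ((T ^ k) v) = (k.choose ℓ : ℂ) * μ ^ (k - ℓ) := by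
  obtain ⟨φ, hφ, hφ1⟩ := indep (T - μ • 1) v ℓ h0 h1
  refine ⟨φ, fun k => ?_⟩
  rw [pow_expand T μ v (ℓ + 1) h1 k, map_sum, Finset.sum_range_succ, Finset.sum_eq_zero, zero_add,
    map_smul, hφ1, smul_eq_mul, mul_one]
  intro m hm
  rw [map_smul, hφ m (Finset.mem_range.1 hm), smul_zero]

/-- The largest size of a Jordan block, minus one, among the eigenvalues of absolute value `r`. -/
lemma exists_ell [FiniteDimensional ℂ V] (T : V →ₗ[ℂ] V) (r : ℝ) (μ₀ : ℂ) (hμ₀ : ‖μ₀‖ = r) (v₀ : V)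
    (hv₀ : v₀ ≠ 0) (hTv : T v₀ = μ₀ • v₀) :
    ∃ ℓ : ℕ, (∃ (μ : ℂ) (v : V), ‖μ‖ = r ∧ ((T - μ • 1) ^ ℓ) v ≠ 0 ∧ ((T - μ • 1) ^ (ℓ + 1)) v = 0) ∧
      ∀ (μ : ℂ) (v : V), ‖μ‖ = r → (∃ n : ℕ, ((T - μ • 1) ^ n) v = 0) →
        ∀ j, ℓ < j → ((T - μ • 1) ^ j) v = 0 := by
  classical
  let P : ℕ → Prop := fun ℓ => ∃ (μ : ℂ) (v : V), ‖μ‖ = r ∧ ((T - μ • 1) ^ ℓ) v ≠ 0 ∧
    ((T - μ • 1) ^ (ℓ + 1)) v = 0
  have hP0 : P 0 := by
    refine ⟨μ₀, v₀, hμ₀, ?_, ?_⟩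
    · simpa using hv₀
    · simp [hTv]
  have hgen : ∀ (μ : ℂ) (v : V), (∃ n : ℕ, ((T - μ • 1) ^ n) v = 0) →
      ((T - μ • 1) ^ (Module.finrank ℂ V)) v = 0 := by
    intro μ v h
    have h1 : v ∈ Module.End.maxGenEigenspace T μ := (Module.End.mem_maxGenEigenspace _ _ _).2 h
    rw [Module.End.maxGenEigenspace_eq_genEigenspace_finrank] at h1
    exact LinearMap.mem_ker.1 (Module.End.mem_genEigenspace_nat.1 h1)
  have hzero : ∀ (N : V →ₗ[ℂ] V) (v : V) (n m : ℕ), (N ^ n) v = 0 → n ≤ m → (N ^ m) v = 0 := by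
    intro N v n m h hm
    obtain ⟨j, rfl⟩ := Nat.exists_eq_add_of_le hm
    rw [Nat.add_comm, pow_add, Module.End.mul_apply, h, map_zero]
  have hPb : ∀ ℓ, P ℓ → ℓ ≤ Module.finrank ℂ V := by
    rintro ℓ ⟨μ, v, _, h1, h2⟩
    by_contra hlt
    exact h1 (hzero _ _ _ _ (hgen μ v ⟨_, h2⟩) (by omega))
  refine ⟨Nat.findGreatest P (Module.finrank ℂ V), Nat.findGreatest_spec (Nat.zero_le _) hP0, ?_⟩
  intro μ v hμ hn j hj
  by_contra hne
  have hex : ∃ n : ℕ, ((T - μ • 1) ^ n) v = 0 := hn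
  obtain ⟨m, hm, hmin⟩ : ∃ m : ℕ, ((T - μ • 1) ^ m) v = 0 ∧ ∀ m' < m, ((T - μ • 1) ^ m') v ≠ 0 :=
    ⟨Nat.find hex, Nat.find_spec hex, fun m' h => Nat.find_min hex h⟩
  have hjm : j < m := by
    by_contra h
    exact hne (hzero _ _ _ _ hm (by omega))
  have hPm : P (m - 1) := by
    refine ⟨μ, v, hμ, hmin _ (by omega), ?_⟩
    have : m - 1 + 1 = m := by omega
    rw [this]
    exact hm
  exact Nat.findGreatest_is_greatest (P := P) (n := Module.finrank ℂ V) (k := m - 1)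
    (lt_of_lt_of_le hj (by omega)) (hPb _ hPm) hPm

lemma poly_geom (m : ℕ) {s r : ℝ} (hs : 0 < s) (hsr : s < r) :
    ∃ C : ℝ, 0 ≤ C ∧ ∀ k : ℕ, (k : ℝ) ^ m * s ^ k ≤ C * r ^ k := by
  have hr : 0 < r := hs.trans hsr
  have h1 : |s / r| < 1 := by
    rw [abs_of_pos (by positivity)]
    exact (div_lt_one hr).2 hsr
  have h2 := tendsto_pow_const_mul_const_pow_of_abs_lt_one m h1
  obtain ⟨C, hC⟩ := h2.bddAbove_range
  refine ⟨max C 0, le_max_right _ _, fun k => ?_⟩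
  have h3 : (k : ℝ) ^ m * (s / r) ^ k ≤ C := hC ⟨k, rfl⟩
  rw [div_pow] at h3
  have h4 : (k : ℝ) ^ m * s ^ k = (k : ℝ) ^ m * (s ^ k / r ^ k) * r ^ k := by
    field_simp
  rw [h4]
  exact mul_le_mul_of_nonneg_right (h3.trans (le_max_left _ _)) (by positivity)

lemma upper_term (m : ℕ) (x r : ℝ) (hx : 0 ≤ x) (hxr : x < r) (ℓ : ℕ) :
    ∃ C : ℝ, 0 ≤ C ∧ ∀ k : ℕ, (k.choose m : ℝ) * x ^ (k - m) ≤ C * (((k : ℝ) + 1) ^ ℓ * r ^ k) := by
  have hr : 0 < r := lt_of_le_of_lt hx hxr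
  obtain ⟨s, hs1, hs2⟩ := exists_between hxr
  have hs0 : 0 < s := lt_of_le_of_lt hx hs1
  obtain ⟨C, hC, hb⟩ := poly_geom m hs0 hs2
  refine ⟨C * (s ^ m)⁻¹, by positivity, fun k => ?_⟩
  by_cases hk : k < m
  · rw [Nat.choose_eq_zero_of_lt hk, Nat.cast_zero, zero_mul]
    positivity
  · have hk' : m ≤ k := by omega
    have h1 : (k.choose m : ℝ) ≤ (k : ℝ) ^ m := by exact_mod_cast Nat.choose_le_pow k m
    have h2 : x ^ (k - m) ≤ s ^ (k - m) := pow_le_pow_left₀ hx hs1.le _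
    have h3 : s ^ (k - m) = s ^ k * (s ^ m)⁻¹ := by
      rw [eq_mul_inv_iff_mul_eq₀ (by positivity), ← pow_add]
      congr 1
      omega
    have h4 : (1 : ℝ) ≤ ((k : ℝ) + 1) ^ ℓ := one_le_pow₀ (by linarith [Nat.cast_nonneg (α := ℝ) k])
    calc (k.choose m : ℝ) * x ^ (k - m) ≤ (k : ℝ) ^ m * s ^ (k - m) := by
          exact mul_le_mul h1 h2 (by positivity) (by positivity)
      _ = ((k : ℝ) ^ m * s ^ k) * (s ^ m)⁻¹ := by rw [h3]; ring
      _ ≤ (C * r ^ k) * (s ^ m)⁻¹ := mul_le_mul_of_nonneg_right (hb k) (by positivity)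
      _ = C * (s ^ m)⁻¹ * (1 * r ^ k) := by ring
      _ ≤ C * (s ^ m)⁻¹ * (((k : ℝ) + 1) ^ ℓ * r ^ k) := by gcongr

lemma upper_term_eq (m ℓ : ℕ) (hm : m ≤ ℓ) (r : ℝ) (hr : 0 < r) :
    ∃ C : ℝ, 0 ≤ C ∧ ∀ k : ℕ, (k.choose m : ℝ) * r ^ (k - m) ≤ C * (((k : ℝ) + 1) ^ ℓ * r ^ k) := by
  refine ⟨(r ^ m)⁻¹, by positivity, fun k => ?_⟩
  by_cases hk : k < m
  · rw [Nat.choose_eq_zero_of_lt hk, Nat.cast_zero, zero_mul]
    positivity
  · have hk' : m ≤ k := by omega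
    have h0 : (0 : ℝ) ≤ k := Nat.cast_nonneg k
    have h1 : (k.choose m : ℝ) ≤ (k : ℝ) ^ m := by exact_mod_cast Nat.choose_le_pow k m
    have h2 : (k : ℝ) ^ m ≤ ((k : ℝ) + 1) ^ m := pow_le_pow_left₀ h0 (by linarith) _
    have h2' : ((k : ℝ) + 1) ^ m ≤ ((k : ℝ) + 1) ^ ℓ := pow_le_pow_right₀ (by linarith) hm
    have h3 : r ^ (k - m) = (r ^ m)⁻¹ * r ^ k := by
      rw [eq_inv_mul_iff_mul_eq₀ (by positivity), ← pow_add]
      congr 1
      omega
    rw [h3]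
    calc (k.choose m : ℝ) * ((r ^ m)⁻¹ * r ^ k) ≤ ((k : ℝ) + 1) ^ ℓ * ((r ^ m)⁻¹ * r ^ k) :=
          mul_le_mul_of_nonneg_right (h1.trans (h2.trans h2')) (by positivity)
      _ = (r ^ m)⁻¹ * (((k : ℝ) + 1) ^ ℓ * r ^ k) := by ring

/-- The upper bound for the powers of a complex matrix. -/
lemma upper_all [FiniteDimensional ℂ V] (T : V →ₗ[ℂ] V) (r : ℝ) (hr : 0 < r) (ℓ : ℕ)
    (hle : ∀ (μ : ℂ) (v : V), v ≠ 0 → T v = μ • v → ‖μ‖ ≤ r)
    (hℓ : ∀ (μ : ℂ) (v : V), ‖μ‖ = r → (∃ n : ℕ, ((T - μ • 1) ^ n) v = 0) →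
        ∀ j, ℓ < j → ((T - μ • 1) ^ j) v = 0) (ψ : V →ₗ[ℂ] ℂ) (v : V) :
    ∃ C : ℝ, 0 ≤ C ∧ ∀ k : ℕ, ‖ψ ((T ^ k) v)‖ ≤ C * (((k : ℝ) + 1) ^ ℓ * r ^ k) := by
  let S : Submodule ℂ V :=
    { carrier := {v | ∃ C : ℝ, 0 ≤ C ∧ ∀ k : ℕ, ‖ψ ((T ^ k) v)‖ ≤ C * (((k : ℝ) + 1) ^ ℓ * r ^ k)}
      add_mem' := by
        rintro a b ⟨C, hC, ha⟩ ⟨D, hD, hb⟩
        refine ⟨C + D, by positivity, fun k => ?_⟩
        rw [map_add, map_add, add_mul]
        exact (norm_add_le _ _).trans (add_le_add (ha k) (hb k))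
      zero_mem' := ⟨0, le_rfl, fun k => by simp⟩
      smul_mem' := by
        rintro c a ⟨C, hC, ha⟩
        refine ⟨‖c‖ * C, by positivity, fun k => ?_⟩
        rw [map_smul, map_smul, norm_smul, mul_assoc]
        exact mul_le_mul_of_nonneg_left (ha k) (norm_nonneg _) }
  have htop : S = ⊤ := by
    rw [eq_top_iff, ← Module.End.iSup_maxGenEigenspace_eq_top T, iSup_le_iff]
    intro μ w hw
    rw [Module.End.mem_maxGenEigenspace] at hw
    by_cases hw0 : w = 0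
    · rw [hw0]
      exact S.zero_mem
    have hμ : ‖μ‖ ≤ r := by
      obtain ⟨m, hm, hmin⟩ : ∃ m : ℕ, ((T - μ • 1) ^ m) w = 0 ∧ ∀ m' < m, ((T - μ • 1) ^ m') w ≠ 0 :=
        by
          classical
          exact ⟨Nat.find hw, Nat.find_spec hw, fun m' h => Nat.find_min hw h⟩
      have hm0 : m ≠ 0 := by
        rintro rfl
        exact hw0 (by simpa using hm)
      obtain ⟨p, rfl⟩ := Nat.exists_eq_succ_of_ne_zero hm0
      refine hle μ _ (hmin p (Nat.lt_succ_self p)) ?_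
      have h2 : (T - μ • 1) (((T - μ • 1) ^ p) w) = 0 := by
        rw [← Module.End.mul_apply, ← pow_succ']
        exact hm
      rw [LinearMap.sub_apply, LinearMap.smul_apply, Module.End.one_apply, sub_eq_zero] at h2
      exact h2
    obtain ⟨n, hn⟩ := hw
    have hterm : ∀ m : ℕ, ∃ C : ℝ, 0 ≤ C ∧ ∀ k : ℕ,
        ‖ψ (((k.choose m : ℂ) * μ ^ (k - m)) • ((T - μ • 1) ^ m) w)‖
          ≤ C * (((k : ℝ) + 1) ^ ℓ * r ^ k) := by
      intro m
      have hnorm : ∀ k : ℕ, ‖ψ (((k.choose m : ℂ) * μ ^ (k - m)) • ((T - μ • 1) ^ m) w)‖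
          = ‖ψ (((T - μ • 1) ^ m) w)‖ * ((k.choose m : ℝ) * ‖μ‖ ^ (k - m)) := by
        intro k
        rw [map_smul, norm_smul, norm_mul, norm_pow, Complex.norm_natCast, mul_comm]
      rcases hμ.lt_or_eq with hlt | heq
      · obtain ⟨C, hC, hb⟩ := upper_term m ‖μ‖ r (norm_nonneg _) hlt ℓ
        refine ⟨‖ψ (((T - μ • 1) ^ m) w)‖ * C, by positivity, fun k => ?_⟩
        rw [hnorm, mul_assoc]
        exact mul_le_mul_of_nonneg_left (hb k) (norm_nonneg _)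
      · by_cases hm : m ≤ ℓ
        · obtain ⟨C, hC, hb⟩ := upper_term_eq m ℓ hm r hr
          refine ⟨‖ψ (((T - μ • 1) ^ m) w)‖ * C, by positivity, fun k => ?_⟩
          rw [hnorm, mul_assoc, heq]
          exact mul_le_mul_of_nonneg_left (hb k) (norm_nonneg _)
        · refine ⟨0, le_rfl, fun k => ?_⟩
          rw [hℓ μ w heq ⟨n, hn⟩ m (by omega), smul_zero, map_zero, norm_zero, zero_mul]
    choose C hC hb using hterm
    refine ⟨∑ m ∈ Finset.range n, C m, Finset.sum_nonneg fun m _ => hC m, fun k => ?_⟩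
    rw [pow_expand T μ w n hn k, map_sum, Finset.sum_mul]
    exact (norm_sum_le _ _).trans (Finset.sum_le_sum fun m _ => hb m k)
  have : v ∈ S := by
    rw [htop]
    exact Submodule.mem_top
  exact this

end cplx

end Pool.Agent.Q8.KS
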