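import Mathlib
import Pool.Agent.Q8.KS.Growth

set_option autoImplicit false

open Filter Topology TensorProduct

namespace Pool.Agent.Q8.KS

lemma pos_all (a g : ℕ → ℝ) (ha : ∀ k, 0 < a k) (hg : ∀ k, 0 < g k) (k₀ : ℕ)
    (h : ∃ c : ℝ, 0 < c ∧ ∀ k, k₀ ≤ k → c * g k ≤ a k) :
    ∃ c : ℝ, 0 < c ∧ ∀ k, c * g k ≤ a k := by
  induction k₀ with
  | zero =>
    obtain ⟨c, hc, h⟩ := h
    exact ⟨c, hc, fun k => h k (Nat.zero_le _)⟩
  | succ n ih =>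
    obtain ⟨c, hc, h⟩ := h
    refine ih ⟨min c (a n / g n), lt_min hc (div_pos (ha n) (hg n)), fun k hk => ?_⟩
    rcases Nat.lt_or_eq_of_le hk with h1 | h1
    · exact (mul_le_mul_of_nonneg_right (min_le_left _ _) (hg k).le).trans (h k h1)
    · rw [← h1]
      have h2 : min c (a n / g n) * g n ≤ a n / g n * g n :=
        mul_le_mul_of_nonneg_right (min_le_right _ _) (hg n).le
      rwa [div_mul_cancel₀ _ (hg n).ne'] at h2

section cone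

variable {E : Type} [NormedAddCommGroup E] [NormedSpace ℝ E] [FiniteDimensional ℝ E]

/-- Iterates of a cone-preserving map are dominated by the orbit of an interior point. -/
lemma dominated {C : Set E} (hC : IsCone C) (l : E →ₗ[ℝ] ℝ) (hl : ∀ x ∈ C, x ≠ 0 → 0 < l x)
    {A : E} (hA : A ∈ interior C) (F : E →ₗ[ℝ] E) (hF : ∀ x ∈ C, F x ∈ C) :
    ∃ K : ℝ, 0 < K ∧ ∀ (k : ℕ) (x : E), ‖(F ^ k) x‖ ≤ K * ‖x‖ * l ((F ^ k) A) := by
  obtain ⟨M, hM, hnorm⟩ := norm_le hC l hl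
  obtain ⟨M2, hM2, hunit⟩ := unit_le hC hA
  refine ⟨M * M2, by positivity, fun k x => ?_⟩
  have h1 : (M2 * ‖x‖) • A - x ∈ C := hunit x
  have h2 : (M2 * ‖x‖) • A + x ∈ C := by
    have := hunit (-x)
    rwa [norm_neg, sub_neg_eq_add] at this
  have h3 := hnorm _ (pow_mem hF k h1)
  have h4 := hnorm _ (pow_mem hF k h2)
  have h5 : (2 : ℝ) • (F ^ k) x = (F ^ k) ((M2 * ‖x‖) • A + x) - (F ^ k) ((M2 * ‖x‖) • A - x) := by
    rw [← map_sub, ← map_smul]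
    congr 1
    rw [two_smul]
    abel
  have h6 : 2 * ‖(F ^ k) x‖ ≤ ‖(F ^ k) ((M2 * ‖x‖) • A + x)‖ + ‖(F ^ k) ((M2 * ‖x‖) • A - x)‖ := by
    have : ‖(2 : ℝ) • (F ^ k) x‖ = 2 * ‖(F ^ k) x‖ := by
      rw [norm_smul]
      norm_num
    rw [← this, h5]
    exact norm_sub_le _ _
  have h7 : l ((F ^ k) ((M2 * ‖x‖) • A + x)) + l ((F ^ k) ((M2 * ‖x‖) • A - x))
      = 2 * (M2 * ‖x‖ * l ((F ^ k) A)) := by
    rw [map_add, map_sub, map_add, map_sub, map_smul, map_smul, smul_eq_mul]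
    ring
  nlinarith

omit [FiniteDimensional ℝ E] in
lemma deg_pos {C : Set E} (l : E →ₗ[ℝ] ℝ) (hl : ∀ x ∈ C, x ≠ 0 → 0 < l x)
    {A : E} (hA : A ∈ C) (F : E →ₗ[ℝ] E) (hF : ∀ x ∈ C, F x ∈ C) {d : ℝ} (hd : 0 < d)
    (hlim : Tendsto (fun k : ℕ => (l ((F ^ k) A)) ^ (1 / (k : ℝ))) atTop (𝓝 d)) (k : ℕ) :
    0 < l ((F ^ k) A) := by
  refine hl _ (pow_mem hF k hA) ?_
  intro h0
  have : Tendsto (fun k : ℕ => (l ((F ^ k) A)) ^ (1 / (k : ℝ))) atTop (𝓝 0) := by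
    refine tendsto_const_nhds.congr' ?_
    filter_upwards [eventually_gt_atTop k] with j hj
    obtain ⟨i, rfl⟩ := Nat.exists_eq_add_of_le hj.le
    rw [Nat.add_comm, pow_add, Module.End.mul_apply, h0, map_zero, map_zero, Real.zero_rpow]
    have : (0 : ℝ) < ((i + k : ℕ) : ℝ) := by
      exact_mod_cast (by omega : 0 < i + k)
    positivity
  exact hd.ne' (tendsto_nhds_unique hlim this)

/-- The `ℂ`-linear extension of a real functional. -/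
noncomputable def extend (l : E →ₗ[ℝ] ℝ) : (ℂ ⊗[ℝ] E) →ₗ[ℂ] ℂ :=
  (TensorProduct.AlgebraTensorModule.rid ℝ ℂ ℂ).toLinearMap ∘ₗ l.baseChange ℂ

omit [FiniteDimensional ℝ E] in
lemma extend_tmul (l : E →ₗ[ℝ] ℝ) (z : ℂ) (x : E) : extend l (z ⊗ₜ[ℝ] x) = l x • z := by
  simp [extend]

omit [FiniteDimensional ℝ E] in
lemma pow_tmul (F : E →ₗ[ℝ] E) (k : ℕ) (z : ℂ) (x : E) :
    ((F.baseChange ℂ) ^ k) (z ⊗ₜ[ℝ] x) = z ⊗ₜ[ℝ] (F ^ k) x := by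
  rw [← LinearMap.baseChange_pow, LinearMap.baseChange_tmul]

lemma dominated_cplx (F : E →ₗ[ℝ] E) (g : ℕ → ℝ)
    (K : ℝ) (hK : 0 < K) (hg : ∀ (k : ℕ) (x : E), ‖(F ^ k) x‖ ≤ K * ‖x‖ * g k)
    (φ : (ℂ ⊗[ℝ] E) →ₗ[ℂ] ℂ) (v : ℂ ⊗[ℝ] E) :
    ∃ C : ℝ, 0 ≤ C ∧ ∀ k : ℕ, ‖φ (((F.baseChange ℂ) ^ k) v)‖ ≤ C * g k := by
  let L : E →ₗ[ℝ] ℂ := (φ.restrictScalars ℝ) ∘ₗ (TensorProduct.mk ℝ ℂ E 1)
  have hL : ∃ M : ℝ, 0 ≤ M ∧ ∀ x, ‖L x‖ ≤ M * ‖x‖ := by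
    refine ⟨‖LinearMap.toContinuousLinearMap L‖, norm_nonneg _, fun x => ?_⟩
    exact (LinearMap.toContinuousLinearMap L).le_opNorm x
  obtain ⟨M, hM, hLb⟩ := hL
  induction v using TensorProduct.induction_on with
  | zero => exact ⟨0, le_rfl, fun k => by simp⟩
  | tmul z x =>
    refine ⟨‖z‖ * M * K * ‖x‖, by positivity, fun k => ?_⟩
    rw [pow_tmul]
    have h1 : z ⊗ₜ[ℝ] (F ^ k) x = z • ((1 : ℂ) ⊗ₜ[ℝ] (F ^ k) x) := by
      rw [TensorProduct.smul_tmul', smul_eq_mul, mul_one]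
    rw [h1, map_smul, norm_smul]
    have h2 : ‖φ ((1 : ℂ) ⊗ₜ[ℝ] (F ^ k) x)‖ ≤ M * ‖(F ^ k) x‖ := hLb ((F ^ k) x)
    calc ‖z‖ * ‖φ ((1 : ℂ) ⊗ₜ[ℝ] (F ^ k) x)‖ ≤ ‖z‖ * (M * (K * ‖x‖ * g k)) := by
          refine mul_le_mul_of_nonneg_left (h2.trans ?_) (norm_nonneg _)
          exact mul_le_mul_of_nonneg_left (hg k x) hM
      _ = ‖z‖ * M * K * ‖x‖ * g k := by ring
  | add a b ha hb =>
    obtain ⟨C, hC, h1⟩ := ha
    obtain ⟨D, hD, h2⟩ := hb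
    refine ⟨C + D, by positivity, fun k => ?_⟩
    rw [map_add, map_add, add_mul]
    exact (norm_add_le _ _).trans (add_le_add (h1 k) (h2 k))

lemma no_lt {a : ℕ → ℝ} {d q Q : ℝ} (hq : 0 < q) (hqd : q < d) (ha : ∀ k, 0 ≤ a k)
    (hlim : Tendsto (fun k : ℕ => (a k) ^ (1 / (k : ℝ))) atTop (𝓝 d))
    (hb : ∀ k : ℕ, a k ≤ Q * q ^ k) : False := by
  obtain ⟨s, hs1, hs2⟩ := exists_between hqd
  have hs0 : 0 < s := hq.trans hs1
  have h1 : Tendsto (fun k : ℕ => (s / q) ^ k) atTop atTop :=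
    tendsto_pow_atTop_atTop_of_one_lt ((one_lt_div hq).2 hs1)
  obtain ⟨k, hk1, hk2, hk3⟩ := ((hlim.eventually (eventually_gt_nhds hs2)).and
    ((h1.eventually (eventually_gt_atTop Q)).and (eventually_gt_atTop 0))).exists
  have hk0 : (0 : ℝ) < k := by exact_mod_cast hk3
  have h2 : s ^ k ≤ a k := by
    have h4 : s ^ k ≤ ((a k) ^ (1 / (k : ℝ))) ^ k := pow_le_pow_left₀ hs0.le hk1.le k
    rwa [← Real.rpow_natCast ((a k) ^ (1 / (k : ℝ))), ← Real.rpow_mul (ha k), one_div,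
      inv_mul_cancel₀ hk0.ne', Real.rpow_one] at h4
  have h3 : s ^ k ≤ Q * q ^ k := h2.trans (hb k)
  rw [div_pow, lt_div_iff₀ (by positivity)] at hk2
  linarith

lemma no_gt {a : ℕ → ℝ} {d q c : ℝ} (hd : 0 < d) (hqd : d < q) (hc : 0 < c) (ha : ∀ k, 0 ≤ a k)
    (hlim : Tendsto (fun k : ℕ => (a k) ^ (1 / (k : ℝ))) atTop (𝓝 d)) (k₀ : ℕ)
    (hb : ∀ k : ℕ, k₀ ≤ k → c * q ^ k ≤ a k) : False := by
  obtain ⟨s, hs1, hs2⟩ := exists_between hqd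
  have hs0 : 0 < s := hd.trans hs1
  have h1 : Tendsto (fun k : ℕ => (q / s) ^ k) atTop atTop :=
    tendsto_pow_atTop_atTop_of_one_lt ((one_lt_div hs0).2 hs2)
  obtain ⟨k, hk1, hk2, hk3, hk4⟩ := ((hlim.eventually (eventually_lt_nhds hs1)).and
    ((h1.eventually (eventually_gt_atTop c⁻¹)).and
      ((eventually_gt_atTop 0).and (eventually_ge_atTop k₀)))).exists
  have hk0 : (0 : ℝ) < k := by exact_mod_cast hk3
  have h2 : a k ≤ s ^ k := by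
    have h4 : ((a k) ^ (1 / (k : ℝ))) ^ k ≤ s ^ k :=
      pow_le_pow_left₀ (Real.rpow_nonneg (ha k) _) hk1.le k
    rwa [← Real.rpow_natCast ((a k) ^ (1 / (k : ℝ))), ← Real.rpow_mul (ha k), one_div,
      inv_mul_cancel₀ hk0.ne', Real.rpow_one] at h4
  have h3 : c * q ^ k ≤ s ^ k := (hb k hk4).trans h2
  rw [div_pow, lt_div_iff₀ (by positivity)] at hk2
  have h5 : c * (c⁻¹ * s ^ k) < c * q ^ k := mul_lt_mul_of_pos_left hk2 hc
  rw [← mul_assoc, mul_inv_cancel₀ hc.ne', one_mul] at h5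
  linarith

/-- **Growth of the degrees** of a cone-preserving map: `(k+1)^ℓ d^k` up to constants. -/
theorem growth {C : Set E} (hC : IsCone C) (l : E →ₗ[ℝ] ℝ) (hl : ∀ x ∈ C, x ≠ 0 → 0 < l x)
    {A : E} (hA : A ∈ interior C) (F : E →ₗ[ℝ] E) (hF : ∀ x ∈ C, F x ∈ C) {d : ℝ} (hd : 0 < d)
    (hlim : Tendsto (fun k : ℕ => (l ((F ^ k) A)) ^ (1 / (k : ℝ))) atTop (𝓝 d)) :
    ∃ (ℓ : ℕ) (c K : ℝ), 0 < c ∧ 0 < K ∧ (∀ k : ℕ, c * (((k : ℝ) + 1) ^ ℓ * d ^ k) ≤ l ((F ^ k) A)) ∧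
      ∀ (k : ℕ) (x : E), ‖(F ^ k) x‖ ≤ K * ‖x‖ * (((k : ℝ) + 1) ^ ℓ * d ^ k) := by
  have hAC : A ∈ C := interior_subset hA
  have hpos := deg_pos l hl hAC F hF hd hlim
  obtain ⟨K, hK, hdom⟩ := dominated hC l hl hA F hF
  have hdc := dominated_cplx F (fun k => l ((F ^ k) A)) K hK hdom
  set T : (ℂ ⊗[ℝ] E) →ₗ[ℂ] (ℂ ⊗[ℝ] E) := F.baseChange ℂ with hT
  have hψ : ∀ k : ℕ, ‖extend l ((T ^ k) ((1 : ℂ) ⊗ₜ[ℝ] A))‖ = l ((F ^ k) A) := by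
    intro k
    rw [hT, pow_tmul, extend_tmul]
    rw [norm_smul, norm_one, mul_one, Real.norm_eq_abs, abs_of_pos (hpos k)]
  have hne : ((1 : ℂ) ⊗ₜ[ℝ] A) ≠ 0 := by
    intro h
    have := hψ 0
    rw [h] at this
    simp only [pow_zero, Module.End.one_apply, map_zero, norm_zero] at this
    have h2 := hpos 0
    simp only [pow_zero, Module.End.one_apply] at h2
    linarith
  have hnt : Nontrivial (ℂ ⊗[ℝ] E) := ⟨⟨_, _, hne⟩⟩
  have hfin : FiniteDimensional ℂ (ℂ ⊗[ℝ] E) := inferInstance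
  obtain ⟨μ₀, hμ₀, hmax⟩ := Set.exists_max_image {μ | Module.End.HasEigenvalue T μ} (fun μ => ‖μ‖)
    (Module.End.finite_hasEigenvalue T) (Module.End.exists_eigenvalue T)
  obtain ⟨v₀, hv₀⟩ := Module.End.HasEigenvalue.exists_hasEigenvector hμ₀
  have hv₀1 : v₀ ≠ 0 := hv₀.2
  have hv₀2 : T v₀ = μ₀ • v₀ := hv₀.apply_eq_smul
  obtain ⟨r, hr⟩ : ∃ r : ℝ, ‖μ₀‖ = r := ⟨_, rfl⟩
  have hle : ∀ (μ : ℂ) (v : ℂ ⊗[ℝ] E), v ≠ 0 → T v = μ • v → ‖μ‖ ≤ r := by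
    intro μ v hv h
    rw [← hr]
    exact hmax μ (Module.End.hasEigenvalue_of_hasEigenvector
      ⟨Module.End.mem_eigenspace_iff.2 h, hv⟩)
  have hr0 : 0 ≤ r := hr ▸ norm_nonneg _
  -- the growth rate is at most the spectral radius
  have hdr : d ≤ r := by
    by_contra hlt
    have hlt : r < d := not_le.1 hlt
    obtain ⟨q, hq1, hq2⟩ := exists_between hlt
    have hq0 : 0 < q := lt_of_le_of_lt hr0 hq1
    obtain ⟨Q, _, hQ⟩ := upper_all T q hq0 0 (fun μ v hv h => (hle μ v hv h).trans hq1.le)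
      (by
        intro μ v hμ hn j _
        by_contra hne
        obtain ⟨m, hm, hmin⟩ : ∃ m : ℕ, ((T - μ • 1) ^ m) v = 0 ∧
            ∀ m' < m, ((T - μ • 1) ^ m') v ≠ 0 := by
          classical
          exact ⟨Nat.find hn, Nat.find_spec hn, fun m' h => Nat.find_min hn h⟩
        have hm0 : m ≠ 0 := by
          rintro rfl
          rw [pow_zero, Module.End.one_apply] at hm
          rw [hm, map_zero] at hne
          exact hne rfl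
        obtain ⟨p, rfl⟩ := Nat.exists_eq_succ_of_ne_zero hm0
        have h2 : (T - μ • 1) (((T - μ • 1) ^ p) v) = 0 := by
          rw [← Module.End.mul_apply, ← pow_succ']
          exact hm
        rw [LinearMap.sub_apply, LinearMap.smul_apply, Module.End.one_apply, sub_eq_zero] at h2
        have := hle μ _ (hmin p (Nat.lt_succ_self p)) h2
        linarith) (extend l) ((1 : ℂ) ⊗ₜ[ℝ] A)
    refine no_lt (Q := Q) hq0 hq2 (fun k => (hpos k).le) hlim fun k => ?_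
    have := hQ k
    rw [hψ, pow_zero, one_mul] at this
    exact this
  have hrpos : 0 < r := lt_of_lt_of_le hd hdr
  obtain ⟨ℓ, ⟨μ, v, hμr, hv1, hv2⟩, hℓ⟩ := exists_ell T r μ₀ hr v₀ hv₀1 hv₀2
  obtain ⟨φ, hφ⟩ := lower_seq T μ v ℓ hv1 hv2
  obtain ⟨D, hD, hDb⟩ := hdc φ v
  have hlow : ∀ k : ℕ, (k.choose ℓ : ℝ) * r ^ (k - ℓ) ≤ (D + 1) * l ((F ^ k) A) := by
    intro k
    have h1 := hDb k
    rw [hφ k, norm_mul, norm_pow, Complex.norm_natCast, hμr] at h1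
    have := hpos k
    nlinarith
  have hrd : r = d := by
    refine le_antisymm ?_ hdr
    by_contra hlt
    have hlt : d < r := not_le.1 hlt
    refine no_gt (c := ((D + 1) * r ^ ℓ)⁻¹) hd hlt (by positivity) (fun k => (hpos k).le) hlim ℓ
      fun k hk => ?_
    have h1 := hlow k
    have h2 : (1 : ℝ) ≤ (k.choose ℓ : ℝ) := by exact_mod_cast Nat.choose_pos hk
    have h3 : r ^ (k - ℓ) * r ^ ℓ = r ^ k := by
      rw [← pow_add]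
      congr 1
      omega
    rw [inv_mul_le_iff₀ (by positivity), ← h3]
    have h4 : r ^ (k - ℓ) ≤ (D + 1) * l ((F ^ k) A) := by
      have : r ^ (k - ℓ) ≤ (k.choose ℓ : ℝ) * r ^ (k - ℓ) :=
        le_mul_of_one_le_left (by positivity) h2
      linarith
    calc r ^ (k - ℓ) * r ^ ℓ ≤ ((D + 1) * l ((F ^ k) A)) * r ^ ℓ :=
          mul_le_mul_of_nonneg_right h4 (by positivity)
      _ = (D + 1) * r ^ ℓ * l ((F ^ k) A) := by ring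
  rw [hrd] at hlow hℓ hle
  obtain ⟨c, hc, hcb⟩ := pos_all (fun k => l ((F ^ k) A)) (fun k => ((k : ℝ) + 1) ^ ℓ * d ^ k) hpos
    (fun k => by positivity) (2 * ℓ)
    (by
      refine ⟨((D + 1) * (2 ^ ℓ * (ℓ.factorial : ℝ)) * d ^ ℓ)⁻¹, by positivity, fun k hk => ?_⟩
      have h1 := hlow k
      have h2 : ((k + 1 - ℓ : ℕ) : ℝ) ^ ℓ ≤ (ℓ.factorial : ℝ) * (k.choose ℓ : ℝ) := by
        have h0 := Nat.pow_le_choose (α := ℝ) ℓ k
        rw [div_le_iff₀ (by positivity)] at h0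
        push_cast at h0
        linarith
      have h3 : ((k : ℝ) + 1) ≤ 2 * ((k + 1 - ℓ : ℕ) : ℝ) := by
        have : k + 1 ≤ 2 * (k + 1 - ℓ) := by omega
        exact_mod_cast this
      have h4 : ((k : ℝ) + 1) ^ ℓ ≤ 2 ^ ℓ * ((ℓ.factorial : ℝ) * (k.choose ℓ : ℝ)) := by
        calc ((k : ℝ) + 1) ^ ℓ ≤ (2 * ((k + 1 - ℓ : ℕ) : ℝ)) ^ ℓ :=
              pow_le_pow_left₀ (by positivity) h3 _
          _ = 2 ^ ℓ * ((k + 1 - ℓ : ℕ) : ℝ) ^ ℓ := by rw [mul_pow]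
          _ ≤ _ := mul_le_mul_of_nonneg_left h2 (by positivity)
      have h5 : d ^ (k - ℓ) * d ^ ℓ = d ^ k := by
        rw [← pow_add]
        congr 1
        omega
      rw [inv_mul_le_iff₀ (by positivity), ← h5]
      calc ((k : ℝ) + 1) ^ ℓ * (d ^ (k - ℓ) * d ^ ℓ)
          ≤ (2 ^ ℓ * ((ℓ.factorial : ℝ) * (k.choose ℓ : ℝ))) * (d ^ (k - ℓ) * d ^ ℓ) :=
            mul_le_mul_of_nonneg_right h4 (by positivity)
        _ = (2 ^ ℓ * (ℓ.factorial : ℝ)) * d ^ ℓ * ((k.choose ℓ : ℝ) * d ^ (k - ℓ)) := by ring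
        _ ≤ (2 ^ ℓ * (ℓ.factorial : ℝ)) * d ^ ℓ * ((D + 1) * l ((F ^ k) A)) :=
            mul_le_mul_of_nonneg_left h1 (by positivity)
        _ = (D + 1) * (2 ^ ℓ * (ℓ.factorial : ℝ)) * d ^ ℓ * l ((F ^ k) A) := by ring)
  obtain ⟨Q, hQ, hQb⟩ := upper_all T d hd ℓ hle hℓ (extend l) ((1 : ℂ) ⊗ₜ[ℝ] A)
  refine ⟨ℓ, c, K * (Q + 1), hc, by positivity, hcb, fun k x => ?_⟩
  have h1 := hQb k
  rw [hψ] at h1
  have h2 : l ((F ^ k) A) ≤ (Q + 1) * (((k : ℝ) + 1) ^ ℓ * d ^ k) := by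
    have : 0 ≤ ((k : ℝ) + 1) ^ ℓ * d ^ k := by positivity
    linarith
  calc ‖(F ^ k) x‖ ≤ K * ‖x‖ * l ((F ^ k) A) := hdom k x
    _ ≤ K * ‖x‖ * ((Q + 1) * (((k : ℝ) + 1) ^ ℓ * d ^ k)) :=
        mul_le_mul_of_nonneg_left h2 (by positivity)
    _ = K * (Q + 1) * ‖x‖ * (((k : ℝ) + 1) ^ ℓ * d ^ k) := by ring

end cone

end Pool.Agent.Q8.KS
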