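import Mathlib
import Pool.Agent.Q8.KS.Growth2

set_option autoImplicit false

open Filter Topology

namespace Pool.Agent.Q8.KS

/-- The bounded functions on a set. -/
def bdd (X : Type) : Submodule ℝ (X → ℝ) where
  carrier := {u | ∃ c : ℝ, ∀ x, |u x| ≤ c}
  add_mem' := by
    rintro u v ⟨a, ha⟩ ⟨b, hb⟩
    exact ⟨a + b, fun x => (abs_add_le _ _).trans (add_le_add (ha x) (hb x))⟩
  zero_mem' := ⟨0, fun x => by simp⟩
  smul_mem' := by
    rintro t u ⟨a, ha⟩
    refine ⟨|t| * a, fun x => ?_⟩
    rw [Pi.smul_apply, smul_eq_mul, abs_mul]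
    exact mul_le_mul_of_nonneg_left (ha x) (abs_nonneg _)

/-- A projective variety `V` of positive dimension over a field `K` with absolute Galois group `G`
together with its divisor classes and its Weil height machine. -/
structure Variety (G : Type) [Group G] where
  /-- the points of `V` over the algebraic closure of `K` -/
  Pt : Type
  [act : MulAction G Pt]
  /-- `Pic(V) ⊗ ℝ` -/
  Pic : Type
  [picGroup : AddCommGroup Pic]
  [picModule : Module ℝ Pic]
  /-- `N¹(V) ⊗ ℝ` -/
  NS : Type
  [nsNormed : NormedAddCommGroup NS]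
  [nsSpace : NormedSpace ℝ NS]
  [nsFinite : FiniteDimensional ℝ NS]
  /-- the numerical class of a line bundle -/
  cls : Pic →ₗ[ℝ] NS
  cls_surjective : Function.Surjective cls
  /-- the dimension of `V` is `dimPred + 1` -/
  dimPred : ℕ
  /-- the intersection form: `int (D₁, …, D_m) = D₁ ⋯ D_m`, `m = dim V` -/
  int : MultilinearMap ℝ (fun _ : Fin (dimPred + 1) => NS) ℝ
  /-- the nef cone; its interior is the ample cone (Kleiman) -/
  Nef : Set NS
  nef_cone : IsCone Nef
  /-- `D ⋅ A^(m-1) > 0` for `A` ample and `D` nef and not numerically trivial -/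
  int_pos : ∀ A ∈ interior Nef, ∀ D ∈ Nef, D ≠ 0 → 0 < int.curryLeft D (fun _ => A)
  /-- Weil's height machine: a linear map to the functions modulo bounded functions -/
  height : Pic →ₗ[ℝ] ((Pt → ℝ) ⧸ bdd Pt)
  /-- heights of ample classes are bounded below -/
  ample_height : ∀ D : Pic, cls D ∈ interior Nef → ∀ u : Pt → ℝ,
    height D = (bdd Pt).mkQ u → ∃ c : ℝ, ∀ x, c ≤ u x
  /-- heights of numerically trivial classes are `O(√h)` -/
  numtrivial_height : ∀ E A : Pic, cls E = 0 → cls A ∈ interior Nef → ∀ u v : Pt → ℝ,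
    height E = (bdd Pt).mkQ u → height A = (bdd Pt).mkQ v →
      ∃ c : ℝ, ∀ x, |u x| ≤ c * √(max 1 (v x))
  /-- a line bundle over `K` has a Galois invariant height -/
  galois_height : ∀ D : Pic, ∃ u : Pt → ℝ, height D = (bdd Pt).mkQ u ∧
    ∀ (g : G) (x : Pt), u (g • x) = u x

attribute [instance] Variety.act Variety.picGroup Variety.picModule Variety.nsNormed
  Variety.nsSpace Variety.nsFinite

variable {G : Type} [Group G]

/-- `u` is a Weil height function attached to the class `D`. -/
def Variety.IsHeight (V : Variety G) (D : V.Pic) (u : V.Pt → ℝ) : Prop :=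
  V.height D = (bdd V.Pt).mkQ u

/-- `A` is an ample class. -/
def Variety.IsAmple (V : Variety G) (A : V.Pic) : Prop :=
  V.cls A ∈ interior V.Nef

/-- The degree `D ⋅ A^(m-1)` of the numerical class `D` with respect to the class `A`,
`m = dim V`. -/
def Variety.deg (V : Variety G) (A : V.NS) : V.NS →ₗ[ℝ] ℝ where
  toFun D := V.int.curryLeft D (fun _ => A)
  map_add' D E := by simp
  map_smul' t D := by simp

/-- A morphism `V → W` over `K`, with its action on points and on classes. -/
structure Morphism (V W : Variety G) where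
  /-- the map on points -/
  pt : V.Pt → W.Pt
  pt_smul : ∀ (g : G) (x : V.Pt), pt (g • x) = g • pt x
  /-- the pullback of line bundles -/
  pic : W.Pic →ₗ[ℝ] V.Pic
  /-- the pullback of numerical classes -/
  ns : W.NS →ₗ[ℝ] V.NS
  cls_pic : ∀ D : W.Pic, V.cls (pic D) = ns (W.cls D)
  nef : ∀ D ∈ W.Nef, ns D ∈ V.Nef
  /-- functoriality of heights -/
  height_pic : ∀ (D : W.Pic) (u : W.Pt → ℝ), W.IsHeight D u → V.IsHeight (pic D) (u ∘ pt)
  /-- the pullback of numerical classes by a surjective morphism is injective -/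
  injective : Function.Surjective pt → Function.Injective ns

/-- `d` is the first dynamical degree of `f : V → V`: the limit of
`((f^k)^* A ⋅ A^(m-1))^(1/k)`. -/
def IsDynamicalDegree {V : Variety G} (f : Morphism V V) (A : V.Pic) (d : ℝ) : Prop :=
  Tendsto (fun k : ℕ => (V.deg (V.cls A) ((f.ns ^ k) (V.cls A))) ^ (1 / (k : ℝ))) atTop (𝓝 d)

/-- `a` is the arithmetic degree of `f : V → V` at the point `x`: the limit of
`max(1, h(f^k(x)))^(1/k)`. -/
def IsArithmeticDegree {V : Variety G} (f : Morphism V V) (u : V.Pt → ℝ) (x : V.Pt) (a : ℝ) :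
    Prop :=
  Tendsto (fun k : ℕ => (max 1 (u (f.pt^[k] x))) ^ (1 / (k : ℝ))) atTop (𝓝 a)

/-- A finite morphism `φ : W → ℙ^m` over `K`, `m = dim W`. -/
structure Cover (W : Variety G) where
  /-- the points of `ℙ^m` over the algebraic closure of `K` -/
  P : Type
  [act : MulAction G P]
  /-- the height on `ℙ^m` -/
  h : P → ℝ
  /-- the map on points -/
  φ : W.Pt → P
  φ_smul : ∀ (g : G) (x : W.Pt), φ (g • x) = g • φ x
  /-- the class `φ^* O(1)` -/
  H : W.Pic
  ample : W.IsAmple H
  height_H : W.IsHeight H (h ∘ φ)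
  /-- the degree of `φ` -/
  N : ℕ
  N_pos : 0 < N
  deg_H : W.deg (W.cls H) (W.cls H) = N
  /-- the fibres -/
  fib : P → Finset W.Pt
  mem_fib : ∀ t y, y ∈ fib t ↔ φ y = t
  /-- the multiplicity of a point in its fibre -/
  mult : W.Pt → ℕ
  mult_pos : ∀ y, 0 < mult y
  mult_smul : ∀ (g : G) (y : W.Pt), mult (g • y) = mult y
  sum_mult : ∀ t, ∑ y ∈ fib t, mult y = N
  /-- the norm of a line bundle `D` is `O(D ⋅ H^(m-1))` on `ℙ^m`, and the height of the norm is
  the sum of the heights over the fibre -/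
  norm : ∀ (D : W.Pic) (u : W.Pt → ℝ), W.IsHeight D u → ∃ c : ℝ, ∀ t : P,
    |∑ y ∈ fib t, (mult y : ℝ) * u y - W.deg (W.cls H) (W.cls D) * h t| ≤ c
  /-- a point of `ℙ^m` has finitely many conjugates over `K` -/
  orbit_finite : ∀ t : P, (MulAction.orbit G t).Finite
  /-- Northcott's theorem -/
  northcott : ∀ (e : ℕ) (C : ℝ), {t : P | (MulAction.orbit G t).ncard ≤ e ∧ h t ≤ C}.Finite

attribute [instance] Cover.act

/-- The degree `[K(w) : K(φ(w))]`: the number of conjugates of `w` over `K` in the fibre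
of `φ` through `w`. -/
noncomputable def Cover.relDeg {W : Variety G} (c : Cover W) (w : W.Pt) : ℕ :=
  {y | y ∈ MulAction.orbit G w ∧ c.φ y = c.φ w}.ncard

end Pool.Agent.Q8.KS
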