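import Mathlib
import Pool.Agent.Q8.KS.Setting

set_option autoImplicit false

open Filter Topology

namespace Pool.Agent.Q8.KS

section lin

variable {E : Type} [NormedAddCommGroup E] [NormedSpace ℝ E] [FiniteDimensional ℝ E] {X : Type}

/-- Uniformity of a linear family of estimates. -/
lemma lin_err (Φ : E →ₗ[ℝ] (X → ℝ)) (g : X → ℝ) (hg : ∀ x, 0 ≤ g x)
    (h : ∀ D, ∃ C : ℝ, ∀ x, |Φ D x| ≤ C * g x) :
    ∃ K : ℝ, 0 < K ∧ ∀ D x, |Φ D x| ≤ K * ‖D‖ * g x := by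
  classical
  choose C hC using h
  let b := Module.finBasis ℝ E
  let co : Fin (Module.finrank ℝ E) → (E →L[ℝ] ℝ) := fun i =>
    LinearMap.toContinuousLinearMap (b.coord i)
  refine ⟨∑ i, ‖co i‖ * |C (b i)| + 1, by positivity, fun D x => ?_⟩
  have h1 : Φ D x = ∑ i, b.repr D i * Φ (b i) x := by
    conv_lhs => rw [← b.sum_repr D, map_sum, Finset.sum_apply]
    refine Finset.sum_congr rfl fun i _ => ?_
    rw [map_smul, Pi.smul_apply, smul_eq_mul]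
  rw [h1]
  calc |∑ i, b.repr D i * Φ (b i) x| ≤ ∑ i, |b.repr D i * Φ (b i) x| :=
        Finset.abs_sum_le_sum_abs _ _
    _ ≤ ∑ i, (‖co i‖ * |C (b i)|) * (‖D‖ * g x) := by
        refine Finset.sum_le_sum fun i _ => ?_
        rw [abs_mul]
        have h2 : |b.repr D i| ≤ ‖co i‖ * ‖D‖ := (co i).le_opNorm D
        have h3 : |Φ (b i) x| ≤ |C (b i)| * g x :=
          (hC (b i) x).trans (mul_le_mul_of_nonneg_right (le_abs_self _) (hg x))
        calc |b.repr D i| * |Φ (b i) x| ≤ (‖co i‖ * ‖D‖) * (|C (b i)| * g x) :=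
              mul_le_mul h2 h3 (abs_nonneg _) (by positivity)
          _ = (‖co i‖ * |C (b i)|) * (‖D‖ * g x) := by ring
    _ = (∑ i, ‖co i‖ * |C (b i)|) * (‖D‖ * g x) := by rw [Finset.sum_mul]
    _ ≤ (∑ i, ‖co i‖ * |C (b i)| + 1) * (‖D‖ * g x) := by
        have := hg x
        refine mul_le_mul_of_nonneg_right (by linarith) (by positivity)
    _ = (∑ i, ‖co i‖ * |C (b i)| + 1) * ‖D‖ * g x := by ring

lemma summable_half (ℓ : ℕ) {d : ℝ} (hd : 1 < d) :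
    Summable fun j : ℕ => √(((j : ℝ) + 1) ^ ℓ * (d⁻¹) ^ j) := by
  have hd0 : 0 < d := by linarith
  have hi0 : 0 < d⁻¹ := inv_pos.2 hd0
  have hi1 : d⁻¹ < 1 := inv_lt_one_of_one_lt₀ hd
  obtain ⟨q, hq1, hq2⟩ := exists_between hi1
  have hq0 : 0 < q := hi0.trans hq1
  obtain ⟨C, hC, hb⟩ := poly_geom ℓ hi0 hq1
  have hsq : √q < 1 := by
    rw [Real.sqrt_lt' one_pos]
    simpa using hq2
  have hS : Summable fun j : ℕ => √(d * (C * q)) * (√q) ^ j :=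
    (summable_geometric_of_lt_one (Real.sqrt_nonneg _) hsq).mul_left _
  refine Summable.of_nonneg_of_le (fun j => Real.sqrt_nonneg _) (fun j => ?_) hS
  have h1 : ((j : ℝ) + 1) ^ ℓ * (d⁻¹) ^ (j + 1) ≤ C * q ^ (j + 1) := by
    have := hb (j + 1)
    push_cast at this
    exact this
  have h2 : ((j : ℝ) + 1) ^ ℓ * (d⁻¹) ^ j ≤ (d * (C * q)) * q ^ j := by
    have h3 : ((j : ℝ) + 1) ^ ℓ * (d⁻¹) ^ j = d * (((j : ℝ) + 1) ^ ℓ * (d⁻¹) ^ (j + 1)) := by
      rw [pow_succ (d⁻¹) j]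
      field_simp
    rw [h3]
    calc d * (((j : ℝ) + 1) ^ ℓ * (d⁻¹) ^ (j + 1)) ≤ d * (C * q ^ (j + 1)) :=
          mul_le_mul_of_nonneg_left h1 hd0.le
      _ = (d * (C * q)) * q ^ j := by rw [pow_succ]; ring
  calc √(((j : ℝ) + 1) ^ ℓ * (d⁻¹) ^ j) ≤ √((d * (C * q)) * q ^ j) := Real.sqrt_le_sqrt h2
    _ = √(d * (C * q)) * (√q) ^ j := by
        have h4 : q ^ j = ((√q) ^ j) ^ 2 := by
          rw [← pow_mul, mul_comm, pow_mul, Real.sq_sqrt hq0.le]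
        rw [Real.sqrt_mul (by positivity), h4, Real.sqrt_sq (by positivity)]

/-- The growth function. -/
noncomputable def gr (ℓ : ℕ) (d : ℝ) (k : ℕ) : ℝ := ((k : ℝ) + 1) ^ ℓ * d ^ k

lemma gr_pos (ℓ : ℕ) {d : ℝ} (hd : 0 < d) (k : ℕ) : 0 < gr ℓ d k := by
  unfold gr
  positivity

lemma gr_one_le (ℓ : ℕ) {d : ℝ} (hd : 1 < d) (k : ℕ) : 1 ≤ gr ℓ d k := by
  unfold gr
  have h1 : (1 : ℝ) ≤ ((k : ℝ) + 1) ^ ℓ := one_le_pow₀ (by linarith [Nat.cast_nonneg (α := ℝ) k])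
  have h2 : (1 : ℝ) ≤ d ^ k := one_le_pow₀ hd.le
  nlinarith

lemma gr_conv (ℓ : ℕ) {d : ℝ} (hd : 1 < d) :
    ∃ S : ℝ, 0 < S ∧ ∀ k : ℕ, ∑ j ∈ Finset.range k, gr ℓ d (k - 1 - j) * √(gr ℓ d j)
      ≤ S * gr ℓ d k := by
  have hd0 : 0 < d := by linarith
  have hsum := summable_half ℓ hd
  refine ⟨∑' j : ℕ, √(((j : ℝ) + 1) ^ ℓ * (d⁻¹) ^ j) + 1, ?_, fun k => ?_⟩
  · have : 0 ≤ ∑' j : ℕ, √(((j : ℝ) + 1) ^ ℓ * (d⁻¹) ^ j) := tsum_nonneg fun j => Real.sqrt_nonneg _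
    linarith
  · have hterm : ∀ j ∈ Finset.range k, gr ℓ d (k - 1 - j) * √(gr ℓ d j)
        ≤ √(((j : ℝ) + 1) ^ ℓ * (d⁻¹) ^ j) * gr ℓ d k := by
      intro j hj
      have hjk : j < k := Finset.mem_range.1 hj
      have h1 : gr ℓ d (k - 1 - j) ≤ ((k : ℝ) + 1) ^ ℓ * (d ^ k * (d⁻¹) ^ j) := by
        unfold gr
        have h2 : (((k - 1 - j : ℕ) : ℝ) + 1) ≤ (k : ℝ) + 1 := by
          have : (k - 1 - j : ℕ) ≤ k := by omega
          have : ((k - 1 - j : ℕ) : ℝ) ≤ k := by exact_mod_cast this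
          linarith
        have h3 : d ^ (k - 1 - j) ≤ d ^ k * (d⁻¹) ^ j := by
          have h4 : d ^ (k - 1 - j) ≤ d ^ (k - j) := pow_le_pow_right₀ hd.le (by omega)
          have h5 : d ^ (k - j) = d ^ k * (d⁻¹) ^ j := by
            rw [inv_pow, eq_mul_inv_iff_mul_eq₀ (by positivity), ← pow_add]
            congr 1
            omega
          linarith
        exact mul_le_mul (pow_le_pow_left₀ (by positivity) h2 _) h3 (by positivity) (by positivity)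
      have h6 : (d⁻¹) ^ j * √(gr ℓ d j) = √(((j : ℝ) + 1) ^ ℓ * (d⁻¹) ^ j) := by
        have h7 : (d⁻¹) ^ j = √(((d⁻¹) ^ j) ^ 2) := by
          rw [Real.sqrt_sq (by positivity)]
        conv_lhs => rw [h7]
        rw [← Real.sqrt_mul (by positivity)]
        congr 1
        unfold gr
        rw [inv_pow]
        field_simp
      calc gr ℓ d (k - 1 - j) * √(gr ℓ d j)
          ≤ (((k : ℝ) + 1) ^ ℓ * (d ^ k * (d⁻¹) ^ j)) * √(gr ℓ d j) :=
            mul_le_mul_of_nonneg_right h1 (Real.sqrt_nonneg _)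
        _ = ((d⁻¹) ^ j * √(gr ℓ d j)) * (((k : ℝ) + 1) ^ ℓ * d ^ k) := by ring
        _ = √(((j : ℝ) + 1) ^ ℓ * (d⁻¹) ^ j) * gr ℓ d k := by rw [h6]; rfl
    refine (Finset.sum_le_sum hterm).trans ?_
    rw [← Finset.sum_mul]
    refine mul_le_mul_of_nonneg_right ?_ (gr_pos ℓ hd0 k).le
    have := hsum.sum_le_tsum (Finset.range k) (fun j _ => Real.sqrt_nonneg _)
    linarith

omit [FiniteDimensional ℝ E] in
/-- Heights along an orbit, from the growth of the classes. -/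
theorem orbit_abs (η : E →ₗ[ℝ] (X → ℝ)) (f : X → X) (F : E →ₗ[ℝ] E) (A : E) (hp : X → ℝ)
    (hp1 : ∀ x, 1 ≤ hp x) (K : ℝ) (hK : 0 < K) (h1 : ∀ D x, |η D x| ≤ K * ‖D‖ * hp x)
    (h2 : ∀ D x, |η D (f x) - η (F D) x| ≤ K * ‖D‖ * √(hp x))
    (h3 : ∀ x, hp x ≤ η A x + K) (ℓ : ℕ) (d : ℝ) (hd : 1 < d)
    (h4 : ∀ (k : ℕ) (x : E), ‖(F ^ k) x‖ ≤ K * ‖x‖ * gr ℓ d k) :
    ∃ B : ℝ, 0 < B ∧ ∀ (k : ℕ) (x : X), hp (f^[k] x) ≤ B * gr ℓ d k * hp x ∧
      |η A (f^[k] x) - η ((F ^ k) A) x| ≤ B * gr ℓ d k * √(hp x) := by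
  have hd0 : 0 < d := by linarith
  obtain ⟨S, hS, hconv⟩ := gr_conv ℓ hd
  -- telescoping
  have htel : ∀ (k : ℕ) (x : X), |η A (f^[k] x) - η ((F ^ k) A) x|
      ≤ ∑ j ∈ Finset.range k, (K * K * ‖A‖) * (gr ℓ d (k - 1 - j) * √(hp (f^[j] x))) := by
    intro k x
    have h5 : η A (f^[k] x) - η ((F ^ k) A) x
        = ∑ j ∈ Finset.range k, (η ((F ^ (k - (j + 1))) A) (f^[j + 1] x)
          - η ((F ^ (k - j)) A) (f^[j] x)) := by
      rw [Finset.sum_range_sub (fun j => η ((F ^ (k - j)) A) (f^[j] x))]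
      simp
    rw [h5]
    refine (Finset.abs_sum_le_sum_abs _ _).trans (Finset.sum_le_sum fun j hj => ?_)
    have hjk : j < k := Finset.mem_range.1 hj
    have h6 : (F ^ (k - j)) A = F ((F ^ (k - (j + 1))) A) := by
      have : k - j = (k - (j + 1)) + 1 := by omega
      rw [this, pow_succ']
      rfl
    rw [h6, Function.iterate_succ_apply']
    refine (h2 _ _).trans ?_
    have h7 := h4 (k - (j + 1)) A
    have h8 : k - (j + 1) = k - 1 - j := by omega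
    rw [h8] at h7 ⊢
    calc K * ‖(F ^ (k - 1 - j)) A‖ * √(hp (f^[j] x))
        ≤ K * (K * ‖A‖ * gr ℓ d (k - 1 - j)) * √(hp (f^[j] x)) := by
          refine mul_le_mul_of_nonneg_right (mul_le_mul_of_nonneg_left h7 hK.le)
            (Real.sqrt_nonneg _)
      _ = (K * K * ‖A‖) * (gr ℓ d (k - 1 - j) * √(hp (f^[j] x))) := by ring
  obtain ⟨a1, ha1⟩ : ∃ a1 : ℝ, a1 = K + K * K * ‖A‖ := ⟨_, rfl⟩
  obtain ⟨a2, ha2⟩ : ∃ a2 : ℝ, a2 = K * K * ‖A‖ * S := ⟨_, rfl⟩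
  have ha1' : 0 < a1 := by rw [ha1]; positivity
  have ha2' : 0 ≤ a2 := by rw [ha2]; positivity
  obtain ⟨B, hB⟩ : ∃ B : ℝ, B = (a1 + a2 + 1) ^ 2 := ⟨_, rfl⟩
  have hBpos : 0 < B := by rw [hB]; positivity
  have hsB : √B = a1 + a2 + 1 := by
    rw [hB, Real.sqrt_sq (by positivity)]
  have hBB : a1 + a2 * √B ≤ B := by
    rw [hsB, hB]
    nlinarith
  -- the sum of the errors, given the bound for the heights
  have herr : ∀ (k : ℕ) (x : X), (∀ j < k, hp (f^[j] x) ≤ B * gr ℓ d j * hp x) →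
      |η A (f^[k] x) - η ((F ^ k) A) x| ≤ a2 * √B * gr ℓ d k * √(hp x) := by
    intro k x hj
    refine (htel k x).trans ?_
    have h5 : ∀ j ∈ Finset.range k, (K * K * ‖A‖) * (gr ℓ d (k - 1 - j) * √(hp (f^[j] x)))
        ≤ (K * K * ‖A‖ * √B * √(hp x)) * (gr ℓ d (k - 1 - j) * √(gr ℓ d j)) := by
      intro j hjk
      have h6 := Real.sqrt_le_sqrt (hj j (Finset.mem_range.1 hjk))
      rw [Real.sqrt_mul (by have := gr_pos ℓ hd0 j; positivity), Real.sqrt_mul hBpos.le] at h6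
      have h7 := (gr_pos ℓ hd0 (k - 1 - j)).le
      calc (K * K * ‖A‖) * (gr ℓ d (k - 1 - j) * √(hp (f^[j] x)))
          ≤ (K * K * ‖A‖) * (gr ℓ d (k - 1 - j) * (√B * √(gr ℓ d j) * √(hp x))) := by
            refine mul_le_mul_of_nonneg_left (mul_le_mul_of_nonneg_left h6 h7) (by positivity)
        _ = _ := by ring
    refine (Finset.sum_le_sum h5).trans ?_
    rw [← Finset.mul_sum]
    calc (K * K * ‖A‖ * √B * √(hp x)) * ∑ j ∈ Finset.range k, gr ℓ d (k - 1 - j) * √(gr ℓ d j)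
        ≤ (K * K * ‖A‖ * √B * √(hp x)) * (S * gr ℓ d k) :=
          mul_le_mul_of_nonneg_left (hconv k) (by positivity)
      _ = a2 * √B * gr ℓ d k * √(hp x) := by rw [ha2]; ring
  have hmain : ∀ (k : ℕ) (x : X), hp (f^[k] x) ≤ B * gr ℓ d k * hp x := by
    intro k x
    induction k using Nat.strong_induction_on with
    | _ k ih =>
      have h5 := herr k x ih
      have h6 := h3 (f^[k] x)
      have h7 := h1 ((F ^ k) A) x
      have h8 := h4 k A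
      have h9 := abs_le.1 h5
      have h10 := abs_le.1 h7
      have hg1 := gr_one_le ℓ hd k
      have hx1 := hp1 x
      have hsq : √(hp x) ≤ hp x := by
        rw [Real.sqrt_le_left (by linarith)]
        nlinarith
      have h11 : K * ‖(F ^ k) A‖ * hp x ≤ K * (K * ‖A‖ * gr ℓ d k) * hp x :=
        mul_le_mul_of_nonneg_right (mul_le_mul_of_nonneg_left h8 hK.le) (by linarith)
      have h12 : K ≤ K * (gr ℓ d k * hp x) := by
        have : 1 ≤ gr ℓ d k * hp x := by nlinarith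
        nlinarith
      have h13 : a2 * √B * gr ℓ d k * √(hp x) ≤ a2 * √B * gr ℓ d k * hp x :=
        mul_le_mul_of_nonneg_left hsq (by positivity)
      have h14 : hp (f^[k] x) ≤ (a1 + a2 * √B) * (gr ℓ d k * hp x) := by
        rw [ha1]
        nlinarith
      calc hp (f^[k] x) ≤ (a1 + a2 * √B) * (gr ℓ d k * hp x) := h14
        _ ≤ B * (gr ℓ d k * hp x) := mul_le_mul_of_nonneg_right hBB (by positivity)
        _ = B * gr ℓ d k * hp x := by ring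
  refine ⟨B, hBpos, fun k x => ⟨hmain k x, ?_⟩⟩
  refine (herr k x fun j _ => hmain j x).trans ?_
  have h5 : a2 * √B ≤ B := by linarith
  have := gr_pos ℓ hd0 k
  exact mul_le_mul_of_nonneg_right (mul_le_mul_of_nonneg_right h5 this.le) (Real.sqrt_nonneg _)

end lin

end Pool.Agent.Q8.KS
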