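import Mathlib
import Pool.Agent.Q8.KS.Core

set_option autoImplicit false

open Filter Topology

namespace Pool.Agent.Q8.KS

variable {G : Type} [Group G]

/-! ### Heights -/

lemma height_diff (V : Variety G) {D : V.Pic} {u v : V.Pt → ℝ} (hu : V.IsHeight D u)
    (hv : V.IsHeight D v) : ∃ c : ℝ, ∀ x, |u x - v x| ≤ c := by
  have h1 : (bdd V.Pt).mkQ u = (bdd V.Pt).mkQ v := by
    rw [← hu, ← hv]
  rw [Submodule.mkQ_apply, Submodule.mkQ_apply, Submodule.Quotient.eq] at h1
  exact h1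

lemma height_add (V : Variety G) {D E : V.Pic} {u v : V.Pt → ℝ} (hu : V.IsHeight D u)
    (hv : V.IsHeight E v) : V.IsHeight (D + E) (u + v) := by
  unfold Variety.IsHeight at *
  rw [map_add, map_add, hu, hv]

lemma height_sub (V : Variety G) {D E : V.Pic} {u v : V.Pt → ℝ} (hu : V.IsHeight D u)
    (hv : V.IsHeight E v) : V.IsHeight (D - E) (u - v) := by
  unfold Variety.IsHeight at *
  rw [map_sub, map_sub, hu, hv]

lemma height_smul (V : Variety G) {D : V.Pic} {u : V.Pt → ℝ} (t : ℝ) (hu : V.IsHeight D u) :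
    V.IsHeight (t • D) (t • u) := by
  unfold Variety.IsHeight at *
  rw [map_smul, map_smul, hu]

/-- A linear choice of Galois invariant heights. -/
lemma exists_lift (V : Variety G) : ∃ (s : V.NS →ₗ[ℝ] V.Pic) (η : V.NS →ₗ[ℝ] (V.Pt → ℝ)),
    (∀ D, V.cls (s D) = D) ∧ (∀ D, V.IsHeight (s D) (η D)) ∧
      ∀ (D : V.NS) (g : G) (x : V.Pt), η D (g • x) = η D x := by
  classical
  let b := Module.finBasis ℝ V.NS
  choose P hP using fun i => V.cls_surjective (b i)
  choose u hu hinv using fun i => V.galois_height (P i)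
  refine ⟨b.constr ℝ P, b.constr ℝ u, ?_, ?_, ?_⟩
  · have h1 : V.cls ∘ₗ b.constr ℝ P = LinearMap.id := by
      refine b.ext fun i => ?_
      rw [LinearMap.comp_apply, b.constr_basis, hP, LinearMap.id_apply]
    exact fun D => LinearMap.congr_fun h1 D
  · have h1 : V.height ∘ₗ b.constr ℝ P = (bdd V.Pt).mkQ ∘ₗ b.constr ℝ u := by
      refine b.ext fun i => ?_
      rw [LinearMap.comp_apply, LinearMap.comp_apply, b.constr_basis, b.constr_basis, hu]
    exact fun D => LinearMap.congr_fun h1 D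
  · intro D g x
    rw [b.constr_apply_fintype ℝ u D]
    simp only [Finset.sum_apply, Pi.smul_apply]
    refine Finset.sum_congr rfl fun i _ => ?_
    rw [hinv]

lemma ample_add {E : Type} [NormedAddCommGroup E] [NormedSpace ℝ E] {C : Set E} (hC : IsCone C)
    {A x : E} (hA : A ∈ interior C) (hx : x ∈ C) : A + x ∈ interior C := by
  have h1 : (fun y => y + x) '' interior C ⊆ interior C := by
    refine interior_maximal ?_ ((Homeomorph.addRight x).isOpenMap _ isOpen_interior)
    rintro _ ⟨y, hy, rfl⟩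
    exact hC.add _ (interior_subset hy) _ hx
  exact h1 ⟨A, hA, rfl⟩

lemma ample_smul {E : Type} [NormedAddCommGroup E] [NormedSpace ℝ E] {C : Set E} (hC : IsCone C)
    {A : E} (hA : A ∈ interior C) {t : ℝ} (ht : 0 < t) : t • A ∈ interior C := by
  have h1 : (fun y : E => t • y) '' interior C ⊆ interior C := by
    refine interior_maximal ?_ ((Homeomorph.smulOfNeZero t ht.ne').isOpenMap _ isOpen_interior)
    rintro _ ⟨y, hy, rfl⟩
    exact hC.smul _ ht.le _ (interior_subset hy)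
  exact h1 ⟨A, hA, rfl⟩

/-- Every height is bounded by the height of an ample class. -/
lemma height_bound (V : Variety G) {A D : V.Pic} (hA : V.IsAmple A) {u v : V.Pt → ℝ}
    (hu : V.IsHeight A u) (hv : V.IsHeight D v) : ∃ C : ℝ, ∀ x, |v x| ≤ C * max 1 (u x) := by
  obtain ⟨M, hM, hunit⟩ := unit_le V.nef_cone hA
  obtain ⟨t, ht⟩ : ∃ t : ℝ, t = M * ‖V.cls D‖ + 1 := ⟨_, rfl⟩
  have ht0 : 0 < t := by rw [ht]; positivity
  have h1 : V.cls (t • A - D) ∈ interior V.Nef := by
    have h2 : V.cls (t • A - D) = V.cls A + ((M * ‖V.cls D‖) • V.cls A - V.cls D) := by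
      rw [map_sub, map_smul, ht, add_smul, one_smul]
      abel
    rw [h2]
    exact ample_add V.nef_cone hA (hunit _)
  have h2 : V.cls (t • A + D) ∈ interior V.Nef := by
    have h2 : V.cls (t • A + D) = V.cls A + ((M * ‖-V.cls D‖) • V.cls A - (-V.cls D)) := by
      rw [map_add, map_smul, ht, add_smul, one_smul, norm_neg]
      abel
    rw [h2]
    exact ample_add V.nef_cone hA (hunit _)
  obtain ⟨c1, hc1⟩ := V.ample_height _ h1 _ (height_sub V (height_smul V t hu) hv)
  obtain ⟨c2, hc2⟩ := V.ample_height _ h2 _ (height_add V (height_smul V t hu) hv)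
  refine ⟨t + |c1| + |c2|, fun x => ?_⟩
  have h3 := hc1 x
  have h4 := hc2 x
  simp only [Pi.sub_apply, Pi.add_apply, Pi.smul_apply, smul_eq_mul] at h3 h4
  have h5 : 1 ≤ max 1 (u x) := le_max_left _ _
  have h6 : u x ≤ max 1 (u x) := le_max_right _ _
  have h7 : t * u x ≤ t * max 1 (u x) := mul_le_mul_of_nonneg_left h6 ht0.le
  have h8 : |c1| ≤ |c1| * max 1 (u x) := le_mul_of_one_le_right (abs_nonneg _) h5
  have h9 : |c2| ≤ |c2| * max 1 (u x) := le_mul_of_one_le_right (abs_nonneg _) h5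
  have h10 := neg_abs_le c1
  have h11 := neg_abs_le c2
  have h12 : (t + |c1| + |c2|) * max 1 (u x)
      = t * max 1 (u x) + |c1| * max 1 (u x) + |c2| * max 1 (u x) := by ring
  have h13 := abs_nonneg c1
  have h14 := abs_nonneg c2
  rw [abs_le, h12]
  constructor
  · linarith
  · linarith

/-- The uniform bound for a linear choice of heights, pulled back by any map. -/
lemma lift_bound (V : Variety G) (s : V.NS →ₗ[ℝ] V.Pic) (η : V.NS →ₗ[ℝ] (V.Pt → ℝ))
    (hη : ∀ D, V.IsHeight (s D) (η D)) (W : Variety G) (π : Morphism W V) {A : W.Pic}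
    (hA : W.IsAmple A) {u : W.Pt → ℝ} (hu : W.IsHeight A u) :
    ∃ K : ℝ, 0 < K ∧ ∀ (D : V.NS) (y : W.Pt), |η D (π.pt y)| ≤ K * ‖D‖ * max 1 (u y) := by
  have := lin_err ((LinearMap.funLeft ℝ ℝ π.pt) ∘ₗ η) (fun y => max 1 (u y))
    (fun y => le_trans zero_le_one (le_max_left _ _))
    (fun D => height_bound W hA hu (π.height_pic _ _ (hη D)))
  exact this

/-- The identity morphism. -/
def Morphism.id (V : Variety G) : Morphism V V where
  pt := fun x => x
  pt_smul := fun _ _ => rfl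
  pic := LinearMap.id
  ns := LinearMap.id
  cls_pic := fun _ => rfl
  nef := fun _ h => h
  height_pic := fun _ _ h => h
  injective := fun _ => Function.injective_id

/-- Functoriality of a linear choice of heights. -/
lemma lift_pull (V : Variety G) (s : V.NS →ₗ[ℝ] V.Pic) (η : V.NS →ₗ[ℝ] (V.Pt → ℝ))
    (hs : ∀ D, V.cls (s D) = D) (hη : ∀ D, V.IsHeight (s D) (η D)) (f : Morphism V V)
    {A : V.Pic} (hA : V.IsAmple A) {u : V.Pt → ℝ} (hu : V.IsHeight A u) :
    ∃ K : ℝ, 0 < K ∧ ∀ (D : V.NS) (x : V.Pt),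
      |η D (f.pt x) - η (f.ns D) x| ≤ K * ‖D‖ * √(max 1 (u x)) := by
  have := lin_err ((LinearMap.funLeft ℝ ℝ f.pt) ∘ₗ η - η ∘ₗ f.ns) (fun x => √(max 1 (u x)))
    (fun x => Real.sqrt_nonneg _)
    (fun D => by
      have h1 : V.cls (f.pic (s D) - s (f.ns D)) = 0 := by
        rw [map_sub, f.cls_pic, hs, hs, sub_self]
      exact V.numtrivial_height _ _ h1 hA _ _
        (height_sub V (f.height_pic _ _ (hη D)) (hη (f.ns D))) hu)
  exact this

/-- **Heights along orbits.** -/
theorem along (V : Variety G) (s : V.NS →ₗ[ℝ] V.Pic) (η : V.NS →ₗ[ℝ] (V.Pt → ℝ))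
    (hs : ∀ D, V.cls (s D) = D) (hη : ∀ D, V.IsHeight (s D) (η D)) (f : Morphism V V)
    {A : V.Pic} (hA : V.IsAmple A) {u : V.Pt → ℝ} (hu : V.IsHeight A u) {d : ℝ} (hd : 1 < d)
    (hdyn : IsDynamicalDegree f A d) :
    ∃ (ℓ : ℕ) (c B : ℝ), 0 < c ∧ 0 < B ∧
      (∀ k, c * gr ℓ d k ≤ V.deg (V.cls A) ((f.ns ^ k) (V.cls A))) ∧
      (∀ (k : ℕ) (x : V.NS), ‖(f.ns ^ k) x‖ ≤ B * ‖x‖ * gr ℓ d k) ∧
      ∀ (k : ℕ) (x : V.Pt), u (f.pt^[k] x) ≤ B * gr ℓ d k * max 1 (u x) ∧
        |u (f.pt^[k] x) - η ((f.ns ^ k) (V.cls A)) x| ≤ B * gr ℓ d k * √(max 1 (u x)) := by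
  have hd0 : 0 < d := by linarith
  set a := V.cls A with ha
  have hAa : a ∈ interior V.Nef := hA
  obtain ⟨ℓ, c, K1, hc, hK1, hlow, hup⟩ := growth V.nef_cone (V.deg a)
    (fun x hx h0 => V.int_pos a hAa x hx h0) hAa f.ns f.nef hd0 hdyn
  -- the reference height
  have hsa : V.IsAmple (s a) := by
    unfold Variety.IsAmple
    rw [hs]
    exact hA
  obtain ⟨K2, hK2, hb⟩ := lift_bound V s η hη V (Morphism.id V) hsa (hη a)
  obtain ⟨K3, hK3, he⟩ := lift_pull V s η hs hη f hsa (hη a)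
  obtain ⟨c0, hc0⟩ := V.ample_height _ hsa _ (hη a)
  obtain ⟨K, hKdef⟩ : ∃ K : ℝ, K = K1 + K2 + K3 + |c0| + 1 := ⟨_, rfl⟩
  have hK : 0 < K := by rw [hKdef]; positivity
  have hab := abs_nonneg c0
  obtain ⟨B, hB, hBb⟩ := orbit_abs η f.pt f.ns a (fun x => max 1 (η a x))
    (fun x => le_max_left _ _) K hK
    (by
      intro D x
      refine (hb D x).trans ?_
      have h1 : (0 : ℝ) ≤ max 1 (η a x) := le_trans zero_le_one (le_max_left _ _)
      exact mul_le_mul_of_nonneg_right (mul_le_mul_of_nonneg_right (by linarith) (norm_nonneg _)) h1)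
    (by
      intro D x
      refine (he D x).trans ?_
      exact mul_le_mul_of_nonneg_right (mul_le_mul_of_nonneg_right (by linarith) (norm_nonneg _))
        (Real.sqrt_nonneg _))
    (by
      intro x
      have h1 := hc0 x
      have h2 := neg_abs_le c0
      exact max_le (by linarith) (by linarith))
    ℓ d hd
    (by
      intro k x
      refine (hup k x).trans ?_
      have := (gr_pos ℓ hd0 k).le
      exact mul_le_mul_of_nonneg_right (mul_le_mul_of_nonneg_right (by linarith) (norm_nonneg _))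
        this)
  -- comparison with the given height
  obtain ⟨C1, hC1⟩ := height_bound V hsa (hη a) hu
  obtain ⟨C2, hC2⟩ := height_bound V hA hu (hη a)
  have h0 : V.cls (A - s a) = 0 := by rw [map_sub, hs, sub_self]
  obtain ⟨C3, hC3⟩ := V.numtrivial_height _ _ h0 hsa _ _ (height_sub V hu (hη a)) (hη a)
  obtain ⟨D2, hD2⟩ : ∃ D2 : ℝ, D2 = |C2| + 1 := ⟨_, rfl⟩
  have hD2' : 1 ≤ D2 := by rw [hD2]; linarith [abs_nonneg C2]
  have hcomp : ∀ x, max 1 (η a x) ≤ D2 * max 1 (u x) := by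
    intro x
    have h1 : (1 : ℝ) ≤ max 1 (u x) := le_max_left _ _
    refine max_le (by nlinarith) ?_
    have h2 := (le_abs_self _).trans (hC2 x)
    have h3 : C2 ≤ D2 := by rw [hD2]; linarith [le_abs_self C2]
    nlinarith
  have hcomp2 : ∀ x, √(max 1 (η a x)) ≤ D2 * √(max 1 (u x)) := by
    intro x
    have h1 : √(max 1 (η a x)) ≤ √(D2 * max 1 (u x)) := Real.sqrt_le_sqrt (hcomp x)
    rw [Real.sqrt_mul (by linarith)] at h1
    have h2 : √D2 ≤ D2 := by
      rw [Real.sqrt_le_left (by linarith)]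
      nlinarith
    exact h1.trans (mul_le_mul_of_nonneg_right h2 (Real.sqrt_nonneg _))
  obtain ⟨B2, hB2⟩ : ∃ B2 : ℝ, B2 = K1 + |C1| * B * D2 + |C3| * √B * D2 + B * D2 + 1 := ⟨_, rfl⟩
  have hB2' : 0 < B2 := by rw [hB2]; positivity
  refine ⟨ℓ, c, B2, hc, hB2', hlow, ?_, ?_⟩
  · intro k x
    refine (hup k x).trans ?_
    have h1 := (gr_pos ℓ hd0 k).le
    have h2 : K1 ≤ B2 := by
      rw [hB2]
      have : 0 ≤ |C1| * B * D2 + |C3| * √B * D2 + B * D2 + 1 := by positivity
      linarith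
    exact mul_le_mul_of_nonneg_right (mul_le_mul_of_nonneg_right h2 (norm_nonneg _)) h1
  · intro k x
    obtain ⟨h1, h2⟩ := hBb k x
    have hg := gr_pos ℓ hd0 k
    have hg1 := gr_one_le ℓ hd k
    have hx1 : (1 : ℝ) ≤ max 1 (u x) := le_max_left _ _
    have hsq0 := Real.sqrt_nonneg (max 1 (u x))
    constructor
    · have h3 := (le_abs_self _).trans (hC1 (f.pt^[k] x))
      have h4 : (0 : ℝ) ≤ max 1 (η a (f.pt^[k] x)) := le_trans zero_le_one (le_max_left _ _)
      calc u (f.pt^[k] x) ≤ C1 * max 1 (η a (f.pt^[k] x)) := h3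
        _ ≤ |C1| * max 1 (η a (f.pt^[k] x)) := mul_le_mul_of_nonneg_right (le_abs_self _) h4
        _ ≤ |C1| * (B * gr ℓ d k * max 1 (η a x)) := mul_le_mul_of_nonneg_left h1 (abs_nonneg _)
        _ ≤ |C1| * (B * gr ℓ d k * (D2 * max 1 (u x))) := by
            refine mul_le_mul_of_nonneg_left ?_ (abs_nonneg _)
            exact mul_le_mul_of_nonneg_left (hcomp x) (by positivity)
        _ = (|C1| * B * D2) * (gr ℓ d k * max 1 (u x)) := by ring
        _ ≤ B2 * (gr ℓ d k * max 1 (u x)) := by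
            refine mul_le_mul_of_nonneg_right ?_ (by positivity)
            rw [hB2]
            have : 0 ≤ |C3| * √B * D2 + B * D2 + 1 := by positivity
            linarith
        _ = B2 * gr ℓ d k * max 1 (u x) := by ring
    · have h3 : |u (f.pt^[k] x) - η a (f.pt^[k] x)| ≤ C3 * √(max 1 (η a (f.pt^[k] x))) :=
        hC3 (f.pt^[k] x)
      have h4 : √(max 1 (η a (f.pt^[k] x))) ≤ √B * gr ℓ d k * (D2 * √(max 1 (u x))) := by
        have h5 := Real.sqrt_le_sqrt h1
        rw [Real.sqrt_mul (by positivity), Real.sqrt_mul hB.le] at h5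
        have h6 : √(gr ℓ d k) ≤ gr ℓ d k := by
          rw [Real.sqrt_le_left hg.le]
          nlinarith
        refine h5.trans ?_
        exact mul_le_mul (mul_le_mul_of_nonneg_left h6 (Real.sqrt_nonneg _)) (hcomp2 x)
          (Real.sqrt_nonneg _) (by positivity)
      have h5 : |u (f.pt^[k] x) - η ((f.ns ^ k) a) x|
          ≤ |u (f.pt^[k] x) - η a (f.pt^[k] x)| + |η a (f.pt^[k] x) - η ((f.ns ^ k) a) x| :=
        abs_sub_le _ _ _
      calc |u (f.pt^[k] x) - η ((f.ns ^ k) a) x|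
          ≤ |C3| * (√B * gr ℓ d k * (D2 * √(max 1 (u x))))
            + B * gr ℓ d k * (D2 * √(max 1 (u x))) := by
            refine h5.trans (add_le_add ?_ ?_)
            · refine h3.trans ?_
              exact (mul_le_mul_of_nonneg_right (le_abs_self _) (Real.sqrt_nonneg _)).trans
                (mul_le_mul_of_nonneg_left h4 (abs_nonneg _))
            · exact h2.trans (mul_le_mul_of_nonneg_left (hcomp2 x) (by positivity))
        _ = (|C3| * √B * D2 + B * D2) * (gr ℓ d k * √(max 1 (u x))) := by ring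
        _ ≤ B2 * (gr ℓ d k * √(max 1 (u x))) := by
            refine mul_le_mul_of_nonneg_right ?_ (by positivity)
            rw [hB2]
            have : 0 ≤ K1 + |C1| * B * D2 + 1 := by positivity
            linarith
        _ = B2 * gr ℓ d k * √(max 1 (u x)) := by ring

end Pool.Agent.Q8.KS
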