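import Mathlib
import Pool.Agent.Q8.KS.Core2

set_option autoImplicit false

open Filter Topology

namespace Pool.Agent.Q8.KS

variable {G : Type} [Group G]

/-! ### Fibres -/

open Classical in
/-- The conjugates of `w` in its fibre. -/
noncomputable def conj {W : Variety G} (c : Cover W) (w : W.Pt) : Finset W.Pt :=
  (c.fib (c.φ w)).filter fun y => y ∈ MulAction.orbit G w

lemma mem_conj {W : Variety G} (c : Cover W) (w y : W.Pt) :
    y ∈ conj c w ↔ c.φ y = c.φ w ∧ y ∈ MulAction.orbit G w := by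
  classical
  rw [conj, Finset.mem_filter, c.mem_fib]

lemma relDeg_eq {W : Variety G} (c : Cover W) (w : W.Pt) : c.relDeg w = (conj c w).card := by
  unfold Cover.relDeg
  rw [← Set.ncard_coe_finset]
  congr 1
  ext y
  rw [Finset.mem_coe, mem_conj, Set.mem_ofPred_eq, and_comm]

lemma self_mem_conj {W : Variety G} (c : Cover W) (w : W.Pt) : w ∈ conj c w := by
  rw [mem_conj]
  exact ⟨rfl, MulAction.mem_orbit_self w⟩

lemma conj_sub {W : Variety G} (c : Cover W) (w : W.Pt) : conj c w ⊆ c.fib (c.φ w) := by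
  intro y hy
  rw [mem_conj] at hy
  rw [c.mem_fib]
  exact hy.1

/-- The sum over the conjugates. -/
lemma sum_conj {W : Variety G} (c : Cover W) (w : W.Pt) (η : W.Pt → ℝ)
    (hη : ∀ (g : G) (y : W.Pt), η (g • y) = η y) :
    ∑ y ∈ conj c w, (c.mult y : ℝ) * η y = (∑ y ∈ conj c w, (c.mult y : ℝ)) * η w := by
  rw [Finset.sum_mul]
  refine Finset.sum_congr rfl fun y hy => ?_
  rw [mem_conj] at hy
  obtain ⟨g, hg⟩ := hy.2
  have : y = g • w := hg.symm
  rw [this, hη]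

lemma card_le_mult {W : Variety G} (c : Cover W) (w : W.Pt) :
    (c.relDeg w : ℝ) ≤ ∑ y ∈ conj c w, (c.mult y : ℝ) := by
  rw [relDeg_eq]
  have h1 : (conj c w).card ≤ ∑ y ∈ conj c w, c.mult y := by
    rw [Finset.card_eq_sum_ones]
    exact Finset.sum_le_sum fun y _ => c.mult_pos y
  exact_mod_cast h1

open Classical in
lemma sum_split {W : Variety G} (c : Cover W) (w : W.Pt) (η : W.Pt → ℝ) :
    ∑ y ∈ c.fib (c.φ w), (c.mult y : ℝ) * η y
      = ∑ y ∈ conj c w, (c.mult y : ℝ) * η y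
        + ∑ y ∈ c.fib (c.φ w) \ conj c w, (c.mult y : ℝ) * η y := by
  rw [add_comm, Finset.sum_sdiff (conj_sub c w)]

open Classical in
lemma sum_split_one {W : Variety G} (c : Cover W) (w : W.Pt) :
    ∑ y ∈ conj c w, (c.mult y : ℝ) + ∑ y ∈ c.fib (c.φ w) \ conj c w, (c.mult y : ℝ) = c.N := by
  rw [add_comm, Finset.sum_sdiff (conj_sub c w)]
  exact_mod_cast c.sum_mult (c.φ w)

open Classical in
/-- In a full fibre all the points are conjugate and of multiplicity one. -/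
lemma full_sum {W : Variety G} (c : Cover W) (w : W.Pt) (hw : c.relDeg w = c.N) (η : W.Pt → ℝ)
    (hη : ∀ (g : G) (y : W.Pt), η (g • y) = η y) :
    ∑ y ∈ c.fib (c.φ w), (c.mult y : ℝ) * η y = c.N * η w := by
  have h1 := card_le_mult c w
  have h2 := sum_split_one c w
  rw [hw] at h1
  have h3 : 0 ≤ ∑ y ∈ c.fib (c.φ w) \ conj c w, (c.mult y : ℝ) :=
    Finset.sum_nonneg fun y _ => Nat.cast_nonneg _
  have h4 : ∑ y ∈ c.fib (c.φ w) \ conj c w, (c.mult y : ℝ) = 0 := by linarith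
  have h5 : c.fib (c.φ w) \ conj c w = ∅ := by
    by_contra hne
    obtain ⟨y, hy⟩ := Finset.nonempty_iff_ne_empty.2 hne
    have h6 : 0 < ∑ y ∈ c.fib (c.φ w) \ conj c w, (c.mult y : ℝ) :=
      Finset.sum_pos (fun y _ => by exact_mod_cast c.mult_pos y) ⟨y, hy⟩
    linarith
  rw [sum_split, sum_conj c w η hη, h5, Finset.sum_empty, add_zero]
  congr 1
  linarith

/-- The norm formula, uniformly in the class. -/
lemma norm_unif {V W : Variety G} (s : V.NS →ₗ[ℝ] V.Pic) (η : V.NS →ₗ[ℝ] (V.Pt → ℝ))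
    (hs : ∀ D, V.cls (s D) = D) (hη : ∀ D, V.IsHeight (s D) (η D)) (π : Morphism W V)
    (c : Cover W) : ∃ K : ℝ, 0 < K ∧ ∀ (D : V.NS) (t : c.P),
      |∑ y ∈ c.fib t, (c.mult y : ℝ) * η D (π.pt y)
        - W.deg (W.cls c.H) (π.ns D) * c.h t| ≤ K * ‖D‖ := by
  let Φ : V.NS →ₗ[ℝ] (c.P → ℝ) :=
    { toFun := fun D t => ∑ y ∈ c.fib t, (c.mult y : ℝ) * η D (π.pt y)
        - W.deg (W.cls c.H) (π.ns D) * c.h t
      map_add' := by
        intro D E
        ext t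
        simp only [map_add, Pi.add_apply]
        rw [show ∑ y ∈ c.fib t, (c.mult y : ℝ) * (η D (π.pt y) + η E (π.pt y))
          = ∑ y ∈ c.fib t, (c.mult y : ℝ) * η D (π.pt y)
            + ∑ y ∈ c.fib t, (c.mult y : ℝ) * η E (π.pt y) by
          rw [← Finset.sum_add_distrib]
          exact Finset.sum_congr rfl fun y _ => by ring]
        ring
      map_smul' := by
        intro r D
        ext t
        simp only [map_smul, Pi.smul_apply, smul_eq_mul, RingHom.id_apply]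
        rw [show ∑ y ∈ c.fib t, (c.mult y : ℝ) * (r * η D (π.pt y))
          = r * ∑ y ∈ c.fib t, (c.mult y : ℝ) * η D (π.pt y) by
          rw [Finset.mul_sum]
          exact Finset.sum_congr rfl fun y _ => by ring]
        ring }
  obtain ⟨K, hK, h⟩ := lin_err Φ (fun _ => 1) (fun _ => zero_le_one) (fun D => by
    obtain ⟨C, hC⟩ := c.norm (π.pic (s D)) (η D ∘ π.pt) (π.height_pic _ _ (hη D))
    refine ⟨C, fun t => ?_⟩
    have := hC t
    rw [π.cls_pic, hs] at this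
    rw [mul_one]
    exact this)
  refine ⟨K, hK, fun D t => ?_⟩
  have := h D t
  rw [mul_one] at this
  exact this

/-- A nef class is bounded by its degree on a variety mapping onto `V`. -/
lemma nef_le_deg {V W : Variety G} (π : Morphism W V) (hπ : Function.Surjective π.pt)
    {H : W.NS} (hH : H ∈ interior W.Nef) :
    ∃ M : ℝ, 0 < M ∧ ∀ D ∈ V.Nef, ‖D‖ ≤ M * W.deg H (π.ns D) := by
  refine norm_le V.nef_cone ((W.deg H) ∘ₗ π.ns) fun D hD h0 => ?_
  refine W.int_pos H hH _ (π.nef D hD) ?_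
  intro h
  exact h0 (π.injective hπ (by rw [h, map_zero]))

/-- The degree on `W` of the pullback of the `k`-th iterate. -/
noncomputable def coef {V W : Variety G} (f : Morphism V V) (π : Morphism W V) (c : Cover W)
    (A : V.Pic) (k : ℕ) : ℝ :=
  W.deg (W.cls c.H) (π.ns ((f.ns ^ k) (V.cls A))) / c.N

lemma coef_bounds {V W : Variety G} (f : Morphism V V) (π : Morphism W V)
    (hπ : Function.Surjective π.pt) (c : Cover W) {A : V.Pic} (hA : V.IsAmple A) {ℓ : ℕ}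
    {d c0 B : ℝ} (hd0 : 0 < d) (hc : 0 < c0) (hB : 0 < B)
    (hlow : ∀ k, c0 * gr ℓ d k ≤ V.deg (V.cls A) ((f.ns ^ k) (V.cls A)))
    (hup : ∀ (k : ℕ) (x : V.NS), ‖(f.ns ^ k) x‖ ≤ B * ‖x‖ * gr ℓ d k) :
    ∃ c1 C1 : ℝ, 0 < c1 ∧ 0 < C1 ∧ ∀ k, c1 * gr ℓ d k ≤ coef f π c A k ∧
      coef f π c A k ≤ C1 * gr ℓ d k ∧ c1 * V.deg (V.cls A) ((f.ns ^ k) (V.cls A)) ≤
        coef f π c A k ∧ coef f π c A k ≤ C1 * V.deg (V.cls A) ((f.ns ^ k) (V.cls A)) := by
  obtain ⟨M, hM, hMb⟩ := nef_le_deg π hπ c.ample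
  have hN : (0 : ℝ) < c.N := by exact_mod_cast c.N_pos
  obtain ⟨Q, hQdef⟩ : ∃ Q : ℝ, Q = ‖LinearMap.toContinuousLinearMap (V.deg (V.cls A))‖ + 1 :=
    ⟨_, rfl⟩
  obtain ⟨R, hRdef⟩ : ∃ R : ℝ, R =
    ‖LinearMap.toContinuousLinearMap ((W.deg (W.cls c.H)) ∘ₗ π.ns)‖ + 1 := ⟨_, rfl⟩
  have hQ0 : 0 < Q := by rw [hQdef]; positivity
  have hR0 : 0 < R := by rw [hRdef]; positivity
  have hQ : ∀ x : V.NS, V.deg (V.cls A) x ≤ Q * ‖x‖ := by
    intro x
    have h1 := (LinearMap.toContinuousLinearMap (V.deg (V.cls A))).le_opNorm x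
    have h2 : V.deg (V.cls A) x ≤ ‖LinearMap.toContinuousLinearMap (V.deg (V.cls A))‖ * ‖x‖ :=
      (Real.le_norm_self _).trans h1
    rw [hQdef]
    nlinarith [norm_nonneg x]
  have hR : ∀ x : V.NS, W.deg (W.cls c.H) (π.ns x) ≤ R * ‖x‖ := by
    intro x
    have h1 := (LinearMap.toContinuousLinearMap ((W.deg (W.cls c.H)) ∘ₗ π.ns)).le_opNorm x
    have h2 : W.deg (W.cls c.H) (π.ns x)
        ≤ ‖LinearMap.toContinuousLinearMap ((W.deg (W.cls c.H)) ∘ₗ π.ns)‖ * ‖x‖ :=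
      (Real.le_norm_self _).trans h1
    rw [hRdef]
    nlinarith [norm_nonneg x]
  have hAn : V.cls A ∈ V.Nef := interior_subset hA
  -- coef ≥ c' * deg
  have h1 : ∀ k, V.deg (V.cls A) ((f.ns ^ k) (V.cls A)) ≤ (Q * M * c.N) * coef f π c A k := by
    intro k
    have h2 := hQ ((f.ns ^ k) (V.cls A))
    have h3 := hMb _ (pow_mem f.nef k hAn)
    calc V.deg (V.cls A) ((f.ns ^ k) (V.cls A)) ≤ Q * ‖(f.ns ^ k) (V.cls A)‖ := h2
      _ ≤ Q * (M * W.deg (W.cls c.H) (π.ns ((f.ns ^ k) (V.cls A)))) :=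
          mul_le_mul_of_nonneg_left h3 hQ0.le
      _ = (Q * M * c.N) * coef f π c A k := by
          unfold coef
          field_simp
  -- coef ≤ C' * gr
  have h4 : ∀ k, coef f π c A k ≤ (R * (B * ‖V.cls A‖) / c.N) * gr ℓ d k := by
    intro k
    unfold coef
    rw [div_mul_eq_mul_div]
    refine div_le_div_of_nonneg_right ?_ hN.le
    refine (hR _).trans ?_
    calc R * ‖(f.ns ^ k) (V.cls A)‖ ≤ R * (B * ‖V.cls A‖ * gr ℓ d k) :=
          mul_le_mul_of_nonneg_left (hup k _) hR0.le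
      _ = R * (B * ‖V.cls A‖) * gr ℓ d k := by ring
  obtain ⟨P, hP⟩ : ∃ P : ℝ, P = Q * M * c.N := ⟨_, rfl⟩
  have hP0 : 0 < P := by rw [hP]; positivity
  obtain ⟨S, hS⟩ : ∃ S : ℝ, S = R * (B * ‖V.cls A‖) / c.N := ⟨_, rfl⟩
  have hS0 : 0 ≤ S := by rw [hS]; positivity
  rw [← hP] at h1
  rw [← hS] at h4
  refine ⟨min (c0 / P) P⁻¹, max (S + 1) (S / c0 + 1), lt_min (by positivity) (by positivity),
    lt_max_of_lt_left (by positivity), fun k => ⟨?_, ?_, ?_, ?_⟩⟩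
  · have hg := (gr_pos ℓ hd0 k).le
    have h5 := (hlow k).trans (h1 k)
    calc min (c0 / P) P⁻¹ * gr ℓ d k ≤ (c0 / P) * gr ℓ d k :=
          mul_le_mul_of_nonneg_right (min_le_left _ _) hg
      _ = (c0 * gr ℓ d k) / P := by ring
      _ ≤ coef f π c A k := by
          rw [div_le_iff₀ hP0]
          linarith
  · have hg := (gr_pos ℓ hd0 k).le
    refine (h4 k).trans (mul_le_mul_of_nonneg_right ?_ hg)
    exact le_trans (by linarith) (le_max_left _ _)
  · have hdeg : 0 ≤ V.deg (V.cls A) ((f.ns ^ k) (V.cls A)) :=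
      le_trans (mul_nonneg hc.le (gr_pos ℓ hd0 k).le) (hlow k)
    calc min (c0 / P) P⁻¹ * V.deg (V.cls A) ((f.ns ^ k) (V.cls A))
        ≤ P⁻¹ * V.deg (V.cls A) ((f.ns ^ k) (V.cls A)) :=
          mul_le_mul_of_nonneg_right (min_le_right _ _) hdeg
      _ ≤ coef f π c A k := by
          rw [inv_mul_le_iff₀ hP0]
          exact h1 k
  · have hdeg : 0 ≤ V.deg (V.cls A) ((f.ns ^ k) (V.cls A)) :=
      le_trans (mul_nonneg hc.le (gr_pos ℓ hd0 k).le) (hlow k)
    have h5 : gr ℓ d k ≤ V.deg (V.cls A) ((f.ns ^ k) (V.cls A)) / c0 := by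
      rw [le_div_iff₀ hc]
      linarith [hlow k]
    calc coef f π c A k ≤ S * gr ℓ d k := h4 k
      _ ≤ S * (V.deg (V.cls A) ((f.ns ^ k) (V.cls A)) / c0) := mul_le_mul_of_nonneg_left h5 hS0
      _ = (S / c0) * V.deg (V.cls A) ((f.ns ^ k) (V.cls A)) := by ring
      _ ≤ max (S + 1) (S / c0 + 1) * V.deg (V.cls A) ((f.ns ^ k) (V.cls A)) := by
          refine mul_le_mul_of_nonneg_right ?_ hdeg
          exact le_trans (by linarith) (le_max_right _ _)

/-- **Heights of the orbit of a full point.** -/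
theorem full_points {V W : Variety G} (f : Morphism V V) (π : Morphism W V)
    (hπ : Function.Surjective π.pt) {A : V.Pic} (hA : V.IsAmple A) {u : V.Pt → ℝ}
    (hu : V.IsHeight A u) {d : ℝ} (hd : 1 < d) (hdyn : IsDynamicalDegree f A d) (c : Cover W) :
    ∃ C : ℝ, ∀ w : W.Pt, c.relDeg w = c.N → ∀ k : ℕ,
      |u (f.pt^[k] (π.pt w)) - coef f π c A k * c.h (c.φ w)|
        ≤ C * coef f π c A k * √(max 1 (c.h (c.φ w))) := by
  have hd0 : 0 < d := by linarith
  have hN : (0 : ℝ) < c.N := by exact_mod_cast c.N_pos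
  obtain ⟨s, η, hs, hη, hinv⟩ := exists_lift V
  obtain ⟨ℓ, c0, B, hc0, hB, hlow, hup, hmain⟩ := along V s η hs hη f hA hu hd hdyn
  obtain ⟨c1, C1, hc1, hC1, hco⟩ := coef_bounds f π hπ c hA hd0 hc0 hB hlow hup
  obtain ⟨K, hK, hnorm⟩ := norm_unif s η hs hη π c
  obtain ⟨K2, hK2⟩ := height_bound W c.ample c.height_H (π.height_pic _ _ hu)
  obtain ⟨D2, hD2⟩ : ∃ D2 : ℝ, D2 = |K2| + 1 := ⟨_, rfl⟩
  have hD2' : 1 ≤ D2 := by rw [hD2]; linarith [abs_nonneg K2]
  have hcomp : ∀ w, √(max 1 (u (π.pt w))) ≤ D2 * √(max 1 (c.h (c.φ w))) := by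
    intro w
    have h1 : (1 : ℝ) ≤ max 1 (c.h (c.φ w)) := le_max_left _ _
    have h2 : max 1 (u (π.pt w)) ≤ D2 * max 1 (c.h (c.φ w)) := by
      refine max_le (by nlinarith) ?_
      have h3 : u (π.pt w) ≤ K2 * max 1 (c.h (c.φ w)) := (le_abs_self _).trans (hK2 w)
      have h4 : K2 ≤ D2 := by rw [hD2]; linarith [le_abs_self K2]
      nlinarith
    have h3 : √(max 1 (u (π.pt w))) ≤ √(D2 * max 1 (c.h (c.φ w))) := Real.sqrt_le_sqrt h2
    rw [Real.sqrt_mul (by linarith)] at h3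
    have h4 : √D2 ≤ D2 := by
      rw [Real.sqrt_le_left (by linarith)]
      nlinarith
    exact h3.trans (mul_le_mul_of_nonneg_right h4 (Real.sqrt_nonneg _))
  refine ⟨(B * D2 + K * (B * ‖V.cls A‖) / c.N) / c1, fun w hw k => ?_⟩
  have hg := gr_pos ℓ hd0 k
  have h1 := (hmain k (π.pt w)).2
  have h2 := hnorm ((f.ns ^ k) (V.cls A)) (c.φ w)
  rw [full_sum c w hw (fun y => η ((f.ns ^ k) (V.cls A)) (π.pt y))
    (fun g y => by rw [π.pt_smul, hinv])] at h2
  have h3 : |η ((f.ns ^ k) (V.cls A)) (π.pt w) - coef f π c A k * c.h (c.φ w)|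
      ≤ K * (B * ‖V.cls A‖) / c.N * gr ℓ d k := by
    have h4 : η ((f.ns ^ k) (V.cls A)) (π.pt w) - coef f π c A k * c.h (c.φ w)
        = (c.N * η ((f.ns ^ k) (V.cls A)) (π.pt w)
          - W.deg (W.cls c.H) (π.ns ((f.ns ^ k) (V.cls A))) * c.h (c.φ w)) / c.N := by
      unfold coef
      field_simp
    rw [h4, abs_div, abs_of_pos hN, div_le_iff₀ hN]
    refine h2.trans ?_
    calc K * ‖(f.ns ^ k) (V.cls A)‖ ≤ K * (B * ‖V.cls A‖ * gr ℓ d k) :=
          mul_le_mul_of_nonneg_left (hup k _) hK.le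
      _ = K * (B * ‖V.cls A‖) / c.N * gr ℓ d k * c.N := by field_simp
  have hm1 : (1 : ℝ) ≤ √(max 1 (c.h (c.φ w))) := by
    rw [Real.one_le_sqrt]
    exact le_max_left _ _
  have h5 : |u (f.pt^[k] (π.pt w)) - coef f π c A k * c.h (c.φ w)|
      ≤ |u (f.pt^[k] (π.pt w)) - η ((f.ns ^ k) (V.cls A)) (π.pt w)|
        + |η ((f.ns ^ k) (V.cls A)) (π.pt w) - coef f π c A k * c.h (c.φ w)| := abs_sub_le _ _ _
  calc |u (f.pt^[k] (π.pt w)) - coef f π c A k * c.h (c.φ w)|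
      ≤ B * gr ℓ d k * (D2 * √(max 1 (c.h (c.φ w))))
        + K * (B * ‖V.cls A‖) / c.N * gr ℓ d k * √(max 1 (c.h (c.φ w))) := by
        refine h5.trans (add_le_add ?_ ?_)
        · exact h1.trans (mul_le_mul_of_nonneg_left (hcomp w) (by positivity))
        · refine h3.trans (le_mul_of_one_le_right (by positivity) hm1)
    _ = (B * D2 + K * (B * ‖V.cls A‖) / c.N) * gr ℓ d k * √(max 1 (c.h (c.φ w))) := by ring
    _ ≤ (B * D2 + K * (B * ‖V.cls A‖) / c.N) * (coef f π c A k / c1)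
        * √(max 1 (c.h (c.φ w))) := by
        refine mul_le_mul_of_nonneg_right (mul_le_mul_of_nonneg_left ?_ (by positivity))
          (Real.sqrt_nonneg _)
        rw [le_div_iff₀ hc1]
        linarith [(hco k).1]
    _ = (B * D2 + K * (B * ‖V.cls A‖) / c.N) / c1 * coef f π c A k
        * √(max 1 (c.h (c.φ w))) := by ring

end Pool.Agent.Q8.KS
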