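import Mathlib
import Pool.Agent.Q8.KS.Core4

set_option autoImplicit false

open Filter Topology

namespace Pool.Agent.Q8.KS

variable {G : Type} [Group G]

/-- Two-sided bounds for the heights of the orbit of a point of large relative degree. -/
theorem large_points {V W : Variety G} (π : Morphism W V) (hπ : Function.Surjective π.pt)
    {H₀ : W.Pic} (hH₀ : W.IsAmple H₀) :
    ∃ κ : ℝ, 0 < κ ∧ ∀ (f : Morphism V V) (A : V.Pic) (u : V.Pt → ℝ) (d : ℝ), V.IsAmple A →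
      V.IsHeight A u → 1 < d → IsDynamicalDegree f A d →
      ∀ c : Cover W, (∃ t : ℝ, 0 < t ∧ W.cls c.H = t • W.cls H₀) →
        ∃ C : ℝ, 0 < C ∧ ∀ w : W.Pt, (1 - κ) * c.N < c.relDeg w → C ≤ c.h (c.φ w) → ∀ k : ℕ,
          coef f π c A k * (c.h (c.φ w) / 8) ≤ u (f.pt^[k] (π.pt w)) ∧
            u (f.pt^[k] (π.pt w)) ≤ C * (coef f π c A k * c.h (c.φ w)) := by
  obtain ⟨s, η, hs, hη, hinv⟩ := exists_lift V
  obtain ⟨κ, hκ, hmainκ⟩ := large_rel s η hs hη hinv π hπ hH₀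
  refine ⟨κ, hκ, ?_⟩
  intro f A u d hA hu hd hdyn c hc
  have hd0 : 0 < d := by linarith
  have hN : (0 : ℝ) < c.N := by exact_mod_cast c.N_pos
  obtain ⟨C₀, hC₀, hlarge⟩ := hmainκ c hc
  obtain ⟨ℓ, c0, B, hc0, hB, hlow, hup, hmain⟩ := along V s η hs hη f hA hu hd hdyn
  obtain ⟨c1, C1, hc1, hC1, hco⟩ := coef_bounds f π hπ c hA hd0 hc0 hB hlow hup
  obtain ⟨K2, hK2⟩ := height_bound W c.ample c.height_H (π.height_pic _ _ hu)
  obtain ⟨D2, hD2⟩ : ∃ D2 : ℝ, D2 = |K2| + 1 := ⟨_, rfl⟩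
  have hD2' : 1 ≤ D2 := by rw [hD2]; linarith [abs_nonneg K2]
  have hcomp : ∀ w, 1 ≤ c.h (c.φ w) → max 1 (u (π.pt w)) ≤ D2 * c.h (c.φ w) := by
    intro w hw
    have h1 : max 1 (c.h (c.φ w)) = c.h (c.φ w) := max_eq_right hw
    refine max_le (by nlinarith) ?_
    have h3 : u (π.pt w) ≤ K2 * max 1 (c.h (c.φ w)) := (le_abs_self _).trans (hK2 w)
    rw [h1] at h3
    have h4 : K2 ≤ D2 := by rw [hD2]; linarith [le_abs_self K2]
    nlinarith
  have hAn : V.cls A ∈ V.Nef := interior_subset hA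
  -- the threshold
  obtain ⟨T, hT⟩ : ∃ T : ℝ, T = B * D2 / c1 := ⟨_, rfl⟩
  have hT0 : 0 < T := by rw [hT]; positivity
  refine ⟨C₀ + 1 + (8 * T) ^ 2 + T, by positivity, ?_⟩
  intro w hw hhw k
  obtain ⟨h, hh⟩ : ∃ h : ℝ, h = c.h (c.φ w) := ⟨_, rfl⟩
  have hcw := hcomp w
  have hl := hlarge w hw
  rw [← hh] at hhw hcw hl ⊢
  have h1 : 1 ≤ h := by
    have : 0 ≤ (8 * T) ^ 2 := by positivity
    linarith
  have h2 : (8 * T) ^ 2 ≤ h := by linarith
  have h3 : C₀ ≤ h := by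
    have : 0 ≤ (8 * T) ^ 2 := by positivity
    linarith
  have h0 : 0 < h := by linarith
  have hg := gr_pos ℓ hd0 k
  obtain ⟨m, hm⟩ : ∃ m : ℝ, m = coef f π c A k := ⟨_, rfl⟩
  have hcok := hco k
  rw [← hm] at hcok ⊢
  have hm0 : 0 < m := lt_of_lt_of_le (mul_pos hc1 hg) hcok.1
  have hgm : gr ℓ d k ≤ m / c1 := by
    rw [le_div_iff₀ hc1]
    linarith [hcok.1]
  have hx : max 1 (u (π.pt w)) ≤ D2 * h := hcw h1
  obtain ⟨hu1, hu2⟩ := hmain k (π.pt w)
  constructor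
  · have h4 : m * (h / 4) ≤ η ((f.ns ^ k) (V.cls A)) (π.pt w) := by
      rw [hm]
      exact hl h3 _ (pow_mem f.nef k hAn)
    have h5 := (abs_le.1 hu2).1
    have h6 : √(max 1 (u (π.pt w))) ≤ D2 * √h := by
      have h7 : √(max 1 (u (π.pt w))) ≤ √(D2 * h) := Real.sqrt_le_sqrt hx
      rw [Real.sqrt_mul (by linarith)] at h7
      have h8 : √D2 ≤ D2 := by
        rw [Real.sqrt_le_left (by linarith)]
        nlinarith
      exact h7.trans (mul_le_mul_of_nonneg_right h8 (Real.sqrt_nonneg _))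
    have h7 : B * gr ℓ d k * √(max 1 (u (π.pt w))) ≤ m * (T * √h) := by
      calc B * gr ℓ d k * √(max 1 (u (π.pt w))) ≤ B * (m / c1) * (D2 * √h) := by
            refine mul_le_mul (mul_le_mul_of_nonneg_left hgm hB.le) h6 (Real.sqrt_nonneg _)
              (by positivity)
        _ = m * (T * √h) := by rw [hT]; ring
    have h8 : T * √h ≤ h / 8 := by
      have h9 : 8 * T ≤ √h := Real.le_sqrt_of_sq_le h2
      have h10 : √h * √h = h := Real.mul_self_sqrt h0.le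
      nlinarith [Real.sqrt_nonneg h]
    have h9 : m * (T * √h) ≤ m * (h / 8) := mul_le_mul_of_nonneg_left h8 hm0.le
    linarith
  · calc u (f.pt^[k] (π.pt w)) ≤ B * gr ℓ d k * max 1 (u (π.pt w)) := hu1
      _ ≤ B * (m / c1) * (D2 * h) := by
          refine mul_le_mul (mul_le_mul_of_nonneg_left hgm hB.le) hx
            (le_trans zero_le_one (le_max_left _ _)) (by positivity)
      _ = T * (m * h) := by rw [hT]; ring
      _ ≤ (C₀ + 1 + (8 * T) ^ 2 + T) * (m * h) := by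
          refine mul_le_mul_of_nonneg_right ?_ (by positivity)
          have : 0 ≤ (8 * T) ^ 2 := by positivity
          linarith

lemma const_rpow_tendsto {x : ℝ} (hx : 0 < x) :
    Tendsto (fun k : ℕ => x ^ (1 / (k : ℝ))) atTop (𝓝 1) := by
  have h6 : Tendsto (fun k : ℕ => 1 / (k : ℝ)) atTop (𝓝 0) := tendsto_one_div_atTop_nhds_zero_nat
  have := (Real.continuousAt_const_rpow (a := x) (b := 0) hx.ne').tendsto.comp h6
  rw [Real.rpow_zero] at this
  exact this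

lemma rate_of_bounds {a b : ℕ → ℝ} {d x y : ℝ} (hx : 0 < x) (hy : 0 < y) (ha : ∀ k, 0 ≤ a k)
    (hlim : Tendsto (fun k : ℕ => (a k) ^ (1 / (k : ℝ))) atTop (𝓝 d))
    (h1 : ∀ k, x * a k ≤ b k) (h2 : ∀ k, b k ≤ y * a k) :
    Tendsto (fun k : ℕ => (b k) ^ (1 / (k : ℝ))) atTop (𝓝 d) := by
  have hb : ∀ k, 0 ≤ b k := fun k => (mul_nonneg hx.le (ha k)).trans (h1 k)
  have hl : Tendsto (fun k : ℕ => (x * a k) ^ (1 / (k : ℝ))) atTop (𝓝 d) := by
    have := (const_rpow_tendsto hx).mul hlim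
    rw [one_mul] at this
    refine this.congr fun k => ?_
    rw [Real.mul_rpow hx.le (ha k)]
  have hr : Tendsto (fun k : ℕ => (y * a k) ^ (1 / (k : ℝ))) atTop (𝓝 d) := by
    have := (const_rpow_tendsto hy).mul hlim
    rw [one_mul] at this
    refine this.congr fun k => ?_
    rw [Real.mul_rpow hy.le (ha k)]
  refine tendsto_of_tendsto_of_tendsto_of_le_of_le hl hr (fun k => ?_) (fun k => ?_)
  · exact Real.rpow_le_rpow (mul_nonneg hx.le (ha k)) (h1 k) (by positivity)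
  · exact Real.rpow_le_rpow (hb k) (h2 k) (by positivity)

/-- The arithmetic degree from two-sided bounds for the heights. -/
theorem arith_of_bounds {V W : Variety G} (f : Morphism V V) (π : Morphism W V)
    (hπ : Function.Surjective π.pt) {A : V.Pic} (hA : V.IsAmple A) {u : V.Pt → ℝ}
    (hu : V.IsHeight A u) {d : ℝ} (hd : 1 < d) (hdyn : IsDynamicalDegree f A d) (c : Cover W)
    {p q : ℝ} (hp : 0 < p) (w : W.Pt) (hw1 : ∀ k, coef f π c A k * p ≤ u (f.pt^[k] (π.pt w)))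
    (hw2 : ∀ k, u (f.pt^[k] (π.pt w)) ≤ q * coef f π c A k) :
    IsArithmeticDegree f u (π.pt w) d := by
  have hd0 : 0 < d := by linarith
  obtain ⟨s, η, hs, hη, hinv⟩ := exists_lift V
  obtain ⟨ℓ, c0, B, hc0, hB, hlow, hup, hmain⟩ := along V s η hs hη f hA hu hd hdyn
  obtain ⟨c1, C1, hc1, hC1, hco⟩ := coef_bounds f π hπ c hA hd0 hc0 hB hlow hup
  have hdeg : ∀ k, 0 < V.deg (V.cls A) ((f.ns ^ k) (V.cls A)) := fun k =>
    lt_of_lt_of_le (mul_pos hc0 (gr_pos ℓ hd0 k)) (hlow k)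
  have hdeg1 : ∀ k, c0 ≤ V.deg (V.cls A) ((f.ns ^ k) (V.cls A)) := fun k =>
    (le_mul_of_one_le_right hc0.le (gr_one_le ℓ hd k)).trans (hlow k)
  unfold IsArithmeticDegree
  refine rate_of_bounds (x := p * c1) (y := |q| * C1 + c0⁻¹) (by positivity) (by positivity)
    (fun k => (hdeg k).le) hdyn (fun k => ?_) (fun k => ?_)
  · have h1 := (hco k).2.2.1
    have h2 := hw1 k
    have h3 : p * (c1 * V.deg (V.cls A) ((f.ns ^ k) (V.cls A))) ≤ p * coef f π c A k :=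
      mul_le_mul_of_nonneg_left h1 hp.le
    calc p * c1 * V.deg (V.cls A) ((f.ns ^ k) (V.cls A))
        = p * (c1 * V.deg (V.cls A) ((f.ns ^ k) (V.cls A))) := by ring
      _ ≤ u (f.pt^[k] (π.pt w)) := by linarith
      _ ≤ max 1 (u (f.pt^[k] (π.pt w))) := le_max_right _ _
  · have h1 := (hco k).2.2.2
    have h2 := hw2 k
    have h3 : 0 < coef f π c A k := lt_of_lt_of_le (mul_pos hc1 (gr_pos ℓ hd0 k)) (hco k).1
    have h4 : q * coef f π c A k ≤ |q| * C1 * V.deg (V.cls A) ((f.ns ^ k) (V.cls A)) := by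
      calc q * coef f π c A k ≤ |q| * coef f π c A k :=
            mul_le_mul_of_nonneg_right (le_abs_self _) h3.le
        _ ≤ |q| * (C1 * V.deg (V.cls A) ((f.ns ^ k) (V.cls A))) :=
            mul_le_mul_of_nonneg_left h1 (abs_nonneg _)
        _ = _ := by ring
    have h5 : (1 : ℝ) ≤ c0⁻¹ * V.deg (V.cls A) ((f.ns ^ k) (V.cls A)) := by
      rw [le_inv_mul_iff₀ hc0, mul_one]
      exact hdeg1 k
    have h6 : 0 ≤ |q| * C1 * V.deg (V.cls A) ((f.ns ^ k) (V.cls A)) := by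
      have := hdeg k
      positivity
    rw [add_mul]
    refine max_le (by linarith) ?_
    have h7 : 0 ≤ c0⁻¹ * V.deg (V.cls A) ((f.ns ^ k) (V.cls A)) := by linarith
    linarith

/-- **Finiteness of the points of small arithmetic degree and large relative degree.** -/
theorem finiteness {V W : Variety G} (π : Morphism W V) (hπ : Function.Surjective π.pt)
    {H₀ : W.Pic} (hH₀ : W.IsAmple H₀) :
    ∃ κ : ℝ, 0 < κ ∧ ∀ (f : Morphism V V) (A : V.Pic) (u : V.Pt → ℝ) (d : ℝ), V.IsAmple A →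
      V.IsHeight A u → 1 < d → IsDynamicalDegree f A d →
      ∀ c : Cover W, (∃ t : ℝ, 0 < t ∧ W.cls c.H = t • W.cls H₀) →
        ∃ C : ℝ, 0 < C ∧
          (∀ w : W.Pt, (1 - κ) * c.N < c.relDeg w → C ≤ c.h (c.φ w) →
            IsArithmeticDegree f u (π.pt w) d ∧ ∀ k : ℕ,
              V.deg (V.cls A) ((f.ns ^ k) (V.cls A)) * c.h (c.φ w) ≤ C * u (f.pt^[k] (π.pt w)) ∧
              u (f.pt^[k] (π.pt w)) ≤
                C * (V.deg (V.cls A) ((f.ns ^ k) (V.cls A)) * c.h (c.φ w))) ∧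
          ∀ e : ℕ, {w : W.Pt | (1 - κ) * c.N < c.relDeg w ∧
            (MulAction.orbit G (c.φ w)).ncard ≤ e ∧
              ¬ IsArithmeticDegree f u (π.pt w) d}.Finite := by
  obtain ⟨κ, hκ, hall⟩ := large_points π hπ hH₀
  refine ⟨κ, hκ, ?_⟩
  intro f A u d hA hu hd hdyn c hc
  have hd0 : 0 < d := by linarith
  obtain ⟨C, hC, hb⟩ := hall f A u d hA hu hd hdyn c hc
  obtain ⟨s, η, hs, hη, hinv⟩ := exists_lift V
  obtain ⟨ℓ, c0, B, hc0, hB, hlow, hup, hmain⟩ := along V s η hs hη f hA hu hd hdyn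
  obtain ⟨c1, C1, hc1, hC1, hco⟩ := coef_bounds f π hπ c hA hd0 hc0 hB hlow hup
  obtain ⟨Q, hQ⟩ : ∃ Q : ℝ, Q = C + 1 + 8 / c1 + C * C1 := ⟨_, rfl⟩
  have hQ0 : 0 < Q := by rw [hQ]; positivity
  have hpart : ∀ w : W.Pt, (1 - κ) * c.N < c.relDeg w → Q ≤ c.h (c.φ w) →
      IsArithmeticDegree f u (π.pt w) d ∧ ∀ k : ℕ,
        V.deg (V.cls A) ((f.ns ^ k) (V.cls A)) * c.h (c.φ w) ≤ Q * u (f.pt^[k] (π.pt w)) ∧
        u (f.pt^[k] (π.pt w)) ≤
          Q * (V.deg (V.cls A) ((f.ns ^ k) (V.cls A)) * c.h (c.φ w)) := by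
    intro w hw hhw
    have h8 : 0 < 8 / c1 := by positivity
    have h9 : 0 < C * C1 := by positivity
    have hCh : C ≤ c.h (c.φ w) := by linarith
    have h0 : 0 < c.h (c.φ w) := by linarith
    have hbw := hb w hw hCh
    refine ⟨arith_of_bounds f π hπ hA hu hd hdyn c (p := c.h (c.φ w) / 8)
      (q := C * c.h (c.φ w)) (by positivity) w (fun k => (hbw k).1) (fun k => ?_), fun k => ?_⟩
    · refine (hbw k).2.trans (le_of_eq (by ring))
    · obtain ⟨h1, h2⟩ := hbw k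
      obtain ⟨h3, h4, h5, h6⟩ := hco k
      have hdeg : 0 < V.deg (V.cls A) ((f.ns ^ k) (V.cls A)) :=
        lt_of_lt_of_le (mul_pos hc0 (gr_pos ℓ hd0 k)) (hlow k)
      have hm : 0 < coef f π c A k := lt_of_lt_of_le (mul_pos hc1 (gr_pos ℓ hd0 k)) h3
      have hupos : 0 < u (f.pt^[k] (π.pt w)) := lt_of_lt_of_le (by positivity) h1
      constructor
      · have h7 : V.deg (V.cls A) ((f.ns ^ k) (V.cls A)) * c.h (c.φ w)
            ≤ (8 / c1) * u (f.pt^[k] (π.pt w)) := by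
          rw [div_mul_eq_mul_div, le_div_iff₀ hc1]
          have : c1 * V.deg (V.cls A) ((f.ns ^ k) (V.cls A)) * c.h (c.φ w)
              ≤ coef f π c A k * c.h (c.φ w) := mul_le_mul_of_nonneg_right h5 h0.le
          linarith
        refine h7.trans (mul_le_mul_of_nonneg_right ?_ hupos.le)
        linarith
      · calc u (f.pt^[k] (π.pt w)) ≤ C * (coef f π c A k * c.h (c.φ w)) := h2
          _ ≤ C * ((C1 * V.deg (V.cls A) ((f.ns ^ k) (V.cls A))) * c.h (c.φ w)) :=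
              mul_le_mul_of_nonneg_left (mul_le_mul_of_nonneg_right h6 h0.le) hC.le
          _ = (C * C1) * (V.deg (V.cls A) ((f.ns ^ k) (V.cls A)) * c.h (c.φ w)) := by ring
          _ ≤ Q * (V.deg (V.cls A) ((f.ns ^ k) (V.cls A)) * c.h (c.φ w)) := by
              refine mul_le_mul_of_nonneg_right ?_ (by positivity)
              linarith
  refine ⟨Q, hQ0, hpart, fun e => ?_⟩
  have hfin := c.northcott e Q
  have hfin2 : (⋃ t ∈ {t : c.P | (MulAction.orbit G t).ncard ≤ e ∧ c.h t ≤ Q},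
      (c.fib t : Set W.Pt)).Finite := hfin.biUnion fun t _ => (c.fib t).finite_toSet
  refine hfin2.subset ?_
  rintro w ⟨hw1, hw2, hw3⟩
  refine Set.mem_biUnion (x := c.φ w) ⟨hw2, ?_⟩ ?_
  · by_contra hlt
    exact hw3 (hpart w hw1 (not_le.1 hlt).le).1
  · rw [Finset.mem_coe, c.mem_fib]

end Pool.Agent.Q8.KS
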