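import Mathlib
import Pool.Agent.Q8.KS.Core5

set_option autoImplicit false

open Filter Topology

namespace Pool.Agent.Q8.KS

variable {G : Type} [Group G]

/-- A dominant rational self-map `F : W ⇢ W` over `K`. -/
structure RationalSelfMap (W : Variety G) where
  /-- the points with a well-defined forward orbit -/
  dom : Set W.Pt
  /-- the map on points -/
  pt : W.Pt → W.Pt
  pt_mem : ∀ x ∈ dom, pt x ∈ dom
  /-- the first dynamical degree -/
  δ : ℝ
  /-- the heights of an orbit grow at most like `(δ + ε)^k` -/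
  upper : ∀ (B : W.Pic) (u : W.Pt → ℝ), W.IsAmple B → W.IsHeight B u → ∀ ε : ℝ, 0 < ε →
    ∃ C : ℝ, ∀ x ∈ dom, ∀ k : ℕ, u (pt^[k] x) ≤ C * (δ + ε) ^ k * max 1 (u x)

/-- `a` is the arithmetic degree of `F : W ⇢ W` at the point `x`: the limit of
`max(1, h(F^k(x)))^(1/k)`. -/
def RationalSelfMap.IsArithmeticDegree {W : Variety G} (F : RationalSelfMap W) (u : W.Pt → ℝ)
    (x : W.Pt) (a : ℝ) : Prop :=
  Tendsto (fun k : ℕ => (max 1 (u (F.pt^[k] x))) ^ (1 / (k : ℝ))) atTop (𝓝 a)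

lemma rate_of_bounds_eps {a b : ℕ → ℝ} {d x : ℝ} (hd : 0 < d) (hx : 0 < x) (ha : ∀ k, 0 ≤ a k)
    (hlim : Tendsto (fun k : ℕ => (a k) ^ (1 / (k : ℝ))) atTop (𝓝 d))
    (h1 : ∀ k, x * a k ≤ b k)
    (h2 : ∀ ε : ℝ, 0 < ε → ∃ C : ℝ, 0 < C ∧ ∀ k : ℕ, b k ≤ C * (d + ε) ^ k) :
    Tendsto (fun k : ℕ => (b k) ^ (1 / (k : ℝ))) atTop (𝓝 d) := by
  have hb : ∀ k, 0 ≤ b k := fun k => (mul_nonneg hx.le (ha k)).trans (h1 k)
  have hl : Tendsto (fun k : ℕ => (x * a k) ^ (1 / (k : ℝ))) atTop (𝓝 d) := by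
    have := (const_rpow_tendsto hx).mul hlim
    rw [one_mul] at this
    refine this.congr fun k => ?_
    rw [Real.mul_rpow hx.le (ha k)]
  rw [tendsto_order]
  constructor
  · intro y hy
    filter_upwards [hl.eventually (eventually_gt_nhds hy)] with k hk
    exact lt_of_lt_of_le hk (Real.rpow_le_rpow (mul_nonneg hx.le (ha k)) (h1 k) (by positivity))
  · intro y hy
    obtain ⟨C, hC, hCb⟩ := h2 ((y - d) / 2) (by linarith)
    have hs : 0 < d + (y - d) / 2 := by linarith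
    have hr : Tendsto (fun k : ℕ => C ^ (1 / (k : ℝ)) * (d + (y - d) / 2)) atTop
        (𝓝 (1 * (d + (y - d) / 2))) := (const_rpow_tendsto hC).mul_const _
    have hlt : 1 * (d + (y - d) / 2) < y := by linarith
    filter_upwards [hr.eventually (eventually_lt_nhds hlt), eventually_gt_atTop 0] with k hk hk0
    have hk0' : (0 : ℝ) < k := by exact_mod_cast hk0
    refine lt_of_le_of_lt ?_ hk
    have h3 : (b k) ^ (1 / (k : ℝ)) ≤ (C * (d + (y - d) / 2) ^ k) ^ (1 / (k : ℝ)) :=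
      Real.rpow_le_rpow (hb k) (hCb k) (by positivity)
    refine h3.trans (le_of_eq ?_)
    rw [Real.mul_rpow hC.le (by positivity), ← Real.rpow_natCast (d + (y - d) / 2) k,
      ← Real.rpow_mul hs.le, one_div, mul_inv_cancel₀ hk0'.ne', Real.rpow_one]

/-- **Rational maps over an endomorphism.** -/
theorem semiconjugate {V W : Variety G} (π : Morphism W V) (hπ : Function.Surjective π.pt)
    {H₀ : W.Pic} (hH₀ : W.IsAmple H₀) :
    ∃ κ : ℝ, 0 < κ ∧ ∀ (F : RationalSelfMap W) (f : Morphism V V) (A : V.Pic), V.IsAmple A →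
      1 < F.δ → IsDynamicalDegree f A F.δ → (∀ x ∈ F.dom, π.pt (F.pt x) = f.pt (π.pt x)) →
      ∀ (B : W.Pic) (v : W.Pt → ℝ), W.IsAmple B → W.IsHeight B v →
      ∀ c : Cover W, (∃ t : ℝ, 0 < t ∧ W.cls c.H = t • W.cls H₀) →
        ∃ C : ℝ, 0 < C ∧
          (∀ w ∈ F.dom, (1 - κ) * c.N < c.relDeg w → C ≤ c.h (c.φ w) →
            F.IsArithmeticDegree v w F.δ ∧ ∀ k : ℕ,
              V.deg (V.cls A) ((f.ns ^ k) (V.cls A)) * c.h (c.φ w) ≤ C * v (F.pt^[k] w)) ∧
          ∀ e : ℕ, {w : W.Pt | w ∈ F.dom ∧ (1 - κ) * c.N < c.relDeg w ∧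
            (MulAction.orbit G (c.φ w)).ncard ≤ e ∧ ¬ F.IsArithmeticDegree v w F.δ}.Finite := by
  obtain ⟨κ, hκ, hall⟩ := finiteness π hπ hH₀
  refine ⟨κ, hκ, ?_⟩
  intro F f A hA hd hdyn hsc B v hB hv c hc
  obtain ⟨u, hu'⟩ := Submodule.mkQ_surjective (bdd V.Pt) (V.height A)
  have hu : V.IsHeight A u := hu'.symm
  obtain ⟨C, hC, hb, _⟩ := hall f A u F.δ hA hu hd hdyn c hc
  have hd0 : 0 < F.δ := by linarith
  obtain ⟨s, η, hs, hη, hinv⟩ := exists_lift V
  obtain ⟨ℓ, c0, B0, hc0, hB0, hlow, hup, hmain⟩ := along V s η hs hη f hA hu hd hdyn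
  have hdeg : ∀ k, 0 < V.deg (V.cls A) ((f.ns ^ k) (V.cls A)) := fun k =>
    lt_of_lt_of_le (mul_pos hc0 (gr_pos ℓ hd0 k)) (hlow k)
  have hdeg1 : ∀ k, c0 ≤ V.deg (V.cls A) ((f.ns ^ k) (V.cls A)) := fun k =>
    (le_mul_of_one_le_right hc0.le (gr_one_le ℓ hd k)).trans (hlow k)
  obtain ⟨K, hK⟩ := height_bound W hB hv (π.height_pic _ _ hu)
  have hiter : ∀ k : ℕ, ∀ x ∈ F.dom, F.pt^[k] x ∈ F.dom ∧ π.pt (F.pt^[k] x) = f.pt^[k] (π.pt x) := by
    intro k
    induction k with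
    | zero => exact fun x hx => ⟨hx, rfl⟩
    | succ k ih =>
      intro x hx
      obtain ⟨h1, h2⟩ := ih (F.pt x) (F.pt_mem x hx)
      rw [Function.iterate_succ_apply, Function.iterate_succ_apply]
      exact ⟨h1, by rw [h2, hsc x hx]⟩
  obtain ⟨Q, hQ⟩ : ∃ Q : ℝ, Q = C + 1 + C * (|K| + 1) / c0 + C * (|K| + 1) := ⟨_, rfl⟩
  have hQ0 : 0 < Q := by rw [hQ]; positivity
  have hpart : ∀ w ∈ F.dom, (1 - κ) * c.N < c.relDeg w → Q ≤ c.h (c.φ w) →
      F.IsArithmeticDegree v w F.δ ∧ ∀ k : ℕ,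
        V.deg (V.cls A) ((f.ns ^ k) (V.cls A)) * c.h (c.φ w) ≤ Q * v (F.pt^[k] w) := by
    intro w hwd hw hhw
    have h8 : 0 < C * (|K| + 1) / c0 := by positivity
    have h9 : 0 < C * (|K| + 1) := by positivity
    have h7 : C * (|K| + 1) / c0 < c.h (c.φ w) := by linarith
    have hCh : C ≤ c.h (c.φ w) := by linarith
    have h0 : 0 < c.h (c.φ w) := by linarith
    obtain ⟨_, hbw⟩ := hb w hw hCh
    -- the basic inequality
    have hbasic : ∀ k : ℕ, V.deg (V.cls A) ((f.ns ^ k) (V.cls A)) * c.h (c.φ w)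
        ≤ C * (|K| + 1) * max 1 (v (F.pt^[k] w)) := by
      intro k
      have h1 := (hbw k).1
      have h2 : u (f.pt^[k] (π.pt w)) ≤ K * max 1 (v (F.pt^[k] w)) := by
        have := (le_abs_self _).trans (hK (F.pt^[k] w))
        rwa [Function.comp_apply, (hiter k w hwd).2] at this
      have h3 : (0 : ℝ) ≤ max 1 (v (F.pt^[k] w)) := le_trans zero_le_one (le_max_left _ _)
      calc V.deg (V.cls A) ((f.ns ^ k) (V.cls A)) * c.h (c.φ w) ≤ C * u (f.pt^[k] (π.pt w)) := h1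
        _ ≤ C * (K * max 1 (v (F.pt^[k] w))) := mul_le_mul_of_nonneg_left h2 hC.le
        _ ≤ C * ((|K| + 1) * max 1 (v (F.pt^[k] w))) := by
            refine mul_le_mul_of_nonneg_left (mul_le_mul_of_nonneg_right ?_ h3) hC.le
            linarith [le_abs_self K]
        _ = _ := by ring
    have hvpos : ∀ k : ℕ, max 1 (v (F.pt^[k] w)) = v (F.pt^[k] w) := by
      intro k
      refine max_eq_right ?_
      by_contra hlt
      have h10 : max 1 (v (F.pt^[k] w)) = 1 := max_eq_left (not_le.1 hlt).le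
      have h11 := hbasic k
      rw [h10, mul_one] at h11
      have h12 : C * (|K| + 1) < c.h (c.φ w) * c0 := by
        rwa [div_lt_iff₀ hc0] at h7
      have h13 := mul_le_mul_of_nonneg_right (hdeg1 k) h0.le
      linarith
    refine ⟨?_, fun k => ?_⟩
    · unfold RationalSelfMap.IsArithmeticDegree
      refine rate_of_bounds_eps (a := fun k => V.deg (V.cls A) ((f.ns ^ k) (V.cls A)))
        (x := c.h (c.φ w) / (C * (|K| + 1))) hd0 (by positivity) (fun k => (hdeg k).le) hdyn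
        (fun k => ?_) (fun ε hε => ?_)
      · rw [div_mul_eq_mul_div, div_le_iff₀ (by positivity)]
        linarith [hbasic k]
      · obtain ⟨D, hD⟩ := F.upper B v hB hv ε hε
        refine ⟨|D| * max 1 (v w) + 1, by positivity, fun k => ?_⟩
        have h10 := hD w hwd k
        have h11 : 1 ≤ (F.δ + ε) ^ k := one_le_pow₀ (by linarith)
        have h12 : (1 : ℝ) ≤ max 1 (v w) := le_max_left _ _
        have h13 : D * (F.δ + ε) ^ k * max 1 (v w) ≤ |D| * max 1 (v w) * (F.δ + ε) ^ k := by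
          calc D * (F.δ + ε) ^ k * max 1 (v w) ≤ |D| * (F.δ + ε) ^ k * max 1 (v w) := by
                refine mul_le_mul_of_nonneg_right (mul_le_mul_of_nonneg_right (le_abs_self _)
                  (by linarith)) (by linarith)
            _ = _ := by ring
        have h14 : 0 ≤ |D| * max 1 (v w) * (F.δ + ε) ^ k := by positivity
        rw [add_mul, one_mul]
        exact max_le (by linarith) (by linarith)
    · have h1 := hbasic k
      rw [hvpos k] at h1
      have h2 : 0 ≤ v (F.pt^[k] w) := by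
        have := hvpos k
        rw [← this]
        exact le_trans zero_le_one (le_max_left _ _)
      refine h1.trans (mul_le_mul_of_nonneg_right ?_ h2)
      linarith
  refine ⟨Q, hQ0, hpart, fun e => ?_⟩
  have hfin := c.northcott e Q
  have hfin2 : (⋃ t ∈ {t : c.P | (MulAction.orbit G t).ncard ≤ e ∧ c.h t ≤ Q},
      (c.fib t : Set W.Pt)).Finite := hfin.biUnion fun t _ => (c.fib t).finite_toSet
  refine hfin2.subset ?_
  rintro w ⟨hw0, hw1, hw2, hw3⟩
  refine Set.mem_biUnion (x := c.φ w) ⟨hw2, ?_⟩ ?_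
  · by_contra hlt
    exact hw3 (hpart w hw0 hw1 (not_le.1 hlt).le).1
  · rw [Finset.mem_coe, c.mem_fib]

end Pool.Agent.Q8.KS
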