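import Mathlib
import Pool.Agent.Q8.KS.Core6

/-!
The share of the points of a fibre at which a nef class has a large height.
-/

set_option autoImplicit false

open Filter Topology

namespace Pool.Agent.Q8.KS

variable {G : Type} [Group G]

/-- The proper Zariski closed subsets of an irreducible projective variety `W` and its effective
divisors, with two classical facts on big classes. -/
structure Effective (W : Variety G) where
  /-- the proper Zariski closed subsets of `W` -/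
  closed : Set (Set W.Pt)
  empty_mem : ∅ ∈ closed
  union_mem : ∀ Y ∈ closed, ∀ Z ∈ closed, Y ∪ Z ∈ closed
  /-- `eff D Z`: the class `D` contains an effective divisor with support in `Z` -/
  eff : W.Pic → Set W.Pt → Prop
  support_mem : ∀ D Z, eff D Z → Z ∈ closed
  /-- the height of an effective divisor is bounded below off its support -/
  height_eff : ∀ D Z, eff D Z → ∀ u : W.Pt → ℝ, W.IsHeight D u → ∃ c : ℝ, ∀ x, x ∉ Z → c ≤ u x
  /-- Siu's criterion: if `H` is ample, `D` nef and `m (D ⋅ H^(m-1)) < H^m`, `m = dim W`, then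
  `H - D` is big, that is, the sum of an ample and an effective class -/
  siu : ∀ H ∈ interior W.Nef, ∀ D ∈ W.Nef, ((W.dimPred : ℝ) + 1) * W.deg H D < W.deg H H →
    ∃ E Z, eff E Z ∧ H - D - W.cls E ∈ interior W.Nef

/-- At least `p` of the points of the fibre of `φ` over `t`, counted with multiplicity, have the
property `P`. -/
def AtLeast {W : Variety G} (c : Cover W) (t : c.P) (p : ℝ) (P : W.Pt → Prop) : Prop :=
  ∃ S ⊆ c.fib t, (∀ w ∈ S, P w) ∧ p ≤ ∑ w ∈ S, (c.mult w : ℝ)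

/-- The counting lemma. -/
lemma count_large {ι : Type} (F : Finset ι) (a x : ι → ℝ) (ha : ∀ i ∈ F, 0 ≤ a i)
    {N q β γ δ : ℝ} (hN : ∑ i ∈ F, a i = N) (hq : 0 < q) (hδ : 0 ≤ δ) (hβ : 0 < β)
    (hx : ∀ i ∈ F, x i ≤ β * q) (hsum : (1 - γ) * (N * q) ≤ ∑ i ∈ F, a i * x i) :
    (1 - γ - δ) * N / β ≤ ∑ i ∈ F with δ * q ≤ x i, a i := by
  classical
  obtain ⟨n, hn⟩ : ∃ n, n = ∑ i ∈ F with δ * q ≤ x i, a i := ⟨_, rfl⟩
  have h1 := Finset.sum_filter_add_sum_filter_not F (fun i => δ * q ≤ x i) (fun i => a i * x i)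
  have h2 := Finset.sum_filter_add_sum_filter_not F (fun i => δ * q ≤ x i) a
  rw [← hn, hN] at h2
  have h3 : ∑ i ∈ F with δ * q ≤ x i, a i * x i ≤ n * (β * q) := by
    rw [hn, Finset.sum_mul]
    refine Finset.sum_le_sum fun i hi => ?_
    have hi' := (Finset.mem_filter.1 hi).1
    exact mul_le_mul_of_nonneg_left (hx i hi') (ha i hi')
  have h4 : ∑ i ∈ F with ¬ δ * q ≤ x i, a i * x i ≤ (N - n) * (δ * q) := by
    have h5 : N - n = ∑ i ∈ F with ¬ δ * q ≤ x i, a i := by linarith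
    rw [h5, Finset.sum_mul]
    refine Finset.sum_le_sum fun i hi => ?_
    obtain ⟨hi', hi2⟩ := Finset.mem_filter.1 hi
    exact mul_le_mul_of_nonneg_left (not_le.1 hi2).le (ha i hi')
  have hn0 : 0 ≤ n := by
    rw [hn]
    exact Finset.sum_nonneg fun i hi => ha i (Finset.mem_filter.1 hi).1
  rw [← hn, div_le_iff₀ hβ]
  have h5 : (1 - γ) * (N * q) ≤ n * (β * q) + (N - n) * (δ * q) := by linarith
  have h6 : (1 - γ - δ) * N * q ≤ n * β * q := by
    have : 0 ≤ n * (δ * q) := by positivity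
    nlinarith
  exact le_of_mul_le_mul_right h6 hq

/-- One nef class: Siu's criterion gives an upper bound for its height off a closed subset. -/
lemma big_local {V W : Variety G} (E : Effective W) (s : V.NS →ₗ[ℝ] V.Pic)
    (η : V.NS →ₗ[ℝ] (V.Pt → ℝ)) (hs : ∀ D, V.cls (s D) = D) (hη : ∀ D, V.IsHeight (s D) (η D))
    (π : Morphism W V) {H : W.Pic} (hH : W.IsAmple H) {u : W.Pt → ℝ} (hu : W.IsHeight H u)
    {a : ℝ} (ha : 0 < a) {D : V.NS} (hD : D ∈ V.Nef)
    (hlt : ((W.dimPred : ℝ) + 1) * W.deg (W.cls H) (π.ns D) < a * W.deg (W.cls H) (W.cls H)) :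
    ∃ Z ∈ E.closed, ∃ c : ℝ, ∀ y, y ∉ Z → η D (π.pt y) ≤ a * u y + c := by
  obtain ⟨B, Z, hBZ, hamp⟩ := E.siu (a • W.cls H) (ample_smul W.nef_cone hH ha) (π.ns D)
    (π.nef D hD) (by
      rw [deg_smul, deg_smul, map_smul, smul_eq_mul]
      have : 0 < a ^ W.dimPred := pow_pos ha _
      nlinarith)
  obtain ⟨b, hb⟩ := Submodule.mkQ_surjective (bdd W.Pt) (W.height B)
  obtain ⟨c1, hc1⟩ := E.height_eff B Z hBZ b hb.symm
  have h1 : W.cls (a • H - π.pic (s D) - B) ∈ interior W.Nef := by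
    rw [map_sub, map_sub, map_smul, π.cls_pic, hs]
    exact hamp
  obtain ⟨c2, hc2⟩ := W.ample_height _ h1 _
    (height_sub W (height_sub W (height_smul W a hu) (π.height_pic _ _ (hη D))) hb.symm)
  refine ⟨Z, E.support_mem _ _ hBZ, -c1 - c2, fun y hy => ?_⟩
  have h2 := hc1 y hy
  have h3 := hc2 y
  simp only [Pi.sub_apply, Pi.smul_apply, smul_eq_mul, Function.comp_apply] at h3
  linarith

/-- All nef classes at once. -/
theorem big_upper {V W : Variety G} (E : Effective W) (s : V.NS →ₗ[ℝ] V.Pic)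
    (η : V.NS →ₗ[ℝ] (V.Pt → ℝ)) (hs : ∀ D, V.cls (s D) = D) (hη : ∀ D, V.IsHeight (s D) (η D))
    (π : Morphism W V) (hπ : Function.Surjective π.pt) {H : W.Pic} (hH : W.IsAmple H)
    {u : W.Pt → ℝ} (hu : W.IsHeight H u) (hv : 0 < W.deg (W.cls H) (W.cls H)) {ε : ℝ}
    (hε : 0 < ε) :
    ∃ Z ∈ E.closed, ∃ c : ℝ, 0 ≤ c ∧ ∀ D ∈ V.Nef, ∀ y, y ∉ Z →
      η D (π.pt y) ≤ W.deg (W.cls H) (π.ns D) *
        (((W.dimPred : ℝ) + 1 + ε) / W.deg (W.cls H) (W.cls H) * max 1 (u y) + c) := by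
  classical
  obtain ⟨v, hvd⟩ : ∃ v : ℝ, v = W.deg (W.cls H) (W.cls H) := ⟨_, rfl⟩
  rw [← hvd] at hv ⊢
  obtain ⟨K, hK, hKb⟩ := lift_bound V s η hη W π hH hu
  obtain ⟨M, hM, hMb⟩ := nef_le_deg π hπ hH
  obtain ⟨L, hL⟩ : ∃ L : V.NS →ₗ[ℝ] ℝ, L = (W.deg (W.cls H)) ∘ₗ π.ns := ⟨_, rfl⟩
  have hLD : ∀ D, W.deg (W.cls H) (π.ns D) = L D := fun D => by rw [hL]; rfl
  obtain ⟨m, hm⟩ : ∃ m : ℝ, m = (W.dimPred : ℝ) + 1 := ⟨_, rfl⟩
  rw [← hm]
  have hm0 : 0 < m := by rw [hm]; positivity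
  have hcomp : IsCompact {D : V.NS | D ∈ V.Nef ∧ L D = 1} := by
    refine Metric.isCompact_of_isClosed_isBounded ?_ ?_
    · exact V.nef_cone.closed.inter ((isClosed_singleton (x := (1 : ℝ))).preimage (cont_lin L))
    · refine (Metric.isBounded_closedBall (x := (0 : V.NS)) (r := M)).subset ?_
      rintro D ⟨hD, hD1⟩
      rw [mem_closedBall_zero_iff]
      have := hMb D hD
      rw [hLD, hD1, mul_one] at this
      exact this
  obtain ⟨Z, hZ, c, hc, hb⟩ : ∃ Z ∈ E.closed, ∃ c : ℝ, 0 ≤ c ∧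
      ∀ D ∈ {D : V.NS | D ∈ V.Nef ∧ L D = 1}, ∀ y, y ∉ Z →
        η D (π.pt y) ≤ (m + ε) / v * max 1 (u y) + c := by
    refine hcomp.induction_on (p := fun S => ∃ Z ∈ E.closed, ∃ c : ℝ, 0 ≤ c ∧
      ∀ D ∈ S, ∀ y, y ∉ Z → η D (π.pt y) ≤ (m + ε) / v * max 1 (u y) + c) ?_ ?_ ?_ ?_
    · exact ⟨∅, E.empty_mem, 0, le_rfl, fun D hD => absurd hD (Set.notMem_empty D)⟩
    · rintro S T hST ⟨Z, hZ, c, hc, h⟩
      exact ⟨Z, hZ, c, hc, fun D hD => h D (hST hD)⟩
    · rintro S T ⟨Z, hZ, c, hc, h⟩ ⟨Z', hZ', c', hc', h'⟩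
      refine ⟨Z ∪ Z', E.union_mem Z hZ Z' hZ', c + c', by positivity, ?_⟩
      rintro D (hD | hD) y hy
      · have := h D hD y (fun h => hy (Or.inl h))
        linarith
      · have := h' D hD y (fun h => hy (Or.inr h))
        linarith
    · rintro D₀ ⟨hD₀, hD₁⟩
      obtain ⟨Z, hZ, c, hc⟩ := big_local E s η hs hη π hH hu (a := (m + ε / 2) / v)
        (by positivity) hD₀ (by
          rw [hLD, hD₁, ← hvd, ← hm, div_mul_cancel₀ _ hv.ne']
          linarith)
      refine ⟨Metric.ball D₀ (ε / (2 * v * K)),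
        mem_nhdsWithin_of_mem_nhds (Metric.ball_mem_nhds _ (by positivity)), Z, hZ, |c|,
        abs_nonneg c, fun D hD y hy => ?_⟩
      have h1 := hc y hy
      have h2 := (le_abs_self _).trans (hKb (D - D₀) y)
      have h3 : ‖D - D₀‖ < ε / (2 * v * K) := by
        rw [← dist_eq_norm]
        exact hD
      have h4 : (0 : ℝ) < max 1 (u y) := lt_of_lt_of_le one_pos (le_max_left _ _)
      have h5 : K * ‖D - D₀‖ * max 1 (u y) ≤ ε / 2 / v * max 1 (u y) := by
        refine mul_le_mul_of_nonneg_right ?_ h4.le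
        calc K * ‖D - D₀‖ ≤ K * (ε / (2 * v * K)) := mul_le_mul_of_nonneg_left h3.le hK.le
          _ = ε / 2 / v := by field_simp
      have h6 : η D (π.pt y) = η D₀ (π.pt y) + η (D - D₀) (π.pt y) := by
        rw [map_sub, Pi.sub_apply]
        ring
      have h7 : (m + ε / 2) / v * u y ≤ (m + ε / 2) / v * max 1 (u y) :=
        mul_le_mul_of_nonneg_left (le_max_right _ _) (by positivity)
      have h8 : (m + ε) / v * max 1 (u y) = (m + ε / 2) / v * max 1 (u y)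
          + ε / 2 / v * max 1 (u y) := by ring
      rw [h6, h8]
      linarith [le_abs_self c]
  refine ⟨Z, hZ, c, hc, fun D hD y hy => ?_⟩
  rw [hLD]
  have h0 := hMb D hD
  rw [hLD] at h0
  have hL0 : 0 ≤ L D := nonneg_of_mul_nonneg_right ((norm_nonneg D).trans h0) hM
  rcases hL0.eq_or_lt with h1 | h1
  · have h2 : D = 0 := by
      rw [← h1, mul_zero] at h0
      exact norm_le_zero_iff.1 h0
    rw [h2, map_zero, map_zero, zero_mul]
    exact le_rfl
  · have h2 := hb ((L D)⁻¹ • D) ⟨V.nef_cone.smul _ (inv_nonneg.2 hL0) D hD, by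
      rw [map_smul, smul_eq_mul, inv_mul_cancel₀ h1.ne']⟩ y hy
    rw [map_smul, Pi.smul_apply, smul_eq_mul, inv_mul_le_iff₀ h1] at h2
    exact h2

end Pool.Agent.Q8.KS
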