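import Mathlib
import Pool.Agent.Q8.KS.Share

/-!
The share of the points of a fibre at which all iterates have large height.
-/

set_option autoImplicit false

open Filter Topology

namespace Pool.Agent.Q8.KS

variable {G : Type} [Group G]

/-- An upper bound for the heights of nef classes at the points outside `Z`: the height of `D` at
`y` is at most `β` times its average over the fibre of `φ` through `y`. -/
def UpperBound {V W : Variety G} (η : V.NS →ₗ[ℝ] (V.Pt → ℝ)) (π : Morphism W V) (c : Cover W)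
    (Z : Set W.Pt) (β C : ℝ) : Prop :=
  ∀ y, y ∉ Z → C ≤ c.h (c.φ y) → ∀ D ∈ V.Nef,
    η D (π.pt y) ≤ β * (W.deg (W.cls c.H) (π.ns D) / c.N * c.h (c.φ y))

/-- **The share of the points with a large height, for all nef classes.** -/
theorem many_nef {V W : Variety G} (s : V.NS →ₗ[ℝ] V.Pic) (η : V.NS →ₗ[ℝ] (V.Pt → ℝ))
    (hs : ∀ D, V.cls (s D) = D) (hη : ∀ D, V.IsHeight (s D) (η D)) (π : Morphism W V)
    (hπ : Function.Surjective π.pt) (c : Cover W) {Z : Set W.Pt} {β C₁ δ : ℝ} (hβ : 0 < β)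
    (hδ : 0 < δ) (hup : UpperBound η π c Z β C₁) :
    ∃ C : ℝ, 0 < C ∧ ∀ t : c.P, C ≤ c.h t → (∀ y ∈ c.fib t, y ∉ Z) → ∀ D ∈ V.Nef,
      0 < W.deg (W.cls c.H) (π.ns D) →
        (1 - 2 * δ) * c.N / β ≤ ∑ y ∈ c.fib t with
          δ * (W.deg (W.cls c.H) (π.ns D) / c.N * c.h t) ≤ η D (π.pt y), (c.mult y : ℝ) := by
  classical
  obtain ⟨K, hK, hKb⟩ := norm_unif s η hs hη π c
  obtain ⟨M, hM, hMb⟩ := nef_le_deg π hπ c.ample
  have hN : (0 : ℝ) < c.N := by exact_mod_cast c.N_pos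
  refine ⟨|C₁| + 1 + K * M / δ, by positivity, fun t ht hZ D hD hL => ?_⟩
  obtain ⟨L, hLd⟩ : ∃ L : ℝ, L = W.deg (W.cls c.H) (π.ns D) := ⟨_, rfl⟩
  have hKMδ : 0 < K * M / δ := by positivity
  have h0 : 0 < c.h t := by
    have := abs_nonneg C₁
    linarith
  have h1 := hKb D t
  have h2 := hMb D hD
  rw [← hLd] at h1 h2 hL ⊢
  have h3 := (abs_le.1 h1).1
  have h4 : K * ‖D‖ ≤ δ * (L * c.h t) := by
    calc K * ‖D‖ ≤ K * (M * L) := mul_le_mul_of_nonneg_left h2 hK.le
      _ = δ * (L * (K * M / δ)) := by field_simp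
      _ ≤ δ * (L * c.h t) := by
          refine mul_le_mul_of_nonneg_left (mul_le_mul_of_nonneg_left ?_ hL.le) hδ.le
          have := abs_nonneg C₁
          linarith
  have hsum : ∑ y ∈ c.fib t, (c.mult y : ℝ) = c.N := by exact_mod_cast c.sum_mult t
  have h5 := count_large (c.fib t) (fun y => (c.mult y : ℝ)) (fun y => η D (π.pt y))
    (fun y _ => Nat.cast_nonneg _) (N := c.N) (q := L / c.N * c.h t) (β := β) (γ := δ) (δ := δ)
    hsum (by positivity) hδ.le hβ
    (fun y hy => by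
      have hy' : c.φ y = t := (c.mem_fib _ _).1 hy
      have := hup y (hZ y hy) (by
        rw [hy']
        have := le_abs_self C₁
        linarith) D hD
      rw [hy', ← hLd] at this
      exact this)
    (by
      have h6 : (c.N : ℝ) * (L / c.N * c.h t) = L * c.h t := by field_simp
      rw [h6]
      linarith)
  calc (1 - 2 * δ) * c.N / β = (1 - δ - δ) * c.N / β := by ring
    _ ≤ _ := h5

/-- A sequence between two sequences of growth rate `d`. -/
lemma rate_between {a b : ℕ → ℝ} {d x y : ℝ} (hd : 0 < d) (hx : 0 < x) (hy : 0 < y)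
    (ha : ∀ k, 0 ≤ a k) (hlim : Tendsto (fun k : ℕ => (a k) ^ (1 / (k : ℝ))) atTop (𝓝 d))
    (h1 : ∀ k, x * d ^ k ≤ b k) (h2 : ∀ k, b k ≤ y * a k) :
    Tendsto (fun k : ℕ => (b k) ^ (1 / (k : ℝ))) atTop (𝓝 d) := by
  have hb : ∀ k, 0 ≤ b k := fun k => le_trans (by positivity) (h1 k)
  have hl : Tendsto (fun k : ℕ => (x * d ^ k) ^ (1 / (k : ℝ))) atTop (𝓝 d) := by
    have h3 := (const_rpow_tendsto hx).mul_const d
    rw [one_mul] at h3
    refine h3.congr' ?_
    filter_upwards [eventually_gt_atTop 0] with k hk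
    rw [Real.mul_rpow hx.le (by positivity), ← Real.rpow_natCast, ← Real.rpow_mul hd.le]
    have : (k : ℝ) * (1 / (k : ℝ)) = 1 := by
      have : (k : ℝ) ≠ 0 := by exact_mod_cast hk.ne'
      field_simp
    rw [this, Real.rpow_one]
  have hr : Tendsto (fun k : ℕ => (y * a k) ^ (1 / (k : ℝ))) atTop (𝓝 d) := by
    have := (const_rpow_tendsto hy).mul hlim
    rw [one_mul] at this
    refine this.congr fun k => ?_
    rw [Real.mul_rpow hy.le (ha k)]
  refine tendsto_of_tendsto_of_tendsto_of_le_of_le hl hr (fun k => ?_) (fun k => ?_)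
  · exact Real.rpow_le_rpow (by positivity) (h1 k) (by positivity)
  · exact Real.rpow_le_rpow (hb k) (h2 k) (by positivity)

/-- A finite set of subsets: one of them occurs for arbitrarily large `k`. -/
lemma exists_frequent {ι : Type} (F : Finset ι) (S : ℕ → Finset ι) (hS : ∀ k, S k ⊆ F) :
    ∃ T, (∃ k, S k = T) ∧ ∀ n, ∃ k, n ≤ k ∧ S k = T := by
  classical
  by_contra hcon
  push Not at hcon
  have h1 : ∀ T : Finset ι, ∃ n, ∀ k, n ≤ k → S k ≠ T := by
    intro T
    by_cases h : ∃ k, S k = T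
    · exact hcon T h
    · exact ⟨0, fun k _ hk => h ⟨k, hk⟩⟩
  choose n hn using h1
  have h2 := hn (S (∑ T ∈ F.powerset, n T)) (∑ T ∈ F.powerset, n T)
    (Finset.single_le_sum (f := n) (fun _ _ => Nat.zero_le _) (Finset.mem_powerset.2 (hS _)))
  exact h2 rfl

/-- The arithmetic degree is invariant under the Galois group. -/
lemma arith_smul {V : Variety G} (f : Morphism V V) {A : V.Pic} {u : V.Pt → ℝ}
    (hu : V.IsHeight A u) {d : ℝ} (g : G) {x : V.Pt} (h : IsArithmeticDegree f u x d) :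
    IsArithmeticDegree f u (g • x) d := by
  obtain ⟨v, hv, hinv⟩ := V.galois_height A
  obtain ⟨b, hb⟩ := height_diff V hu hv
  have hit : ∀ (k : ℕ) (y : V.Pt), f.pt^[k] (g • y) = g • f.pt^[k] y := by
    intro k
    induction k with
    | zero => exact fun _ => rfl
    | succ k ih =>
      intro y
      rw [Function.iterate_succ_apply, Function.iterate_succ_apply, f.pt_smul, ih]
  have hb0 : 0 ≤ b := (abs_nonneg _).trans (hb x)
  have hc1 : ∀ y, max 1 (u y) ≤ (1 + b) * max 1 (v y) := by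
    intro y
    have h1 : (1 : ℝ) ≤ max 1 (v y) := le_max_left _ _
    have h2 : v y ≤ max 1 (v y) := le_max_right _ _
    have h3 := (abs_le.1 (hb y)).2
    refine max_le (by nlinarith) ?_
    nlinarith
  have hc2 : ∀ y, max 1 (v y) ≤ (1 + b) * max 1 (u y) := by
    intro y
    have h1 : (1 : ℝ) ≤ max 1 (u y) := le_max_left _ _
    have h2 : u y ≤ max 1 (u y) := le_max_right _ _
    have h3 := (abs_le.1 (hb y)).1
    refine max_le (by nlinarith) ?_
    nlinarith
  have h1 : ∀ k : ℕ, max 1 (u (f.pt^[k] (g • x))) ≤ ((1 + b) * (1 + b)) *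
      max 1 (u (f.pt^[k] x)) := by
    intro k
    have h2 := hc1 (f.pt^[k] (g • x))
    rw [hit, hinv] at h2
    rw [hit]
    calc max 1 (u (g • f.pt^[k] x)) ≤ (1 + b) * max 1 (v (f.pt^[k] x)) := h2
      _ ≤ (1 + b) * ((1 + b) * max 1 (u (f.pt^[k] x))) :=
          mul_le_mul_of_nonneg_left (hc2 _) (by positivity)
      _ = _ := by ring
  have h2 : ∀ k : ℕ, ((1 + b) * (1 + b))⁻¹ * max 1 (u (f.pt^[k] x)) ≤
      max 1 (u (f.pt^[k] (g • x))) := by
    intro k
    rw [inv_mul_le_iff₀ (by positivity)]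
    have h3 := hc2 (f.pt^[k] (g • x))
    rw [hit, hinv] at h3
    rw [hit]
    calc max 1 (u (f.pt^[k] x)) ≤ (1 + b) * max 1 (v (f.pt^[k] x)) := hc1 _
      _ ≤ (1 + b) * ((1 + b) * max 1 (u (g • f.pt^[k] x))) :=
          mul_le_mul_of_nonneg_left h3 (by positivity)
      _ = _ := by ring
  exact rate_of_bounds (x := ((1 + b) * (1 + b))⁻¹) (y := (1 + b) * (1 + b)) (by positivity)
    (by positivity) (fun k => le_trans zero_le_one (le_max_left _ _)) h h2 h1

/-- **The share of the points of a fibre with maximal arithmetic degree.** -/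
theorem share_dyn {V W : Variety G} (s : V.NS →ₗ[ℝ] V.Pic) (η : V.NS →ₗ[ℝ] (V.Pt → ℝ))
    (hs : ∀ D, V.cls (s D) = D) (hη : ∀ D, V.IsHeight (s D) (η D)) (π : Morphism W V)
    (hπ : Function.Surjective π.pt) (c : Cover W) {Z : Set W.Pt} {β C₁ δ : ℝ} (hβ : 0 < β)
    (hδ : 0 < δ) (hupper : UpperBound η π c Z β C₁) (f : Morphism V V) {A : V.Pic}
    {u : V.Pt → ℝ} {d : ℝ} (hA : V.IsAmple A) (hu : V.IsHeight A u) (hd : 1 < d)
    (hdyn : IsDynamicalDegree f A d) :
    ∃ C : ℝ, 0 < C ∧ ∀ t : c.P, C ≤ c.h t → (∀ y ∈ c.fib t, y ∉ Z) →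
      AtLeast c t ((1 - 2 * δ) * c.N / β) (fun w => IsArithmeticDegree f u (π.pt w) d ∧
        ∀ k : ℕ, d ^ k * c.h t ≤ C * u (f.pt^[k] (π.pt w))) := by
  classical
  have hd0 : 0 < d := by linarith
  have hN : (0 : ℝ) < c.N := by exact_mod_cast c.N_pos
  obtain ⟨C₀, hC₀, hmany⟩ := many_nef s η hs hη π hπ c hβ hδ hupper
  obtain ⟨ℓ, c0, B, hc0, hB, hlow, hup, hmain⟩ := along V s η hs hη f hA hu hd hdyn
  obtain ⟨c1, C1, hc1, hC1, hco⟩ := coef_bounds f π hπ c hA hd0 hc0 hB hlow hup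
  obtain ⟨K2, hK2⟩ := height_bound W c.ample c.height_H (π.height_pic _ _ hu)
  obtain ⟨D2, hD2⟩ : ∃ D2 : ℝ, D2 = |K2| + 1 := ⟨_, rfl⟩
  have hD2' : 1 ≤ D2 := by rw [hD2]; linarith [abs_nonneg K2]
  have hcomp : ∀ w, 1 ≤ c.h (c.φ w) → max 1 (u (π.pt w)) ≤ D2 * c.h (c.φ w) := by
    intro w hw
    have h1 : max 1 (c.h (c.φ w)) = c.h (c.φ w) := max_eq_right hw
    refine max_le (by nlinarith) ?_
    have h3 : u (π.pt w) ≤ K2 * max 1 (c.h (c.φ w)) := (le_abs_self _).trans (hK2 w)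
    rw [h1] at h3
    have h4 : K2 ≤ D2 := by rw [hD2]; linarith [le_abs_self K2]
    nlinarith
  have hAn : V.cls A ∈ V.Nef := interior_subset hA
  -- the constants
  obtain ⟨T, hT⟩ : ∃ T : ℝ, T = B * D2 / c1 := ⟨_, rfl⟩
  have hT0 : 0 < T := by rw [hT]; positivity
  obtain ⟨q, hq⟩ : ∃ q : ℝ, q = δ / 2 * c1 / B := ⟨_, rfl⟩
  have hq0 : 0 < q := by rw [hq]; positivity
  refine ⟨C₀ + 1 + (2 * T / δ) ^ 2 + 2 / q, by positivity, fun t ht hZ => ?_⟩
  obtain ⟨h, hh⟩ : ∃ h : ℝ, h = c.h t := ⟨_, rfl⟩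
  rw [← hh] at ht ⊢
  have hsq0 : 0 ≤ (2 * T / δ) ^ 2 := sq_nonneg _
  have hq2 : 0 < 2 / q := by positivity
  have h1 : 1 ≤ h := by linarith
  have h0 : 0 < h := by linarith
  have h2 : (2 * T / δ) ^ 2 ≤ h := by linarith
  have h3 : C₀ ≤ c.h t := by rw [← hh]; linarith
  have h4 : 2 ≤ q * h := by
    have : 2 / q ≤ h := by linarith
    rwa [div_le_iff₀' hq0] at this
  have hcoef : ∀ k, 0 < coef f π c A k := fun k =>
    lt_of_lt_of_le (mul_pos hc1 (gr_pos ℓ hd0 k)) (hco k).1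
  -- the sets of the good points for the single iterates
  obtain ⟨S, hS⟩ : ∃ S : ℕ → Finset W.Pt, S = fun k => {y ∈ c.fib t |
      δ * (coef f π c A k * h) ≤ η ((f.ns ^ k) (V.cls A)) (π.pt y)} := ⟨_, rfl⟩
  have hSw : ∀ k, (1 - 2 * δ) * c.N / β ≤ ∑ y ∈ S k, (c.mult y : ℝ) := by
    intro k
    have h5 := hmany t h3 hZ _ (pow_mem f.nef k hAn) (by
      have := hcoef k
      unfold coef at this
      exact (div_pos_iff_of_pos_right hN).1 this)
    rw [hS, hh]
    exact h5
  have hSlow : ∀ k, ∀ y ∈ S k, δ / 2 * c1 * gr ℓ d k * h ≤ u (f.pt^[k] (π.pt y)) := by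
    intro k y hy
    rw [hS] at hy
    obtain ⟨hy1, hy2⟩ := Finset.mem_filter.1 hy
    have hφ : c.φ y = t := (c.mem_fib _ _).1 hy1
    obtain ⟨_, hu2⟩ := hmain k (π.pt y)
    have h5 := (abs_le.1 hu2).1
    have hx : max 1 (u (π.pt y)) ≤ D2 * h := by
      have := hcomp y (by rw [hφ, ← hh]; exact h1)
      rwa [hφ, ← hh] at this
    have hg := gr_pos ℓ hd0 k
    obtain ⟨m, hm⟩ : ∃ m : ℝ, m = coef f π c A k := ⟨_, rfl⟩
    have hcok := (hco k).1
    have hm0 := hcoef k
    rw [← hm] at hcok hy2 hm0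
    have hgm : gr ℓ d k ≤ m / c1 := by
      rw [le_div_iff₀ hc1]
      linarith
    have h6 : √(max 1 (u (π.pt y))) ≤ D2 * √h := by
      have h7 : √(max 1 (u (π.pt y))) ≤ √(D2 * h) := Real.sqrt_le_sqrt hx
      rw [Real.sqrt_mul (by linarith)] at h7
      have h8 : √D2 ≤ D2 := by
        rw [Real.sqrt_le_left (by linarith)]
        nlinarith
      exact h7.trans (mul_le_mul_of_nonneg_right h8 (Real.sqrt_nonneg _))
    have h7 : B * gr ℓ d k * √(max 1 (u (π.pt y))) ≤ m * (T * √h) := by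
      calc B * gr ℓ d k * √(max 1 (u (π.pt y))) ≤ B * (m / c1) * (D2 * √h) := by
            refine mul_le_mul (mul_le_mul_of_nonneg_left hgm hB.le) h6 (Real.sqrt_nonneg _)
              (by positivity)
        _ = m * (T * √h) := by rw [hT]; ring
    have h8 : T * √h ≤ δ / 2 * h := by
      have h9 : 2 * T / δ ≤ √h := Real.le_sqrt_of_sq_le h2
      have h10 : √h * √h = h := Real.mul_self_sqrt h0.le
      rw [div_le_iff₀ hδ] at h9
      nlinarith [Real.sqrt_nonneg h]
    have h9 : m * (T * √h) ≤ m * (δ / 2 * h) := mul_le_mul_of_nonneg_left h8 hm0.le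
    have h10 : δ / 2 * c1 * gr ℓ d k * h ≤ δ / 2 * m * h := by
      refine mul_le_mul_of_nonneg_right ?_ h0.le
      have : δ / 2 * (c1 * gr ℓ d k) ≤ δ / 2 * m :=
        mul_le_mul_of_nonneg_left hcok (by positivity)
      linarith
    linarith
  obtain ⟨R, ⟨k₀, hk₀⟩, hR⟩ := exists_frequent (c.fib t) S (fun k => by
    rw [hS]
    exact Finset.filter_subset _ _)
  have hRsub : R ⊆ c.fib t := by
    rw [← hk₀, hS]
    exact Finset.filter_subset _ _
  refine ⟨R, hRsub, fun w hw => ?_, ?_⟩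
  · have hφ : c.φ w = t := (c.mem_fib _ _).1 (hRsub hw)
    -- the lower bound for all iterates
    have hall : ∀ k : ℕ, q * (d ^ k * h) ≤ max 1 (u (f.pt^[k] (π.pt w))) := by
      intro k
      obtain ⟨n, hkn, hn⟩ := hR k
      have h5 := hSlow n w (by rw [hn]; exact hw)
      have h6 := (hmain (n - k) (f.pt^[k] (π.pt w))).1
      rw [← Function.iterate_add_apply, Nat.sub_add_cancel hkn] at h6
      have h7 : d ^ k * gr ℓ d (n - k) ≤ gr ℓ d n := by
        unfold gr
        have h8 : d ^ n = d ^ k * d ^ (n - k) := by rw [← pow_add]; congr 1; omega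
        have h9 : (((n - k : ℕ) : ℝ) + 1) ^ ℓ ≤ ((n : ℝ) + 1) ^ ℓ := by
          refine pow_le_pow_left₀ (by positivity) ?_ _
          have : ((n - k : ℕ) : ℝ) ≤ n := by exact_mod_cast Nat.sub_le n k
          linarith
        rw [h8]
        calc d ^ k * ((((n - k : ℕ) : ℝ) + 1) ^ ℓ * d ^ (n - k))
            = (((n - k : ℕ) : ℝ) + 1) ^ ℓ * (d ^ k * d ^ (n - k)) := by ring
          _ ≤ _ := mul_le_mul_of_nonneg_right h9 (by positivity)
      have hg := gr_pos ℓ hd0 (n - k)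
      have h8 : δ / 2 * c1 * (d ^ k * gr ℓ d (n - k)) * h ≤
          B * gr ℓ d (n - k) * max 1 (u (f.pt^[k] (π.pt w))) := by
        refine le_trans ?_ (h5.trans h6)
        refine mul_le_mul_of_nonneg_right ?_ h0.le
        exact mul_le_mul_of_nonneg_left h7 (by positivity)
      have h9 : (B * gr ℓ d (n - k)) * (q * (d ^ k * h)) ≤
          (B * gr ℓ d (n - k)) * max 1 (u (f.pt^[k] (π.pt w))) := by
        refine le_trans (le_of_eq ?_) h8
        rw [hq]
        field_simp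
      exact le_of_mul_le_mul_left h9 (by positivity)
    have hdk : ∀ k : ℕ, 1 ≤ d ^ k := fun k => one_le_pow₀ hd.le
    have hall2 : ∀ k : ℕ, q * (d ^ k * h) ≤ u (f.pt^[k] (π.pt w)) := by
      intro k
      rcases max_cases 1 (u (f.pt^[k] (π.pt w))) with ⟨h5, _⟩ | ⟨h5, _⟩
      · exfalso
        have h6 := hall k
        rw [h5] at h6
        have h7 := hdk k
        nlinarith
      · have := hall k
        rwa [h5] at this
    refine ⟨?_, fun k => ?_⟩
    · unfold IsArithmeticDegree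
      have hdeg : ∀ k, 0 < V.deg (V.cls A) ((f.ns ^ k) (V.cls A)) := fun k =>
        lt_of_lt_of_le (mul_pos hc0 (gr_pos ℓ hd0 k)) (hlow k)
      have hg1 := fun k => gr_one_le ℓ hd k
      refine rate_between (x := q * h) (y := (B * max 1 (u (π.pt w)) + 1) / c0) hd0
        (by positivity) ?_ (fun k => (hdeg k).le) hdyn (fun k => ?_) (fun k => ?_)
      · have : (0 : ℝ) < max 1 (u (π.pt w)) := lt_of_lt_of_le one_pos (le_max_left _ _)
        positivity
      · have := hall k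
        calc q * h * d ^ k = q * (d ^ k * h) := by ring
          _ ≤ _ := this
      · have h5 := (hmain k (π.pt w)).1
        have h6 := hlow k
        have h7 : (0 : ℝ) < max 1 (u (π.pt w)) := lt_of_lt_of_le one_pos (le_max_left _ _)
        have h8 : (B * max 1 (u (π.pt w)) + 1) * gr ℓ d k ≤
            (B * max 1 (u (π.pt w)) + 1) / c0 * V.deg (V.cls A) ((f.ns ^ k) (V.cls A)) := by
          rw [div_mul_eq_mul_div, le_div_iff₀ hc0]
          have : (B * max 1 (u (π.pt w)) + 1) * (c0 * gr ℓ d k) ≤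
              (B * max 1 (u (π.pt w)) + 1) * V.deg (V.cls A) ((f.ns ^ k) (V.cls A)) :=
            mul_le_mul_of_nonneg_left h6 (by positivity)
          linarith
        refine le_trans (max_le ?_ ?_) h8
        · have := hg1 k
          have h9 : 0 ≤ B * max 1 (u (π.pt w)) * gr ℓ d k := by
            have := gr_pos ℓ hd0 k
            positivity
          nlinarith
        · refine h5.trans ?_
          have := gr_pos ℓ hd0 k
          nlinarith
    · have h5 := hall2 k
      have h6 := hdk k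
      have h7 : 0 < u (f.pt^[k] (π.pt w)) := lt_of_lt_of_le (by positivity) h5
      have h8 : d ^ k * h ≤ 2 / q * u (f.pt^[k] (π.pt w)) := by
        rw [div_mul_eq_mul_div, le_div_iff₀ hq0]
        linarith
      refine h8.trans (mul_le_mul_of_nonneg_right ?_ h7.le)
      linarith
  · rw [← hk₀]
    exact hSw k₀

end Pool.Agent.Q8.KS
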