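import Mathlib
import Pool.Agent.Q8.KS.Share2

/-!
The share of the points of a fibre with maximal arithmetic degree: the universal bound `N / m` off
a closed subset, and a uniform bound for all fibres.
-/

set_option autoImplicit false

open Filter Topology

namespace Pool.Agent.Q8.KS

variable {G : Type} [Group G]

/-- The upper bound from Siu's criterion. -/
theorem upper_siu {V W : Variety G} (E : Effective W) (s : V.NS →ₗ[ℝ] V.Pic)
    (η : V.NS →ₗ[ℝ] (V.Pt → ℝ)) (hs : ∀ D, V.cls (s D) = D) (hη : ∀ D, V.IsHeight (s D) (η D))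
    (π : Morphism W V) (hπ : Function.Surjective π.pt) (c : Cover W) {ε : ℝ} (hε : 0 < ε) :
    ∃ Z ∈ E.closed, ∃ C : ℝ, UpperBound η π c Z ((W.dimPred : ℝ) + 1 + ε) C := by
  have hN : (0 : ℝ) < c.N := by exact_mod_cast c.N_pos
  obtain ⟨Z, hZ, b, hb, h⟩ := big_upper E s η hs hη π hπ c.ample c.height_H
    (by rw [c.deg_H]; exact hN) (ε := ε / 2) (by positivity)
  refine ⟨Z, hZ, 1 + 2 * b * c.N / ε, fun y hy hC D hD => ?_⟩
  have h1 := h D hD y hy
  rw [c.deg_H] at h1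
  obtain ⟨x, hx⟩ : ∃ x : ℝ, x = c.h (c.φ y) := ⟨_, rfl⟩
  have h2 : (c.h ∘ c.φ) y = x := hx.symm
  rw [h2] at h1
  rw [← hx] at hC ⊢
  have h3 : 0 ≤ 2 * b * c.N / ε := by positivity
  have hx1 : 1 ≤ x := by linarith
  rw [max_eq_right hx1] at h1
  have hL : 0 ≤ W.deg (W.cls c.H) (π.ns D) := by
    by_cases h0 : π.ns D = 0
    · rw [h0, map_zero]
    · exact (W.int_pos _ c.ample _ (π.nef D hD) h0).le
  have h4 : b ≤ ε / 2 / c.N * x := by
    have h5 : 2 * b * c.N / ε ≤ x := by linarith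
    rw [div_le_iff₀ hε] at h5
    rw [div_mul_eq_mul_div, le_div_iff₀ hN]
    linarith
  calc η D (π.pt y) ≤ W.deg (W.cls c.H) (π.ns D) *
        (((W.dimPred : ℝ) + 1 + ε / 2) / c.N * x + b) := h1
    _ ≤ W.deg (W.cls c.H) (π.ns D) *
        (((W.dimPred : ℝ) + 1 + ε / 2) / c.N * x + ε / 2 / c.N * x) :=
        mul_le_mul_of_nonneg_left (by linarith) hL
    _ = ((W.dimPred : ℝ) + 1 + ε) * (W.deg (W.cls c.H) (π.ns D) / c.N * x) := by
        field_simp
        ring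

/-- The upper bound for all points, uniformly in the covering. -/
theorem upper_unif {V W : Variety G} (s : V.NS →ₗ[ℝ] V.Pic)
    (η : V.NS →ₗ[ℝ] (V.Pt → ℝ)) (hη : ∀ D, V.IsHeight (s D) (η D))
    (π : Morphism W V) (hπ : Function.Surjective π.pt) {H₀ : W.Pic} (hH₀ : W.IsAmple H₀) :
    ∃ β : ℝ, 0 < β ∧ ∀ c : Cover W, (∃ t : ℝ, 0 < t ∧ W.cls c.H = t • W.cls H₀) →
      ∃ C : ℝ, UpperBound η π c ∅ β C := by
  obtain ⟨u₀, hu₀⟩ := Submodule.mkQ_surjective (bdd W.Pt) (W.height H₀)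
  have hu0 : W.IsHeight H₀ u₀ := hu₀.symm
  obtain ⟨K, hK, hKb⟩ := lift_bound V s η hη W π hH₀ hu0
  obtain ⟨M, hM, hMb⟩ := nef_le_deg π hπ hH₀
  obtain ⟨v₀, hv₀⟩ : ∃ v₀ : ℝ, v₀ = W.deg (W.cls H₀) (W.cls H₀) := ⟨_, rfl⟩
  refine ⟨3 * K * M * (|v₀| + 1), by positivity, ?_⟩
  rintro c ⟨t, ht, hct⟩
  have hN : (0 : ℝ) < c.N := by exact_mod_cast c.N_pos
  have hNt : (c.N : ℝ) = t ^ W.dimPred * t * v₀ := by
    rw [← c.deg_H, hct, deg_smul, map_smul, smul_eq_mul, hv₀]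
    ring
  have htn : 0 < t ^ W.dimPred := pow_pos ht _
  have hv0 : 0 < v₀ := by
    have h1 : 0 < t ^ W.dimPred * t * v₀ := by rw [← hNt]; exact hN
    exact pos_of_mul_pos_right h1 (by positivity)
  have hcmp : W.cls ((2 : ℝ) • c.H - t • H₀) ∈ interior W.Nef := by
    have h1 : W.cls ((2 : ℝ) • c.H - t • H₀) = t • W.cls H₀ := by
      rw [map_sub, map_smul, map_smul, hct, two_smul]
      abel
    rw [h1]
    exact ample_smul W.nef_cone hH₀ ht
  obtain ⟨c2, hc2⟩ := W.ample_height _ hcmp _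
    (height_sub W (height_smul W 2 c.height_H) (height_smul W t hu0))
  refine ⟨|c2| + t, fun y _ hC D hD => ?_⟩
  obtain ⟨h, hh⟩ : ∃ h : ℝ, h = c.h (c.φ y) := ⟨_, rfl⟩
  rw [← hh] at hC ⊢
  have hab := abs_nonneg c2
  have hh0 : 0 < h := by linarith
  obtain ⟨L, hL⟩ : ∃ L : ℝ, L = W.deg (W.cls H₀) (π.ns D) := ⟨_, rfl⟩
  have hDL : ‖D‖ ≤ M * L := by rw [hL]; exact hMb D hD
  have hL0 : 0 ≤ L := nonneg_of_mul_nonneg_right ((norm_nonneg D).trans hDL) hM
  have hdegc : W.deg (W.cls c.H) (π.ns D) = t ^ W.dimPred * L := by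
    rw [hct, deg_smul, hL]
  have h5 := (le_abs_self _).trans (hKb D y)
  have h6 : max 1 (u₀ y) ≤ 3 * h / t := by
    rw [le_div_iff₀ ht]
    have h7 := hc2 y
    simp only [Pi.sub_apply, Pi.smul_apply, smul_eq_mul, Function.comp_apply] at h7
    rw [← hh] at h7
    have h8 := neg_abs_le c2
    rcases max_cases 1 (u₀ y) with ⟨h9, _⟩ | ⟨h9, _⟩
    · rw [h9]
      linarith
    · rw [h9]
      linarith
  have h9 : (0 : ℝ) ≤ max 1 (u₀ y) := le_trans zero_le_one (le_max_left _ _)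
  rw [hdegc]
  calc η D (π.pt y) ≤ K * ‖D‖ * max 1 (u₀ y) := h5
    _ ≤ K * (M * L) * max 1 (u₀ y) :=
        mul_le_mul_of_nonneg_right (mul_le_mul_of_nonneg_left hDL hK.le) h9
    _ ≤ K * (M * L) * (3 * h / t) := mul_le_mul_of_nonneg_left h6 (by positivity)
    _ = 3 * K * M * v₀ * (t ^ W.dimPred * L / (t ^ W.dimPred * t * v₀) * h) := by
        field_simp
    _ = 3 * K * M * v₀ * (t ^ W.dimPred * L / c.N * h) := by rw [hNt]
    _ ≤ 3 * K * M * (|v₀| + 1) * (t ^ W.dimPred * L / c.N * h) := by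
        refine mul_le_mul_of_nonneg_right (mul_le_mul_of_nonneg_left ?_ (by positivity))
          (by positivity)
        linarith [le_abs_self v₀]

/-- Rounding. -/
lemma round_up {N m n : ℕ} (hN : 0 < N)
    (h : (1 - 2 * (1 / (8 * (N : ℝ)))) * N / ((m : ℝ) + 1 + ((m : ℝ) + 1) / (8 * N)) ≤ n) :
    (N : ℝ) / ((m : ℝ) + 1) ≤ n := by
  have hN0 : (0 : ℝ) < N := by exact_mod_cast hN
  have hN1 : (1 : ℝ) ≤ N := by exact_mod_cast hN
  have hm : (0 : ℝ) < (m : ℝ) + 1 := by positivity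
  rw [div_le_iff₀ (by positivity)] at h
  have h1 : (1 - 2 * (1 / (8 * (N : ℝ)))) * N = N - 1 / 4 := by
    field_simp
    ring
  have h2 : (n : ℝ) * ((m : ℝ) + 1 + ((m : ℝ) + 1) / (8 * N))
      = (n * ((m : ℝ) + 1)) * (1 + 1 / (8 * N)) := by
    field_simp
  rw [h1, h2] at h
  rw [div_le_iff₀ hm]
  by_contra hlt
  have h3 : n * (m + 1) < N := by
    have : (n : ℝ) * ((m : ℝ) + 1) < N := not_le.1 hlt
    exact_mod_cast this
  have h4 : n * (m + 1) + 1 ≤ N := h3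
  have h5 : (n : ℝ) * ((m : ℝ) + 1) + 1 ≤ N := by exact_mod_cast h4
  have h6 : (n * ((m : ℝ) + 1)) * (1 + 1 / (8 * N)) ≤ (N - 1) * (1 + 1 / (8 * N)) :=
    mul_le_mul_of_nonneg_right (by linarith) (by positivity)
  have h7 : ((N : ℝ) - 1) * (1 + 1 / (8 * N)) = N - 1 + 1 / 8 - 1 / (8 * N) := by
    field_simp
    ring
  have h8 : 0 < 1 / (8 * (N : ℝ)) := by positivity
  linarith

/-- From a share of the fibre to the points of large relative degree. -/
lemma rel_of_share {W : Variety G} (c : Cover W) (P : W.Pt → Prop)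
    (hP : ∀ (g : G) (w : W.Pt), P w → P (g • w)) {w : W.Pt} {p : ℝ}
    (h : AtLeast c (c.φ w) p P) (hw : (c.N : ℝ) - p < c.relDeg w) : P w := by
  classical
  obtain ⟨S, hS, hSP, hp⟩ := h
  by_contra hcon
  have hdisj : Disjoint (conj c w) S := by
    rw [Finset.disjoint_left]
    intro y hy hyS
    obtain ⟨g, hg⟩ := MulAction.mem_orbit_iff.1 ((mem_conj c w y).1 hy).2
    have h1 := hP g⁻¹ y (hSP y hyS)
    rw [← hg, inv_smul_smul] at h1
    exact hcon h1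
  have h1 : ∑ y ∈ conj c w, (c.mult y : ℝ) + ∑ y ∈ S, (c.mult y : ℝ) ≤ c.N := by
    rw [← Finset.sum_union hdisj]
    have h2 : ∑ y ∈ c.fib (c.φ w), (c.mult y : ℝ) = c.N := by exact_mod_cast c.sum_mult _
    rw [← h2]
    exact Finset.sum_le_sum_of_subset_of_nonneg (Finset.union_subset (conj_sub c w) hS)
      fun y _ _ => Nat.cast_nonneg _
  have h2 := card_le_mult c w
  linarith

end Pool.Agent.Q8.KS
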