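import Mathlib
import Pool.Agent.Q8.KS.Core6

set_option autoImplicit false

open Filter Topology

namespace Pool.Agent.Q8.KS

variable {G : Type} [Group G]

/-- The times `k` at which the orbit of the point `(x₁, x₂)` of `V₁ × V₂` under the split map
`(g₁, g₂)` meets the image of `Z → V₁ × V₂`. -/
def returnSet {V₁ V₂ Z : Variety G} (q₁ : Morphism Z V₁) (q₂ : Morphism Z V₂)
    (g₁ : V₁.Pt → V₁.Pt) (g₂ : V₂.Pt → V₂.Pt) (x₁ : V₁.Pt) (x₂ : V₂.Pt) : Set ℕ :=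
  {k | ∃ z : Z.Pt, q₁.pt z = g₁^[k] x₁ ∧ q₂.pt z = g₂^[k] x₂}

lemma northcott_max {W : Variety G} (φ : Cover W) (e : ℕ) (C : ℝ) :
    {w : W.Pt | (MulAction.orbit G (φ.φ w)).ncard ≤ e ∧ φ.h (φ.φ w) ≤ C}.Finite := by
  have h1 := φ.northcott e C
  have h2 : (⋃ t ∈ {t : φ.P | (MulAction.orbit G t).ncard ≤ e ∧ φ.h t ≤ C},
      (φ.fib t : Set W.Pt)).Finite := h1.biUnion fun t _ => (φ.fib t).finite_toSet
  refine h2.subset ?_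
  rintro w hw
  exact Set.mem_biUnion (x := φ.φ w) hw (by rw [Finset.mem_coe, φ.mem_fib])

/-- the key inequality at a return -/
lemma key_split {V₁ V₂ Z : Variety G} (q₁ : Morphism Z V₁) (q₂ : Morphism Z V₂) {A₁ : V₁.Pic}
    {u₁ : V₁.Pt → ℝ} (hu₁ : V₁.IsHeight A₁ u₁) (hq : Z.IsAmple (q₁.pic A₁))
    {A₂ : V₂.Pic} {u₂ : V₂.Pt → ℝ} (hu₂ : V₂.IsHeight A₂ u₂) :
    ∃ K : ℝ, 0 < K ∧ ∀ (g₁ : V₁.Pt → V₁.Pt) (g₂ : V₂.Pt → V₂.Pt) (x₁ : V₁.Pt) (x₂ : V₂.Pt),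
      ∀ k ∈ returnSet q₁ q₂ g₁ g₂ x₁ x₂, u₂ (g₂^[k] x₂) ≤ K * max 1 (u₁ (g₁^[k] x₁)) := by
  obtain ⟨K, hK⟩ := height_bound Z hq (q₁.height_pic _ _ hu₁) (q₂.height_pic _ _ hu₂)
  refine ⟨|K| + 1, by positivity, ?_⟩
  rintro g₁ g₂ x₁ x₂ k ⟨z, h1, h2⟩
  have h3 := hK z
  simp only [Function.comp_apply] at h3
  rw [h1, h2] at h3
  refine (le_abs_self _).trans (h3.trans ?_)
  refine mul_le_mul_of_nonneg_right ?_ (by positivity)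
  have := le_abs_self K
  linarith

/-- **Split maps.** -/
theorem split_maps {V₂ W : Variety G} (π : Morphism W V₂) (hπ : Function.Surjective π.pt)
    {H₀ : W.Pic} (hH₀ : W.IsAmple H₀) :
    ∃ κ : ℝ, 0 < κ ∧ ∀ (f₂ : Morphism V₂ V₂) (A₂ : V₂.Pic) (d₂ : ℝ), V₂.IsAmple A₂ → 1 < d₂ →
      IsDynamicalDegree f₂ A₂ d₂ →
      ∀ φ : Cover W, (∃ t : ℝ, 0 < t ∧ W.cls φ.H = t • W.cls H₀) →
      ∀ (V₁ Z : Variety G) (q₁ : Morphism Z V₁) (q₂ : Morphism Z V₂) (A₁ : V₁.Pic)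
        (u₁ : V₁.Pt → ℝ), V₁.IsAmple A₁ → V₁.IsHeight A₁ u₁ → Z.IsAmple (q₁.pic A₁) →
      (∀ (F₁ : RationalSelfMap V₁) (ρ : ℝ), 1 ≤ ρ → ρ ≤ d₂ → ρ * F₁.δ < d₂ → ∃ C : ℝ, 0 < C ∧
        ∀ x₁ ∈ F₁.dom, ∀ w : W.Pt, (1 - κ) * φ.N < φ.relDeg w → C ≤ φ.h (φ.φ w) →
          ∀ k ∈ returnSet q₁ q₂ F₁.pt f₂.pt x₁ (π.pt w),
            ρ ^ k * φ.h (φ.φ w) ≤ C * max 1 (u₁ x₁)) ∧
      ∀ (f₁ : Morphism V₁ V₁) (d₁ : ℝ), 1 < d₁ → IsDynamicalDegree f₁ A₁ d₁ → ∃ C : ℝ, 0 < C ∧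
        ∀ (x₁ : V₁.Pt) (w : W.Pt), (1 - κ) * φ.N < φ.relDeg w → C ≤ φ.h (φ.φ w) →
          ∀ k ∈ returnSet q₁ q₂ f₁.pt f₂.pt x₁ (π.pt w),
            V₂.deg (V₂.cls A₂) ((f₂.ns ^ k) (V₂.cls A₂)) * φ.h (φ.φ w) ≤
              C * (V₁.deg (V₁.cls A₁) ((f₁.ns ^ k) (V₁.cls A₁)) * max 1 (u₁ x₁)) := by
  obtain ⟨κ, hκ, hall⟩ := finiteness π hπ hH₀
  refine ⟨κ, hκ, ?_⟩
  intro f₂ A₂ d₂ hA₂ hd₂ hdyn₂ φ hφ V₁ Z q₁ q₂ A₁ u₁ hA₁ hu₁ hq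
  obtain ⟨u₂, hu₂'⟩ := Submodule.mkQ_surjective (bdd V₂.Pt) (V₂.height A₂)
  have hu₂ : V₂.IsHeight A₂ u₂ := hu₂'.symm
  obtain ⟨C, hC, hb, _⟩ := hall f₂ A₂ u₂ d₂ hA₂ hu₂ hd₂ hdyn₂ φ hφ
  obtain ⟨K, hK, hkey⟩ := key_split q₁ q₂ hu₁ hq hu₂
  have hd0 : 0 < d₂ := by linarith
  obtain ⟨s, η, hs, hη, hinv⟩ := exists_lift V₂
  obtain ⟨ℓ, c0, B0, hc0, hB0, hlow, hup, hmain⟩ := along V₂ s η hs hη f₂ hA₂ hu₂ hd₂ hdyn₂
  have hgr : ∀ k, d₂ ^ k ≤ gr ℓ d₂ k := fun k => by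
    unfold gr
    refine le_mul_of_one_le_left (by positivity) (one_le_pow₀ ?_)
    have : (0 : ℝ) ≤ k := Nat.cast_nonneg k
    linarith
  refine ⟨?_, ?_⟩
  · intro F₁ ρ hρ hρd hρδ
    have hρ0 : 0 < ρ := by linarith
    obtain ⟨r, hr1⟩ : ∃ r, r = d₂ / ρ := ⟨_, rfl⟩
    have hr : F₁.δ < r := by
      rw [hr1, lt_div_iff₀ hρ0]
      linarith
    have hr0 : 1 ≤ r := by
      rw [hr1, le_div_iff₀ hρ0]
      linarith
    have hrd : r * ρ = d₂ := by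
      rw [hr1]
      field_simp
    obtain ⟨M, hM⟩ := F₁.upper A₁ u₁ hA₁ hu₁ (r - F₁.δ) (by linarith)
    have e1 : F₁.δ + (r - F₁.δ) = r := by ring
    rw [e1] at hM
    obtain ⟨Q, hQ⟩ : ∃ Q : ℝ, Q = C * (K * (|M| + 1)) / c0 := ⟨_, rfl⟩
    have hQ0 : 0 < Q := by rw [hQ]; positivity
    refine ⟨C + Q, by positivity, ?_⟩
    intro x₁ hx₁ w hw hh k hk
    have hC1 : C ≤ φ.h (φ.φ w) := by linarith
    have h1 := ((hb w hw hC1).2 k).1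
    have h2 := hkey _ _ _ _ k hk
    have hm : 1 ≤ max 1 (u₁ x₁) := le_max_left _ _
    have hrk : 1 ≤ r ^ k := one_le_pow₀ hr0
    have h3 : max 1 (u₁ (F₁.pt^[k] x₁)) ≤ (|M| + 1) * (r ^ k * max 1 (u₁ x₁)) := by
      refine max_le ?_ ?_
      · have : 1 ≤ r ^ k * max 1 (u₁ x₁) := one_le_mul_of_one_le_of_one_le hrk hm
        have h4 : 0 ≤ |M| := abs_nonneg M
        nlinarith
      · refine (hM x₁ hx₁ k).trans ?_
        rw [mul_assoc]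
        refine mul_le_mul_of_nonneg_right ?_ (by positivity)
        have := le_abs_self M
        linarith
    have hh0 : 0 < φ.h (φ.φ w) := by linarith
    have h5 : c0 * d₂ ^ k * φ.h (φ.φ w) ≤ C * (K * ((|M| + 1) * (r ^ k * max 1 (u₁ x₁)))) := by
      calc c0 * d₂ ^ k * φ.h (φ.φ w)
          ≤ V₂.deg (V₂.cls A₂) ((f₂.ns ^ k) (V₂.cls A₂)) * φ.h (φ.φ w) := by
            refine mul_le_mul_of_nonneg_right ?_ hh0.le
            exact (mul_le_mul_of_nonneg_left (hgr k) hc0.le).trans (hlow k)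
        _ ≤ C * u₂ (f₂.pt^[k] (π.pt w)) := h1
        _ ≤ C * (K * max 1 (u₁ (F₁.pt^[k] x₁))) := mul_le_mul_of_nonneg_left h2 hC.le
        _ ≤ _ := by
            refine mul_le_mul_of_nonneg_left ?_ hC.le
            exact mul_le_mul_of_nonneg_left h3 hK.le
    rw [← hrd, mul_pow] at h5
    have h6 : ρ ^ k * φ.h (φ.φ w) ≤ Q * max 1 (u₁ x₁) := by
      have h7 : r ^ k * (ρ ^ k * φ.h (φ.φ w)) ≤ r ^ k * (Q * max 1 (u₁ x₁)) := by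
        rw [hQ]
        have h8 : c0 * (r ^ k * ρ ^ k) * φ.h (φ.φ w) = c0 * (r ^ k * (ρ ^ k * φ.h (φ.φ w))) := by
          ring
        rw [h8] at h5
        have h9 : C * (K * ((|M| + 1) * (r ^ k * max 1 (u₁ x₁)))) =
            c0 * (r ^ k * (C * (K * (|M| + 1)) / c0 * max 1 (u₁ x₁))) := by
          field_simp
        rw [h9] at h5
        exact le_of_mul_le_mul_left h5 hc0
      exact le_of_mul_le_mul_left h7 (by positivity)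
    refine h6.trans (mul_le_mul_of_nonneg_right ?_ (by positivity))
    linarith
  · intro f₁ d₁ hd₁ hdyn₁
    obtain ⟨s1, η1, hs1, hη1, hinv1⟩ := exists_lift V₁
    obtain ⟨ℓ1, c1, B1, hc1, hB1, hlow1, hup1, hmain1⟩ :=
      along V₁ s1 η1 hs1 hη1 f₁ hA₁ hu₁ hd₁ hdyn₁
    obtain ⟨Q, hQ⟩ : ∃ Q : ℝ, Q = C * (K * ((B1 + 1) / c1)) := ⟨_, rfl⟩
    have hQ0 : 0 < Q := by rw [hQ]; positivity
    refine ⟨C + Q, by positivity, ?_⟩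
    intro x₁ w hw hh k hk
    have hC1 : C ≤ φ.h (φ.φ w) := by linarith
    have h1 := ((hb w hw hC1).2 k).1
    have h2 := hkey _ _ _ _ k hk
    have hm : 1 ≤ max 1 (u₁ x₁) := le_max_left _ _
    have hg1 := gr_one_le ℓ1 hd₁ k
    obtain ⟨D1, hD1⟩ : ∃ D1, D1 = V₁.deg (V₁.cls A₁) ((f₁.ns ^ k) (V₁.cls A₁)) := ⟨_, rfl⟩
    have hl := hlow1 k
    rw [← hD1] at hl
    have h3 : max 1 (u₁ (f₁.pt^[k] x₁)) ≤ (B1 + 1) / c1 * (D1 * max 1 (u₁ x₁)) := by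
      have h4 : gr ℓ1 d₁ k ≤ D1 / c1 := by
        rw [le_div_iff₀ hc1]
        linarith
      have h5 : (B1 + 1) * (gr ℓ1 d₁ k * max 1 (u₁ x₁)) ≤
          (B1 + 1) * (D1 / c1 * max 1 (u₁ x₁)) := by
        refine mul_le_mul_of_nonneg_left ?_ (by positivity)
        exact mul_le_mul_of_nonneg_right h4 (by positivity)
      have h6 : (B1 + 1) * (D1 / c1 * max 1 (u₁ x₁)) = (B1 + 1) / c1 * (D1 * max 1 (u₁ x₁)) := by
        ring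
      rw [← h6]
      refine le_trans ?_ h5
      have h7 : 1 ≤ gr ℓ1 d₁ k * max 1 (u₁ x₁) := one_le_mul_of_one_le_of_one_le hg1 hm
      refine max_le (by nlinarith) ?_
      refine ((hmain1 k x₁).1).trans ?_
      rw [mul_assoc]
      refine mul_le_mul_of_nonneg_right (by linarith) (by linarith)
    rw [← hD1]
    calc V₂.deg (V₂.cls A₂) ((f₂.ns ^ k) (V₂.cls A₂)) * φ.h (φ.φ w)
        ≤ C * u₂ (f₂.pt^[k] (π.pt w)) := h1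
      _ ≤ C * (K * max 1 (u₁ (f₁.pt^[k] x₁))) := mul_le_mul_of_nonneg_left h2 hC.le
      _ ≤ C * (K * ((B1 + 1) / c1 * (D1 * max 1 (u₁ x₁)))) := by
          refine mul_le_mul_of_nonneg_left ?_ hC.le
          exact mul_le_mul_of_nonneg_left h3 hK.le
      _ = Q * (D1 * max 1 (u₁ x₁)) := by rw [hQ]; ring
      _ ≤ (C + Q) * (D1 * max 1 (u₁ x₁)) := by
          refine mul_le_mul_of_nonneg_right (by linarith) ?_
          have : 0 < D1 := lt_of_lt_of_le (mul_pos hc1 (by linarith)) hl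
          positivity

lemma pow_bounded {ρ y : ℝ} (hρ : 1 < ρ) : {k : ℕ | ρ ^ k ≤ y}.Finite := by
  obtain ⟨n, hn⟩ := pow_unbounded_of_one_lt y hρ
  refine (Set.finite_Iio n).subset ?_
  intro k hk
  by_contra h
  have h1 : n ≤ k := by
    simpa using h
  have h2 : ρ ^ n ≤ ρ ^ k := pow_le_pow_right₀ hρ.le h1
  have h3 : ρ ^ k ≤ y := hk
  linarith

lemma exists_ratio {δ d : ℝ} (hd : 1 < d) (hδ : δ < d) : ∃ ρ : ℝ, 1 < ρ ∧ ρ ≤ d ∧ ρ * δ < d := by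
  rcases le_or_gt δ 1 with h | h
  · refine ⟨(1 + d) / 2, by linarith, by linarith, ?_⟩
    rcases le_or_gt δ 0 with h0 | h0
    · have : (1 + d) / 2 * δ ≤ 0 := mul_nonpos_of_nonneg_of_nonpos (by linarith) h0
      linarith
    · nlinarith
  · refine ⟨(1 + d / δ) / 2, ?_, ?_, ?_⟩
    · have : 1 < d / δ := by
        rw [lt_div_iff₀ (by linarith)]
        linarith
      linarith
    · have : d / δ ≤ d := by
        rw [div_le_iff₀ (by linarith)]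
        nlinarith
      linarith
    · have : (1 + d / δ) / 2 * δ = (δ + d) / 2 := by
        field_simp
      rw [this]
      linarith

/-- **Finiteness of return sets of split maps.** -/
theorem split_returns {V₂ W : Variety G} (π : Morphism W V₂) (hπ : Function.Surjective π.pt)
    {H₀ : W.Pic} (hH₀ : W.IsAmple H₀) :
    ∃ κ : ℝ, 0 < κ ∧ ∀ (f₂ : Morphism V₂ V₂) (A₂ : V₂.Pic) (d₂ : ℝ), V₂.IsAmple A₂ → 1 < d₂ →
      IsDynamicalDegree f₂ A₂ d₂ →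
      ∀ φ : Cover W, (∃ t : ℝ, 0 < t ∧ W.cls φ.H = t • W.cls H₀) →
      ∀ (V₁ Z : Variety G) (q₁ : Morphism Z V₁) (q₂ : Morphism Z V₂) (A₁ : V₁.Pic)
        (u₁ : V₁.Pt → ℝ), V₁.IsAmple A₁ → V₁.IsHeight A₁ u₁ → Z.IsAmple (q₁.pic A₁) →
      (∀ F₁ : RationalSelfMap V₁, F₁.δ < d₂ → ∃ C ρ : ℝ, 0 < C ∧ 1 < ρ ∧ ∀ x₁ ∈ F₁.dom,
        (∀ w : W.Pt, (1 - κ) * φ.N < φ.relDeg w → C ≤ φ.h (φ.φ w) →
          (returnSet q₁ q₂ F₁.pt f₂.pt x₁ (π.pt w)).Finite ∧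
          ∀ k ∈ returnSet q₁ q₂ F₁.pt f₂.pt x₁ (π.pt w),
            ρ ^ k * φ.h (φ.φ w) ≤ C * max 1 (u₁ x₁)) ∧
        ∀ e : ℕ, {w : W.Pt | ((1 - κ) * φ.N < φ.relDeg w ∧
          (MulAction.orbit G (φ.φ w)).ncard ≤ e) ∧
            (returnSet q₁ q₂ F₁.pt f₂.pt x₁ (π.pt w)).Nonempty}.Finite) ∧
      ∀ (f₁ : Morphism V₁ V₁) (d₁ B : ℝ), 1 < d₁ → IsDynamicalDegree f₁ A₁ d₁ →
        (∀ k, V₁.deg (V₁.cls A₁) ((f₁.ns ^ k) (V₁.cls A₁)) ≤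
          B * V₂.deg (V₂.cls A₂) ((f₂.ns ^ k) (V₂.cls A₂))) → ∃ C : ℝ, 0 < C ∧ ∀ x₁ : V₁.Pt,
        (∀ w : W.Pt, (1 - κ) * φ.N < φ.relDeg w → C * max 1 (u₁ x₁) ≤ φ.h (φ.φ w) →
          returnSet q₁ q₂ f₁.pt f₂.pt x₁ (π.pt w) = ∅) ∧
        ∀ e : ℕ, {w : W.Pt | ((1 - κ) * φ.N < φ.relDeg w ∧
          (MulAction.orbit G (φ.φ w)).ncard ≤ e) ∧
            (returnSet q₁ q₂ f₁.pt f₂.pt x₁ (π.pt w)).Nonempty}.Finite := by
  obtain ⟨κ, hκ, hall⟩ := split_maps π hπ hH₀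
  refine ⟨κ, hκ, ?_⟩
  intro f₂ A₂ d₂ hA₂ hd₂ hdyn₂ φ hφ V₁ Z q₁ q₂ A₁ u₁ hA₁ hu₁ hq
  obtain ⟨ha, hb⟩ := hall f₂ A₂ d₂ hA₂ hd₂ hdyn₂ φ hφ V₁ Z q₁ q₂ A₁ u₁ hA₁ hu₁ hq
  refine ⟨?_, ?_⟩
  · intro F₁ hF₁
    obtain ⟨ρ, h1, h2, h3⟩ := exists_ratio hd₂ hF₁
    obtain ⟨C, hC, hCC⟩ := ha F₁ ρ h1.le h2 h3
    refine ⟨C, ρ, hC, h1, fun x₁ hx₁ => ⟨fun w hw hh => ⟨?_, hCC x₁ hx₁ w hw hh⟩, fun e => ?_⟩⟩
    · have hh0 : 0 < φ.h (φ.φ w) := by linarith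
      refine (pow_bounded (y := C * max 1 (u₁ x₁) / φ.h (φ.φ w)) h1).subset ?_
      intro k hk
      have := hCC x₁ hx₁ w hw hh k hk
      show ρ ^ k ≤ _
      rw [le_div_iff₀ hh0]
      exact this
    · refine (northcott_max φ e (C * max 1 (u₁ x₁))).subset ?_
      rintro w ⟨⟨hw, he⟩, k, hk⟩
      refine ⟨he, ?_⟩
      by_contra hlt
      push Not at hlt
      have hm : 1 ≤ max 1 (u₁ x₁) := le_max_left _ _
      have hh : C ≤ φ.h (φ.φ w) := by nlinarith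
      have := hCC x₁ hx₁ w hw hh k hk
      have h5 : 1 ≤ ρ ^ k := one_le_pow₀ h1.le
      have hh0 : 0 < φ.h (φ.φ w) := by linarith
      nlinarith
  · intro f₁ d₁ B hd₁ hdyn₁ hB
    obtain ⟨C, hC, hCC⟩ := hb f₁ d₁ hd₁ hdyn₁
    have hm : ∀ x₁, 1 ≤ max 1 (u₁ x₁) := fun x₁ => le_max_left _ _
    have hdeg : ∀ k, 0 < V₂.deg (V₂.cls A₂) ((f₂.ns ^ k) (V₂.cls A₂)) := by
      obtain ⟨u₂, hu₂'⟩ := Submodule.mkQ_surjective (bdd V₂.Pt) (V₂.height A₂)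
      obtain ⟨s, η, hs, hη, hinv⟩ := exists_lift V₂
      obtain ⟨ℓ, c0, B0, hc0, hB0, hlow, hup, hmain⟩ :=
        along V₂ s η hs hη f₂ hA₂ hu₂'.symm hd₂ hdyn₂
      exact fun k => lt_of_lt_of_le (mul_pos hc0 (gr_pos ℓ (by linarith) k)) (hlow k)
    obtain ⟨Q, hQ⟩ : ∃ Q : ℝ, Q = C * (|B| + 1) + C + 1 := ⟨_, rfl⟩
    have hQ0 : 0 < Q := by rw [hQ]; positivity
    have hmain : ∀ (x₁ : V₁.Pt) (w : W.Pt), (1 - κ) * φ.N < φ.relDeg w →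
        Q * max 1 (u₁ x₁) ≤ φ.h (φ.φ w) → returnSet q₁ q₂ f₁.pt f₂.pt x₁ (π.pt w) = ∅ := by
      intro x₁ w hw hh
      rw [Set.eq_empty_iff_forall_notMem]
      intro k hk
      have h1 := hm x₁
      have hCh : C ≤ φ.h (φ.φ w) := by
        have h2 : 0 ≤ C * (|B| + 1) := by positivity
        nlinarith
      have h3 := hCC x₁ w hw hCh k hk
      obtain ⟨D2, hD2⟩ : ∃ D2, D2 = V₂.deg (V₂.cls A₂) ((f₂.ns ^ k) (V₂.cls A₂)) := ⟨_, rfl⟩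
      have hd := hdeg k
      have hBk := hB k
      rw [← hD2] at h3 hd hBk
      have h4 : V₁.deg (V₁.cls A₁) ((f₁.ns ^ k) (V₁.cls A₁)) ≤ (|B| + 1) * D2 := by
        refine hBk.trans (mul_le_mul_of_nonneg_right ?_ hd.le)
        have := le_abs_self B
        linarith
      have h5 : D2 * φ.h (φ.φ w) ≤ D2 * (C * (|B| + 1) * max 1 (u₁ x₁)) := by
        refine h3.trans ?_
        calc C * (V₁.deg (V₁.cls A₁) ((f₁.ns ^ k) (V₁.cls A₁)) * max 1 (u₁ x₁))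
            ≤ C * ((|B| + 1) * D2 * max 1 (u₁ x₁)) := by
              refine mul_le_mul_of_nonneg_left ?_ hC.le
              exact mul_le_mul_of_nonneg_right h4 (by positivity)
          _ = _ := by ring
      have h6 := le_of_mul_le_mul_left h5 hd
      have h7 : C * (|B| + 1) * max 1 (u₁ x₁) < Q * max 1 (u₁ x₁) := by
        refine mul_lt_mul_of_pos_right ?_ (by positivity)
        rw [hQ]
        linarith
      linarith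
    refine ⟨Q, hQ0, fun x₁ => ⟨hmain x₁, fun e => ?_⟩⟩
    refine (northcott_max φ e (Q * max 1 (u₁ x₁))).subset ?_
    rintro w ⟨⟨hw, he⟩, hne⟩
    refine ⟨he, ?_⟩
    by_contra hlt
    push Not at hlt
    rw [hmain x₁ w hw hlt.le] at hne
    exact Set.not_nonempty_empty hne

end Pool.Agent.Q8.KS
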