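import Mathlib
import Pool.Agent.Q8.KS.Share3
import Pool.Agent.Q8.KS.Split

/-!
Points of maximal arithmetic degree in the fibres of a finite morphism to projective space.
-/

set_option autoImplicit false

open Filter Topology

namespace Pool.Agent.Q8.KS

variable {G : Type} [Group G]

/-- **At least `N / m` of the points of a fibre have maximal arithmetic degree.** -/
theorem share_main {V W : Variety G} (E : Effective W) (π : Morphism W V)
    (hπ : Function.Surjective π.pt) (φ : Cover W) :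
    ∃ Z ∈ E.closed, ∀ (f : Morphism V V) (A : V.Pic) (u : V.Pt → ℝ) (d : ℝ), V.IsAmple A →
      V.IsHeight A u → 1 < d → IsDynamicalDegree f A d → ∃ C : ℝ, 0 < C ∧
        (∀ t : φ.P, C ≤ φ.h t → (∀ w ∈ φ.fib t, w ∉ Z) →
          AtLeast φ t (φ.N / ((W.dimPred : ℝ) + 1)) (fun w => IsArithmeticDegree f u (π.pt w) d ∧
            ∀ k : ℕ, d ^ k * φ.h t ≤ C * u (f.pt^[k] (π.pt w)))) ∧
        (∀ w : W.Pt, (1 - 1 / ((W.dimPred : ℝ) + 1)) * φ.N < φ.relDeg w → C ≤ φ.h (φ.φ w) →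
          (∀ y ∈ φ.fib (φ.φ w), y ∉ Z) → IsArithmeticDegree f u (π.pt w) d) ∧
        ∀ e : ℕ, {w : W.Pt | (1 - 1 / ((W.dimPred : ℝ) + 1)) * φ.N < φ.relDeg w ∧
          (MulAction.orbit G (φ.φ w)).ncard ≤ e ∧ (∀ y ∈ φ.fib (φ.φ w), y ∉ Z) ∧
            ¬ IsArithmeticDegree f u (π.pt w) d}.Finite := by
  classical
  have hN : (0 : ℝ) < φ.N := by exact_mod_cast φ.N_pos
  obtain ⟨s, η, hs, hη, _⟩ := exists_lift V
  obtain ⟨Z, hZ, C₁, hup⟩ := upper_siu E s η hs hη π hπ φ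
    (ε := ((W.dimPred : ℝ) + 1) / (8 * φ.N)) (by positivity)
  refine ⟨Z, hZ, fun f A u d hA hu hd hdyn => ?_⟩
  obtain ⟨C, hC, hmain⟩ := share_dyn s η hs hη π hπ φ
    (δ := 1 / (8 * (φ.N : ℝ))) (by positivity) (by positivity) hup f hA hu hd hdyn
  have hone : ∀ t : φ.P, C ≤ φ.h t → (∀ w ∈ φ.fib t, w ∉ Z) →
      AtLeast φ t (φ.N / ((W.dimPred : ℝ) + 1)) (fun w => IsArithmeticDegree f u (π.pt w) d ∧
        ∀ k : ℕ, d ^ k * φ.h t ≤ C * u (f.pt^[k] (π.pt w))) := by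
    intro t ht htZ
    obtain ⟨S, hS, hSP, hw⟩ := hmain t ht htZ
    refine ⟨S, hS, hSP, ?_⟩
    have h1 : ∑ w ∈ S, (φ.mult w : ℝ) = ((∑ w ∈ S, φ.mult w : ℕ) : ℝ) := by push_cast; rfl
    rw [h1] at hw ⊢
    exact round_up φ.N_pos hw
  have htwo : ∀ w : W.Pt, (1 - 1 / ((W.dimPred : ℝ) + 1)) * φ.N < φ.relDeg w →
      C ≤ φ.h (φ.φ w) → (∀ y ∈ φ.fib (φ.φ w), y ∉ Z) → IsArithmeticDegree f u (π.pt w) d := by
    intro w hw hhw hwZ
    obtain ⟨S, hS, hSP, hp⟩ := hone (φ.φ w) hhw hwZ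
    refine rel_of_share φ (fun y => IsArithmeticDegree f u (π.pt y) d) (fun g y hy => ?_)
      ⟨S, hS, fun y hy => (hSP y hy).1, hp⟩ ?_
    · show IsArithmeticDegree f u (π.pt (g • y)) d
      rw [π.pt_smul]
      exact arith_smul f hu g hy
    · refine lt_of_le_of_lt (le_of_eq ?_) hw
      ring
  refine ⟨C, hC, hone, htwo, fun e => ?_⟩
  have hfin := φ.northcott e C
  have hfin2 : (⋃ t ∈ {t : φ.P | (MulAction.orbit G t).ncard ≤ e ∧ φ.h t ≤ C},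
      (φ.fib t : Set W.Pt)).Finite := hfin.biUnion fun t _ => (φ.fib t).finite_toSet
  refine hfin2.subset ?_
  rintro w ⟨hw1, hw2, hw3, hw4⟩
  refine Set.mem_biUnion (x := φ.φ w) ⟨hw2, ?_⟩ ?_
  · by_contra hlt
    exact hw4 (htwo w hw1 (not_le.1 hlt).le hw3)
  · rw [Finset.mem_coe, φ.mem_fib]

/-- **A uniform share of the points of every fibre.** -/
theorem share_unif {V W : Variety G} (π : Morphism W V) (hπ : Function.Surjective π.pt)
    {H₀ : W.Pic} (hH₀ : W.IsAmple H₀) :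
    ∃ κ : ℝ, 0 < κ ∧ ∀ φ : Cover W, (∃ t : ℝ, 0 < t ∧ W.cls φ.H = t • W.cls H₀) →
      ∀ (f : Morphism V V) (A : V.Pic) (u : V.Pt → ℝ) (d : ℝ), V.IsAmple A →
      V.IsHeight A u → 1 < d → IsDynamicalDegree f A d → ∃ C : ℝ, 0 < C ∧
        ∀ t : φ.P, C ≤ φ.h t →
          AtLeast φ t (κ * φ.N) (fun w => IsArithmeticDegree f u (π.pt w) d ∧
            ∀ k : ℕ, d ^ k * φ.h t ≤ C * u (f.pt^[k] (π.pt w))) := by
  obtain ⟨s, η, hs, hη, _⟩ := exists_lift V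
  obtain ⟨β, hβ, hall⟩ := upper_unif s η hη π hπ hH₀
  refine ⟨(2 * β)⁻¹, by positivity, fun φ hφ f A u d hA hu hd hdyn => ?_⟩
  obtain ⟨C₁, hup⟩ := hall φ hφ
  obtain ⟨C, hC, hmain⟩ := share_dyn s η hs hη π hπ φ (δ := 1 / 4) hβ (by norm_num) hup f hA hu
    hd hdyn
  refine ⟨C, hC, fun t ht => ?_⟩
  have := hmain t ht (fun _ _ => Set.notMem_empty _)
  have h1 : (1 - 2 * (1 / 4 : ℝ)) * φ.N / β = (2 * β)⁻¹ * φ.N := by
    field_simp
    norm_num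
  rwa [h1] at this

/-- **A uniform share of the points of every fibre**, with the consequences for the points of large
relative degree. -/
theorem share_every {V W : Variety G} (π : Morphism W V) (hπ : Function.Surjective π.pt)
    {H₀ : W.Pic} (hH₀ : W.IsAmple H₀) :
    ∃ κ : ℝ, 0 < κ ∧ ∀ φ : Cover W, (∃ t : ℝ, 0 < t ∧ W.cls φ.H = t • W.cls H₀) →
      ∀ (f : Morphism V V) (A : V.Pic) (u : V.Pt → ℝ) (d : ℝ), V.IsAmple A →
      V.IsHeight A u → 1 < d → IsDynamicalDegree f A d → ∃ C : ℝ, 0 < C ∧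
        (∀ t : φ.P, C ≤ φ.h t →
          AtLeast φ t (κ * φ.N) (fun w => IsArithmeticDegree f u (π.pt w) d ∧
            ∀ k : ℕ, d ^ k * φ.h t ≤ C * u (f.pt^[k] (π.pt w)))) ∧
        (∀ w : W.Pt, (1 - κ) * φ.N < φ.relDeg w → C ≤ φ.h (φ.φ w) →
          IsArithmeticDegree f u (π.pt w) d) ∧
        ∀ e : ℕ, {w : W.Pt | (1 - κ) * φ.N < φ.relDeg w ∧
          (MulAction.orbit G (φ.φ w)).ncard ≤ e ∧
            ¬ IsArithmeticDegree f u (π.pt w) d}.Finite := by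
  obtain ⟨κ, hκ, hall⟩ := share_unif π hπ hH₀
  refine ⟨κ, hκ, fun φ hφ f A u d hA hu hd hdyn => ?_⟩
  obtain ⟨C, hC, hone⟩ := hall φ hφ f A u d hA hu hd hdyn
  have htwo : ∀ w : W.Pt, (1 - κ) * φ.N < φ.relDeg w → C ≤ φ.h (φ.φ w) →
      IsArithmeticDegree f u (π.pt w) d := by
    intro w hw hhw
    obtain ⟨S, hS, hSP, hp⟩ := hone (φ.φ w) hhw
    refine rel_of_share φ (fun y => IsArithmeticDegree f u (π.pt y) d) (fun g y hy => ?_)
      ⟨S, hS, fun y hy => (hSP y hy).1, hp⟩ ?_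
    · show IsArithmeticDegree f u (π.pt (g • y)) d
      rw [π.pt_smul]
      exact arith_smul f hu g hy
    · refine lt_of_le_of_lt (le_of_eq ?_) hw
      ring
  refine ⟨C, hC, hone, htwo, fun e => ?_⟩
  refine (northcott_max φ e C).subset ?_
  rintro w ⟨hw1, hw2, hw4⟩
  refine ⟨hw2, ?_⟩
  by_contra hlt
  exact hw4 (htwo w hw1 (not_le.1 hlt).le)

end Pool.Agent.Q8.KS
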