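import Mathlib
import Pool.Agent.Q8.KS.Split

set_option autoImplicit false

open Filter Topology

namespace Pool.Agent.Q8.KS

variable {G : Type} [Group G]

lemma poly_geom_succ (m : ℕ) {s r : ℝ} (hs : 0 < s) (hsr : s < r) :
    ∃ C : ℝ, 0 < C ∧ ∀ k : ℕ, ((k : ℝ) + 1) ^ m * s ^ k ≤ C * r ^ k := by
  obtain ⟨C, hC, hb⟩ := poly_geom m hs hsr
  have hr : 0 < r := hs.trans hsr
  refine ⟨C * r / s + 1, by positivity, fun k => ?_⟩
  have h1 := hb (k + 1)
  push_cast at h1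
  have h2 : ((k : ℝ) + 1) ^ m * s ^ k = (((k : ℝ) + 1) ^ m * s ^ (k + 1)) / s := by
    rw [pow_succ]
    field_simp
  rw [h2, div_le_iff₀ hs]
  refine h1.trans ?_
  have h3 : (C * r / s + 1) * r ^ k * s = C * r ^ (k + 1) + r ^ k * s := by
    rw [pow_succ]
    field_simp
  rw [h3]
  have : 0 < r ^ k * s := by positivity
  linarith

/-- the square root of the growth function -/
lemma sqrt_gr (ℓ : ℕ) {d q : ℝ} (hd : 0 < d) (hq : 0 < q) (hdq : d < q ^ 2) :
    ∃ C : ℝ, 0 < C ∧ ∀ k : ℕ, √(gr ℓ d k) ≤ C * q ^ k := by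
  obtain ⟨C, hC, hb⟩ := poly_geom_succ ℓ hd hdq
  refine ⟨√C, Real.sqrt_pos.2 hC, fun k => ?_⟩
  have h1 : gr ℓ d k ≤ C * (q ^ k) ^ 2 := by
    have := hb k
    unfold gr
    refine this.trans (le_of_eq ?_)
    rw [← pow_mul, ← pow_mul, mul_comm 2 k]
  have h2 := Real.sqrt_le_sqrt h1
  rw [Real.sqrt_mul hC.le, Real.sqrt_sq (by positivity)] at h2
  exact h2

/-- The height of a class of small growth along an orbit. -/
lemma small_class (V : Variety G) (s : V.NS →ₗ[ℝ] V.Pic) (η : V.NS →ₗ[ℝ] (V.Pt → ℝ))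
    (hs : ∀ D, V.cls (s D) = D) (hη : ∀ D, V.IsHeight (s D) (η D)) (f : Morphism V V)
    {A : V.Pic} (hA : V.IsAmple A) {u : V.Pt → ℝ} (hu : V.IsHeight A u) {d : ℝ} (hd : 1 < d)
    (hdyn : IsDynamicalDegree f A d) {D : V.NS} {B r : ℝ} (hr0 : 0 < r) (hr : r < d)
    (hD : ∀ k : ℕ, ‖(f.ns ^ k) D‖ ≤ B * r ^ k) :
    ∃ q M : ℝ, 1 ≤ q ∧ q < d ∧ 0 < M ∧ ∀ (k : ℕ) (x : V.Pt),
      |η D (f.pt^[k] x)| ≤ M * q ^ k * max 1 (u x) := by
  have hd0 : 0 < d := by linarith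
  obtain ⟨ℓ, c0, B0, hc0, hB0, hlow, hup, hmain⟩ := along V s η hs hη f hA hu hd hdyn
  obtain ⟨K1, hK1, hb⟩ := lift_bound V s η hη V (Morphism.id V) hA hu
  obtain ⟨K2, hK2, he⟩ := lift_pull V s η hs hη f hA hu
  have hsd : √d < d := by
    rw [Real.sqrt_lt' hd0]
    nlinarith
  obtain ⟨m, hm⟩ : ∃ m : ℝ, m = max (max r 1) (√d) := ⟨_, rfl⟩
  have hmd : m < d := by
    rw [hm]
    exact max_lt (max_lt hr hd) hsd
  have hm1 : 1 ≤ m := by
    rw [hm]
    exact (le_max_right r 1).trans (le_max_left _ _)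
  have hmr : r ≤ m := by
    rw [hm]
    exact (le_max_left r 1).trans (le_max_left _ _)
  have hms : √d ≤ m := by
    rw [hm]
    exact le_max_right _ _
  obtain ⟨q1, h1, h2⟩ := exists_between hmd
  obtain ⟨q, h3, h4⟩ := exists_between h2
  have hq1 : 1 < q1 := by linarith
  have hq10 : 0 < q1 := by linarith
  have hq : 1 < q := by linarith
  have hdq : d < q1 ^ 2 := by
    have h5 : √d < q1 := by linarith
    rw [← Real.sqrt_lt' hq10]
    exact h5
  obtain ⟨C1, hC1, hg⟩ := sqrt_gr ℓ hd0 hq10 hdq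
  obtain ⟨C2, hC2, hp⟩ := poly_geom_succ 1 hq10 h3
  have hBnn : 0 ≤ B := by
    have := hD 0
    simp only [pow_zero, mul_one] at this
    exact (norm_nonneg _).trans this
  have hDq : ∀ k : ℕ, ‖(f.ns ^ k) D‖ ≤ B * q1 ^ k := fun k =>
    (hD k).trans (mul_le_mul_of_nonneg_left (pow_le_pow_left₀ hr0.le (by linarith) k) hBnn)
  have hus : ∀ (j : ℕ) (x : V.Pt), √(max 1 (u (f.pt^[j] x))) ≤
      √(B0 + 1) * C1 * q1 ^ j * √(max 1 (u x)) := by
    intro j x
    have h5 : max 1 (u (f.pt^[j] x)) ≤ (B0 + 1) * gr ℓ d j * max 1 (u x) := by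
      have h6 : 1 ≤ max 1 (u x) := le_max_left _ _
      have h7 := gr_one_le ℓ hd j
      have h8 : 1 ≤ gr ℓ d j * max 1 (u x) := one_le_mul_of_one_le_of_one_le h7 h6
      refine max_le ?_ ((hmain j x).1.trans ?_)
      · nlinarith
      · nlinarith
    have h6 := Real.sqrt_le_sqrt h5
    have h7 := gr_pos ℓ hd0 j
    rw [Real.sqrt_mul (by positivity), Real.sqrt_mul (by positivity)] at h6
    refine h6.trans ?_
    refine mul_le_mul_of_nonneg_right ?_ (Real.sqrt_nonneg _)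
    rw [mul_assoc]
    exact mul_le_mul_of_nonneg_left (hg j) (Real.sqrt_nonneg _)
  -- telescoping
  have htel : ∀ (k : ℕ) (x : V.Pt), |η D (f.pt^[k] x) - η ((f.ns ^ k) D) x|
      ≤ k * (K2 * B * (√(B0 + 1) * C1) * q1 ^ k * √(max 1 (u x))) := by
    intro k x
    have h5 : η D (f.pt^[k] x) - η ((f.ns ^ k) D) x
        = ∑ j ∈ Finset.range k, (η ((f.ns ^ (k - (j + 1))) D) (f.pt^[j + 1] x)
          - η ((f.ns ^ (k - j)) D) (f.pt^[j] x)) := by
      rw [Finset.sum_range_sub (fun j => η ((f.ns ^ (k - j)) D) (f.pt^[j] x))]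
      simp
    rw [h5]
    refine (Finset.abs_sum_le_sum_abs _ _).trans ?_
    have hterm : ∀ j ∈ Finset.range k, |η ((f.ns ^ (k - (j + 1))) D) (f.pt^[j + 1] x)
          - η ((f.ns ^ (k - j)) D) (f.pt^[j] x)| ≤
        K2 * B * (√(B0 + 1) * C1) * q1 ^ k * √(max 1 (u x)) := by
      intro j hj
      have hjk : j < k := Finset.mem_range.1 hj
      have h6 : (f.ns ^ (k - j)) D = f.ns ((f.ns ^ (k - (j + 1))) D) := by
        have : k - j = (k - (j + 1)) + 1 := by omega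
        rw [this, pow_succ']
        rfl
      rw [h6, Function.iterate_succ_apply']
      refine (he _ _).trans ?_
      have h7 := hDq (k - (j + 1))
      have h8 := hus j x
      have h9 : q1 ^ (k - (j + 1)) * q1 ^ j ≤ q1 ^ k := by
        rw [← pow_add]
        exact pow_le_pow_right₀ hq1.le (by omega)
      calc K2 * ‖(f.ns ^ (k - (j + 1))) D‖ * √(max 1 (u (f.pt^[j] x)))
          ≤ K2 * (B * q1 ^ (k - (j + 1))) * (√(B0 + 1) * C1 * q1 ^ j * √(max 1 (u x))) := by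
            refine mul_le_mul (mul_le_mul_of_nonneg_left h7 hK2.le) h8 (Real.sqrt_nonneg _)
              (by positivity)
        _ = K2 * B * (√(B0 + 1) * C1) * (q1 ^ (k - (j + 1)) * q1 ^ j) * √(max 1 (u x)) := by ring
        _ ≤ K2 * B * (√(B0 + 1) * C1) * q1 ^ k * √(max 1 (u x)) := by
            refine mul_le_mul_of_nonneg_right ?_ (Real.sqrt_nonneg _)
            exact mul_le_mul_of_nonneg_left h9 (by positivity)
    refine (Finset.sum_le_sum hterm).trans (le_of_eq ?_)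
    rw [Finset.sum_const, Finset.card_range, nsmul_eq_mul]
  refine ⟨q, K1 * B + K2 * B * (√(B0 + 1) * C1) * C2 + 1, hq.le, h4, by positivity, ?_⟩
  intro k x
  have hx1 : 1 ≤ max 1 (u x) := le_max_left _ _
  have hsq : √(max 1 (u x)) ≤ max 1 (u x) := by
    rw [Real.sqrt_le_left (by linarith)]
    nlinarith
  have h5 : |η ((f.ns ^ k) D) x| ≤ K1 * B * q ^ k * max 1 (u x) := by
    refine (hb ((f.ns ^ k) D) x).trans ?_
    refine mul_le_mul_of_nonneg_right ?_ (by linarith)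
    rw [mul_assoc]
    refine mul_le_mul_of_nonneg_left ((hDq k).trans ?_) hK1.le
    exact mul_le_mul_of_nonneg_left (pow_le_pow_left₀ hq10.le h3.le k) hBnn
  have h6 := htel k x
  have h7 : (k : ℝ) * (K2 * B * (√(B0 + 1) * C1) * q1 ^ k * √(max 1 (u x))) ≤
      K2 * B * (√(B0 + 1) * C1) * C2 * q ^ k * max 1 (u x) := by
    have h8 := hp k
    rw [pow_one] at h8
    have h9 : (k : ℝ) * q1 ^ k ≤ C2 * q ^ k := by
      have : 0 ≤ q1 ^ k := by positivity
      nlinarith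
    calc (k : ℝ) * (K2 * B * (√(B0 + 1) * C1) * q1 ^ k * √(max 1 (u x)))
        = K2 * B * (√(B0 + 1) * C1) * (k * q1 ^ k) * √(max 1 (u x)) := by ring
      _ ≤ K2 * B * (√(B0 + 1) * C1) * (C2 * q ^ k) * max 1 (u x) := by
          refine mul_le_mul (mul_le_mul_of_nonneg_left h9 (by positivity)) hsq
            (Real.sqrt_nonneg _) (by positivity)
      _ = _ := by ring
  have h10 : |η D (f.pt^[k] x)| ≤ |η D (f.pt^[k] x) - η ((f.ns ^ k) D) x| +
      |η ((f.ns ^ k) D) x| := by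
    have := abs_add_le (η D (f.pt^[k] x) - η ((f.ns ^ k) D) x) (η ((f.ns ^ k) D) x)
    simpa using this
  have h11 : 0 ≤ q ^ k * max 1 (u x) := by positivity
  calc |η D (f.pt^[k] x)| ≤ _ := h10
    _ ≤ K2 * B * (√(B0 + 1) * C1) * C2 * q ^ k * max 1 (u x) + K1 * B * q ^ k * max 1 (u x) :=
        add_le_add (h6.trans h7) h5
    _ ≤ _ := by nlinarith

/-- **Uniform bound for the returns.** -/
theorem uniform_returns {V W : Variety G} (π : Morphism W V) (hπ : Function.Surjective π.pt)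
    {H₀ : W.Pic} (hH₀ : W.IsAmple H₀) :
    ∃ κ : ℝ, 0 < κ ∧ ∀ (f : Morphism V V) (A : V.Pic) (d : ℝ), V.IsAmple A → 1 < d →
      IsDynamicalDegree f A d → ∀ (D : V.NS) (B r : ℝ), 0 < r → r < d →
      (∀ k : ℕ, ‖(f.ns ^ k) D‖ ≤ B * r ^ k) → ∀ (Z : Variety G) (q : Morphism Z V),
      q.ns D ∈ interior Z.Nef →
      ∀ φ : Cover W, (∃ t : ℝ, 0 < t ∧ W.cls φ.H = t • W.cls H₀) →
        ∃ (C : ℝ) (k₀ : ℕ), 0 < C ∧
          (∀ w : W.Pt, (1 - κ) * φ.N < φ.relDeg w → C ≤ φ.h (φ.φ w) → ∀ k, k₀ ≤ k →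
            ∀ z : Z.Pt, q.pt z ≠ f.pt^[k] (π.pt w)) ∧
          ∀ e : ℕ, {w : W.Pt | ((1 - κ) * φ.N < φ.relDeg w ∧
            (MulAction.orbit G (φ.φ w)).ncard ≤ e) ∧
              ∃ k, k₀ ≤ k ∧ ∃ z : Z.Pt, q.pt z = f.pt^[k] (π.pt w)}.Finite := by
  obtain ⟨κ, hκ, hall⟩ := finiteness π hπ hH₀
  refine ⟨κ, hκ, ?_⟩
  intro f A d hA hd hdyn D B r hr0 hr hD Z q hq φ hφ
  obtain ⟨u, hu'⟩ := Submodule.mkQ_surjective (bdd V.Pt) (V.height A)
  have hu : V.IsHeight A u := hu'.symm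
  obtain ⟨C, hC, hb, _⟩ := hall f A u d hA hu hd hdyn φ hφ
  have hd0 : 0 < d := by linarith
  obtain ⟨s, η, hs, hη, hinv⟩ := exists_lift V
  obtain ⟨ℓ, c0, B0, hc0, hB0, hlow, hup, hmain⟩ := along V s η hs hη f hA hu hd hdyn
  obtain ⟨p, M, hp1, hpd, hM, hsm⟩ := small_class V s η hs hη f hA hu hd hdyn hr0 hr hD
  have hqZ : Z.IsAmple (q.pic (s D)) := by
    unfold Variety.IsAmple
    rw [q.cls_pic, hs]
    exact hq
  obtain ⟨K, hK⟩ := height_bound Z hqZ (q.height_pic _ _ (hη D)) (q.height_pic _ _ hu)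
  have hgr : ∀ k, d ^ k ≤ gr ℓ d k := fun k => by
    unfold gr
    refine le_mul_of_one_le_left (by positivity) (one_le_pow₀ ?_)
    have : (0 : ℝ) ≤ k := Nat.cast_nonneg k
    linarith
  have hp0 : 0 < p := by linarith
  obtain ⟨E, hE⟩ : ∃ E : ℝ, E = V.deg (V.cls A) (V.cls A) := ⟨_, rfl⟩
  obtain ⟨P, hP⟩ : ∃ P : ℝ, P = C * |E| + 1 := ⟨_, rfl⟩
  have hP1 : 1 ≤ P := by
    rw [hP]
    have : 0 ≤ C * |E| := by positivity
    linarith
  obtain ⟨Q, hQ⟩ : ∃ Q : ℝ, Q = C * (|K| * ((M + 1) * P)) / c0 := ⟨_, rfl⟩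
  have hratio : 1 < d / p := by
    rw [lt_div_iff₀ hp0]
    linarith
  obtain ⟨k₀, hk₀⟩ := pow_unbounded_of_one_lt Q hratio
  have hmainw : ∀ w : W.Pt, (1 - κ) * φ.N < φ.relDeg w → C + 1 ≤ φ.h (φ.φ w) → ∀ k, k₀ ≤ k →
      ∀ z : Z.Pt, q.pt z ≠ f.pt^[k] (π.pt w) := by
    intro w hw hh k hk z hz
    have hC1 : C ≤ φ.h (φ.φ w) := by linarith
    have hh0 : 0 < φ.h (φ.φ w) := by linarith
    have hh1 : 1 ≤ φ.h (φ.φ w) := by linarith
    have h1 := ((hb w hw hC1).2 k).1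
    have h2 := ((hb w hw hC1).2 0).2
    simp only [pow_zero, Function.iterate_zero, id_eq] at h2
    have h2' : u (π.pt w) ≤ C * (E * φ.h (φ.φ w)) := by
      rw [hE]
      exact h2
    have h3 : max 1 (u (π.pt w)) ≤ P * φ.h (φ.φ w) := by
      refine max_le ?_ ?_
      · nlinarith
      · refine h2'.trans ?_
        have h4 : E * φ.h (φ.φ w) ≤ |E| * φ.h (φ.φ w) :=
          mul_le_mul_of_nonneg_right (le_abs_self E) hh0.le
        rw [hP]
        nlinarith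
    have h4 := hK z
    simp only [Function.comp_apply] at h4
    rw [hz] at h4
    have h5 := hsm k (π.pt w)
    have hpk : 1 ≤ p ^ k := one_le_pow₀ hp1
    have hm1 : 1 ≤ max 1 (u (π.pt w)) := le_max_left _ _
    have h6 : max 1 (η D (f.pt^[k] (π.pt w))) ≤ (M + 1) * (p ^ k * max 1 (u (π.pt w))) := by
      have h7 : 1 ≤ p ^ k * max 1 (u (π.pt w)) := one_le_mul_of_one_le_of_one_le hpk hm1
      refine max_le (by nlinarith) ?_
      refine (le_abs_self _).trans (h5.trans ?_)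
      nlinarith
    have h7 : u (f.pt^[k] (π.pt w)) ≤ |K| * ((M + 1) * (p ^ k * max 1 (u (π.pt w)))) := by
      refine (le_abs_self _).trans (h4.trans ?_)
      refine (mul_le_mul_of_nonneg_right (le_abs_self K) (by positivity)).trans ?_
      exact mul_le_mul_of_nonneg_left h6 (abs_nonneg K)
    have h8 : c0 * d ^ k * φ.h (φ.φ w) ≤
        C * (|K| * ((M + 1) * (p ^ k * (P * φ.h (φ.φ w))))) := by
      calc c0 * d ^ k * φ.h (φ.φ w)
          ≤ V.deg (V.cls A) ((f.ns ^ k) (V.cls A)) * φ.h (φ.φ w) := by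
            refine mul_le_mul_of_nonneg_right ?_ hh0.le
            exact (mul_le_mul_of_nonneg_left (hgr k) hc0.le).trans (hlow k)
        _ ≤ C * u (f.pt^[k] (π.pt w)) := h1
        _ ≤ C * (|K| * ((M + 1) * (p ^ k * max 1 (u (π.pt w))))) :=
            mul_le_mul_of_nonneg_left h7 hC.le
        _ ≤ _ := by
            refine mul_le_mul_of_nonneg_left ?_ hC.le
            refine mul_le_mul_of_nonneg_left ?_ (abs_nonneg K)
            refine mul_le_mul_of_nonneg_left ?_ (by positivity)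
            exact mul_le_mul_of_nonneg_left h3 (by positivity)
    have h9 : (d / p) ^ k ≤ Q := by
      rw [div_pow, hQ, div_le_div_iff₀ (by positivity) hc0]
      have h10 : d ^ k * c0 * φ.h (φ.φ w) ≤
          C * (|K| * ((M + 1) * P)) * p ^ k * φ.h (φ.φ w) := by
        calc d ^ k * c0 * φ.h (φ.φ w) = c0 * d ^ k * φ.h (φ.φ w) := by ring
          _ ≤ _ := h8
          _ = _ := by ring
      exact le_of_mul_le_mul_right h10 hh0
    have h10 : (d / p) ^ k₀ ≤ (d / p) ^ k := pow_le_pow_right₀ hratio.le hk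
    linarith
  refine ⟨C + 1, k₀, by positivity, hmainw, fun e => ?_⟩
  refine (northcott_max φ e (C + 1)).subset ?_
  rintro w ⟨⟨hw, he⟩, k, hk, z, hz⟩
  refine ⟨he, ?_⟩
  by_contra hlt
  push Not at hlt
  exact hmainw w hw hlt.le k hk z hz

end Pool.Agent.Q8.KS
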