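import Mathlib
import Pool.Agent.Q8.KS.Share4
import Pool.Agent.Q8.KS.Small

/-!
Returns of the orbits of the points of a fibre.
-/

set_option autoImplicit false

open Filter Topology

namespace Pool.Agent.Q8.KS

variable {G : Type} [Group G]

/-- The orbit of `x` under `f` does not meet the image of `q : Z → V` at the times `k ≥ k₀`. -/
def NoReturn {V Z : Variety G} (f : Morphism V V) (q : Morphism Z V) (k₀ : ℕ) (x : V.Pt) : Prop :=
  ∀ k, k₀ ≤ k → ∀ z : Z.Pt, q.pt z ≠ f.pt^[k] x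

lemma noReturn_smul {V Z : Variety G} (f : Morphism V V) (q : Morphism Z V) (k₀ : ℕ) (g : G)
    {x : V.Pt} (h : NoReturn f q k₀ x) : NoReturn f q k₀ (g • x) := by
  have hit : ∀ (k : ℕ) (y : V.Pt), f.pt^[k] (g • y) = g • f.pt^[k] y := by
    intro k
    induction k with
    | zero => exact fun _ => rfl
    | succ k ih =>
      intro y
      rw [Function.iterate_succ_apply, Function.iterate_succ_apply, f.pt_smul, ih]
  intro k hk z hz
  rw [hit] at hz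
  refine h k hk (g⁻¹ • z) ?_
  rw [q.pt_smul, hz, inv_smul_smul]

/-- A lower bound for the heights of the orbit excludes late returns. -/
lemma no_return {V W : Variety G} (π : Morphism W V) (f : Morphism V V) {A : V.Pic} {u : V.Pt → ℝ}
    {d : ℝ} (hA : V.IsAmple A) (hu : V.IsHeight A u) (hd : 1 < d)
    (hdyn : IsDynamicalDegree f A d) {D : V.NS} {B r : ℝ} (hr0 : 0 < r) (hr : r < d)
    (hD : ∀ k : ℕ, ‖(f.ns ^ k) D‖ ≤ B * r ^ k) {Z : Variety G} (q : Morphism Z V)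
    (hq : q.ns D ∈ interior Z.Nef) (φ : Cover W) {C : ℝ} (hC : 0 < C) :
    ∃ k₀ : ℕ, ∀ w : W.Pt, 1 ≤ φ.h (φ.φ w) →
      (∀ k : ℕ, d ^ k * φ.h (φ.φ w) ≤ C * u (f.pt^[k] (π.pt w))) →
        NoReturn f q k₀ (π.pt w) := by
  have hd0 : 0 < d := by linarith
  obtain ⟨s, η, hs, hη, hinv⟩ := exists_lift V
  obtain ⟨p, M, hp1, hpd, hM, hsm⟩ := small_class V s η hs hη f hA hu hd hdyn hr0 hr hD
  have hqZ : Z.IsAmple (q.pic (s D)) := by
    unfold Variety.IsAmple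
    rw [q.cls_pic, hs]
    exact hq
  obtain ⟨K, hK⟩ := height_bound Z hqZ (q.height_pic _ _ (hη D)) (q.height_pic _ _ hu)
  obtain ⟨K2, hK2⟩ := height_bound W φ.ample φ.height_H (π.height_pic _ _ hu)
  have hp0 : 0 < p := by linarith
  obtain ⟨P, hP⟩ : ∃ P : ℝ, P = |K2| + 1 := ⟨_, rfl⟩
  have hP1 : 1 ≤ P := by
    rw [hP]
    linarith [abs_nonneg K2]
  obtain ⟨Q, hQ⟩ : ∃ Q : ℝ, Q = C * (|K| * ((M + 1) * P)) := ⟨_, rfl⟩
  have hratio : 1 < d / p := by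
    rw [lt_div_iff₀ hp0]
    linarith
  obtain ⟨k₀, hk₀⟩ := pow_unbounded_of_one_lt Q hratio
  refine ⟨k₀, fun w hh1 hlow k hk z hz => ?_⟩
  have hh0 : 0 < φ.h (φ.φ w) := by linarith
  have h1 := hlow k
  have h3 : max 1 (u (π.pt w)) ≤ P * φ.h (φ.φ w) := by
    have h2 : u (π.pt w) ≤ K2 * max 1 (φ.h (φ.φ w)) := (le_abs_self _).trans (hK2 w)
    rw [max_eq_right hh1] at h2
    refine max_le (by nlinarith) (h2.trans ?_)
    refine mul_le_mul_of_nonneg_right ?_ hh0.le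
    rw [hP]
    linarith [le_abs_self K2]
  have h4 := hK z
  simp only [Function.comp_apply] at h4
  rw [hz] at h4
  have h5 := hsm k (π.pt w)
  have hpk : 1 ≤ p ^ k := one_le_pow₀ hp1
  have hm1 : 1 ≤ max 1 (u (π.pt w)) := le_max_left _ _
  have h6 : max 1 (η D (f.pt^[k] (π.pt w))) ≤ (M + 1) * (p ^ k * max 1 (u (π.pt w))) := by
    have h7 : 1 ≤ p ^ k * max 1 (u (π.pt w)) := one_le_mul_of_one_le_of_one_le hpk hm1
    refine max_le (by nlinarith) ?_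
    refine (le_abs_self _).trans (h5.trans ?_)
    nlinarith
  have h7 : u (f.pt^[k] (π.pt w)) ≤ |K| * ((M + 1) * (p ^ k * max 1 (u (π.pt w)))) := by
    refine (le_abs_self _).trans (h4.trans ?_)
    refine (mul_le_mul_of_nonneg_right (le_abs_self K) (by positivity)).trans ?_
    exact mul_le_mul_of_nonneg_left h6 (abs_nonneg K)
  have h8 : d ^ k * φ.h (φ.φ w) ≤
      C * (|K| * ((M + 1) * (p ^ k * (P * φ.h (φ.φ w))))) := by
    refine h1.trans (mul_le_mul_of_nonneg_left (h7.trans ?_) hC.le)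
    refine mul_le_mul_of_nonneg_left ?_ (abs_nonneg K)
    refine mul_le_mul_of_nonneg_left ?_ (by positivity)
    exact mul_le_mul_of_nonneg_left h3 (by positivity)
  have h9 : (d / p) ^ k ≤ Q := by
    rw [div_pow, hQ, div_le_iff₀ (by positivity)]
    have h10 : d ^ k * φ.h (φ.φ w) ≤
        C * (|K| * ((M + 1) * P)) * p ^ k * φ.h (φ.φ w) := by
      calc d ^ k * φ.h (φ.φ w) ≤ _ := h8
        _ = _ := by ring
    exact le_of_mul_le_mul_right h10 hh0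
  have h10 : (d / p) ^ k₀ ≤ (d / p) ^ k := pow_le_pow_right₀ hratio.le hk
  linarith

/-- **Returns of the points of a fibre.** -/
theorem share_returns {V W : Variety G} (E : Effective W) (π : Morphism W V)
    (hπ : Function.Surjective π.pt) (φ : Cover W) :
    ∃ Y ∈ E.closed, ∀ (f : Morphism V V) (A : V.Pic) (d : ℝ), V.IsAmple A → 1 < d →
      IsDynamicalDegree f A d → ∀ (D : V.NS) (B r : ℝ), 0 < r → r < d →
      (∀ k : ℕ, ‖(f.ns ^ k) D‖ ≤ B * r ^ k) → ∀ (Z : Variety G) (q : Morphism Z V),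
      q.ns D ∈ interior Z.Nef → ∃ (C : ℝ) (k₀ : ℕ),
        (∀ t : φ.P, C ≤ φ.h t → (∀ w ∈ φ.fib t, w ∉ Y) →
          AtLeast φ t (φ.N / ((W.dimPred : ℝ) + 1)) (fun w => NoReturn f q k₀ (π.pt w))) ∧
        (∀ w : W.Pt, (1 - 1 / ((W.dimPred : ℝ) + 1)) * φ.N < φ.relDeg w → C ≤ φ.h (φ.φ w) →
          (∀ y ∈ φ.fib (φ.φ w), y ∉ Y) → NoReturn f q k₀ (π.pt w)) ∧
        ∀ e : ℕ, {w : W.Pt | (1 - 1 / ((W.dimPred : ℝ) + 1)) * φ.N < φ.relDeg w ∧
          (MulAction.orbit G (φ.φ w)).ncard ≤ e ∧ (∀ y ∈ φ.fib (φ.φ w), y ∉ Y) ∧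
            ¬ NoReturn f q k₀ (π.pt w)}.Finite := by
  obtain ⟨Y, hY, hall⟩ := share_main E π hπ φ
  refine ⟨Y, hY, ?_⟩
  intro f A d hA hd hdyn D B r hr0 hr hD Z q hq
  obtain ⟨u, hu'⟩ := Submodule.mkQ_surjective (bdd V.Pt) (V.height A)
  have hu : V.IsHeight A u := hu'.symm
  obtain ⟨C, hC, hone, _, _⟩ := hall f A u d hA hu hd hdyn
  obtain ⟨k₀, hk₀⟩ := no_return π f hA hu hd hdyn hr0 hr hD q hq φ hC
  have h1 : ∀ t : φ.P, C + 1 ≤ φ.h t → (∀ w ∈ φ.fib t, w ∉ Y) →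
      AtLeast φ t (φ.N / ((W.dimPred : ℝ) + 1)) (fun w => NoReturn f q k₀ (π.pt w)) := by
    intro t ht htY
    obtain ⟨S, hS, hSP, hp⟩ := hone t (by linarith) htY
    refine ⟨S, hS, fun w hw => ?_, hp⟩
    have hφ : φ.φ w = t := (φ.mem_fib _ _).1 (hS hw)
    refine hk₀ w (by rw [hφ]; linarith) ?_
    rw [hφ]
    exact (hSP w hw).2
  have h2 : ∀ w : W.Pt, (1 - 1 / ((W.dimPred : ℝ) + 1)) * φ.N < φ.relDeg w →
      C + 1 ≤ φ.h (φ.φ w) → (∀ y ∈ φ.fib (φ.φ w), y ∉ Y) → NoReturn f q k₀ (π.pt w) := by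
    intro w hw hhw hwY
    refine rel_of_share φ (fun y => NoReturn f q k₀ (π.pt y)) (fun g y hy => ?_)
      (h1 (φ.φ w) hhw hwY) ?_
    · show NoReturn f q k₀ (π.pt (g • y))
      rw [π.pt_smul]
      exact noReturn_smul f q k₀ g hy
    · refine lt_of_le_of_lt (le_of_eq ?_) hw
      ring
  refine ⟨C + 1, k₀, h1, h2, fun e => ?_⟩
  refine (northcott_max φ e (C + 1)).subset ?_
  rintro w ⟨hw1, hw2, hw3, hw4⟩
  refine ⟨hw2, ?_⟩
  by_contra hlt
  exact hw4 (h2 w hw1 (not_le.1 hlt).le hw3)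

end Pool.Agent.Q8.KS
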